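import Pool.Agent.Mg.F994d64.G0524dd

set_option linter.all false

section

/-!
Definitions for the classification of the elements of `Λ` with no conjugate in the open unit disc.
-/

namespace Pool.Agent.MP_994d64_an.Ex

open Finset

/-- Sum of the squares of the first `N` coefficients. -/
noncomputable def En (N : ℕ) (φ : PowerSeries ℝ) : ℝ :=
  ∑ n ∈ range N, PowerSeries.coeff n φ ^ 2

/-- The real power series with integer coefficients `u`. -/
noncomputable def GS (u : ℕ → ℤ) : PowerSeries ℝ := PowerSeries.mk fun n => (u n : ℝ)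

/-- The backward orbit with digits `D` and contraction `t`. -/
noncomputable def RR (t : ℝ) (D : ℕ → ℤ) : ℕ → ℝ
  | 0 => 0
  | i + 1 => t * (RR t D i + D i)

/-- The digits `D` are admissible up to `N`, with preperiod `k`. -/
structure Dig (t : ℝ) (k N : ℕ) (D : ℕ → ℤ) : Prop where
  d0 : D 0 = 2 ∨ D 0 = -2
  lo : ∀ i, i < k → D i = 0 ∨ D i = 2 ∨ D i = -2
  hi : ∀ i, k ≤ i → i ≤ N → D i = 1 ∨ D i = -1
  bd : ∀ i, k ≤ i → i ≤ N → |RR t D i| ≤ 1

/-- What is used of the series `u = ± m / m*`, with `m` the minimal polynomial of `1 / t`. -/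
structure Data (t : ℝ) (u : ℕ → ℤ) : Prop where
  u0 : u 0 = 2
  e0 : ∀ (W : PowerSeries ℝ) (N : ℕ), En N W ≤ En N (GS u * W)
  e1 : ∀ (W : PowerSeries ℝ) (N : ℕ), En N ((PowerSeries.C t * PowerSeries.X - 1) * W) ≤
    En N ((PowerSeries.C t - PowerSeries.X) * (GS u * W))
  root : ∀ f h : Polynomial ℝ, GS u * (h : PowerSeries ℝ) = (f : PowerSeries ℝ) → f.eval t⁻¹ = 0
  back : ∃ k, ∀ N, ∃ E D : ℕ → ℤ,
    (∀ n, D n = ∑ i ∈ range (n + 1), u i * E (n - i)) ∧ Dig t k N D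

/-- Kneading coefficients of a sign sequence. -/
def KT (e : ℕ → ℤ) : ℕ → ℤ
  | 0 => 1
  | n + 1 => KT e n * e n

/-- Kneading series of a sign sequence. -/
noncomputable def KK (e : ℕ → ℤ) (t : ℝ) : ℝ := ∑' n, (KT e n : ℝ) * t ^ n

/-- A tent orbit that avoids the turning point and ends in an orientation reversing cycle. -/
structure Good (l : ℝ) (x : ℕ → ℝ) (e : ℕ → ℤ) : Prop where
  tent : Tent l x e
  ne : ∀ n, x n ≠ 0
  per : ∃ n p, 0 < p ∧ x (n + p) = x n ∧ KT e (n + p) = -KT e n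
  pos : ∀ t, 0 ≤ t → t < l⁻¹ → 0 < KK e t

lemma KT_sign {e : ℕ → ℤ} (he : ∀ n, e n = 1 ∨ e n = -1) (n : ℕ) : KT e n = 1 ∨ KT e n = -1 := by
  induction n with
  | zero => exact Or.inl rfl
  | succ n ih => rcases ih with h | h <;> rcases he n with h' | h' <;> simp [KT, h, h']

lemma KT_abs {e : ℕ → ℤ} (he : ∀ n, e n = 1 ∨ e n = -1) (n : ℕ) : |(KT e n : ℝ)| ≤ 1 := by
  rcases KT_sign he n with h | h <;> simp [h]

lemma KK_summable {e : ℕ → ℤ} (he : ∀ n, e n = 1 ∨ e n = -1) {t : ℝ} (h0 : 0 ≤ t) (h1 : t < 1) :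
    Summable fun n => (KT e n : ℝ) * t ^ n :=
  (prings_summable_norm _ (KT_abs he) h0 h1).of_norm

lemma Tent_sign {l : ℝ} {x : ℕ → ℝ} {e : ℕ → ℤ} (T : Tent l x e) (n : ℕ) :
    (0 < x n → e n = -1) ∧ (x n < 0 → e n = 1) := by
  have h := Conj_a_nonneg T n
  rcases T.sign n with h' | h' <;> rw [h'] at h ⊢ <;> push_cast at h <;>
    constructor <;> intro h2 <;> first | rfl | (exfalso; linarith)

end Pool.Agent.MP_994d64_an.Ex

end

section

namespace Pool.Agent.MP_994d64_an.Ex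

open Filter Topology

/-- The composition of `j` inverse branches of `x ^ 2 + c`, starting at the index `n`. -/
noncomputable def Pull_B (e : ℕ → ℤ) (c : ℝ) : ℕ → ℕ → ℝ → ℝ
  | 0, _, y => y
  | j + 1, n, y => e n * √(Pull_B e c j (n + 1) y - c)

lemma Pull_cont (e : ℕ → ℤ) (j n : ℕ) : Continuous fun q : ℝ × ℝ => Pull_B e q.1 j n q.2 := by
  induction j generalizing n with
  | zero => exact continuous_snd
  | succ j ih => exact continuous_const.mul ((ih (n + 1)).sub continuous_fst).sqrt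

lemma Pull_mono {e : ℕ → ℤ} (he : ∀ n, e n = 1 ∨ e n = -1) (c : ℝ) (j n : ℕ) :
    (KT e (n + j) = KT e n → Monotone (Pull_B e c j n)) ∧
      (KT e (n + j) = -KT e n → Antitone (Pull_B e c j n)) := by
  induction j generalizing n with
  | zero =>
    refine ⟨fun _ => monotone_id, fun h => ?_⟩
    rw [add_zero] at h
    rcases KT_sign he n with h' | h' <;> rw [h'] at h <;> omega
  | succ j ih =>
    obtain ⟨h1, h2⟩ := ih (n + 1)
    have h3 : n + (j + 1) = n + 1 + j := by ring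
    have h4 : KT e (n + 1) = KT e n * e n := rfl
    rw [h3]
    rw [h4] at h1 h2
    have h5 : ∀ {x y : ℝ}, x ≤ y → √(x - c) ≤ √(y - c) := fun h =>
      Real.sqrt_le_sqrt (sub_le_sub_right h c)
    rcases he n with h | h
    · rw [h, mul_one] at h1 h2
      refine ⟨fun hk x y hxy => ?_, fun hk x y hxy => ?_⟩
      · simpa only [Pull_B, h, Int.cast_one, one_mul] using h5 (h1 hk hxy)
      · simpa only [Pull_B, h, Int.cast_one, one_mul] using h5 (h2 hk hxy)
    · rw [h, mul_neg, mul_one] at h1 h2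
      rw [neg_neg] at h2
      refine ⟨fun hk x y hxy => ?_, fun hk x y hxy => ?_⟩
      · simpa only [Pull_B, h, Int.cast_neg, Int.cast_one, neg_mul, one_mul, neg_le_neg_iff]
          using h5 (h2 hk hxy)
      · simpa only [Pull_B, h, Int.cast_neg, Int.cast_one, neg_mul, one_mul, neg_le_neg_iff]
          using h5 (h1 hk hxy)

lemma Pull_bd {e : ℕ → ℤ} (he : ∀ n, e n = 1 ∨ e n = -1) {c : ℝ} (hc : -2 ≤ c) {y : ℝ}
    (hy : |y| ≤ 2) (j n : ℕ) : |Pull_B e c j n y| ≤ 2 := by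
  induction j generalizing n with
  | zero => exact hy
  | succ j ih =>
    have h1 : |(e n : ℝ)| = 1 := by rcases he n with h | h <;> simp [h]
    rw [Pull_B, abs_mul, h1, one_mul, abs_of_nonneg (Real.sqrt_nonneg _), Real.sqrt_le_iff]
    exact ⟨by norm_num, by linarith [(abs_le.1 (ih (n + 1))).2]⟩

lemma Pull_add (e : ℕ → ℤ) (c y : ℝ) (k j n : ℕ) :
    Pull_B e c (k + j) n y = Pull_B e c j n (Pull_B e c k (n + j) y) := by
  induction j generalizing n with
  | zero => rfl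
  | succ j ih =>
    have h3 : n + (j + 1) = n + 1 + j := by ring
    rw [← add_assoc, Pull_B, Pull_B, ih, h3]

lemma Pull_per {e : ℕ → ℤ} {n0 p : ℕ} (hper : ∀ n, n0 ≤ n → e (n + p) = e n) (c y : ℝ)
    (j n : ℕ) (hn : n0 ≤ n) : Pull_B e c j (n + p) y = Pull_B e c j n y := by
  induction j generalizing n with
  | zero => rfl
  | succ j ih =>
    have h3 : n + p + 1 = n + 1 + p := by ring
    rw [Pull_B, Pull_B, hper n hn, h3, ih (n + 1) (by omega)]

lemma Pull_fix {e : ℕ → ℤ} {n0 p : ℕ} (hper : ∀ n, n0 ≤ n → e (n + p) = e n) {c y : ℝ}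
    (hy : Pull_B e c p n0 y = y) (m : ℕ) : Pull_B e c p (n0 + m * p) y = y := by
  induction m with
  | zero => rwa [zero_mul, add_zero]
  | succ m ih => rwa [add_mul, one_mul, ← add_assoc, Pull_per hper c y p _ (by omega)]

lemma Pull_ind {e : ℕ → ℤ} {n0 p : ℕ} (hper : ∀ n, n0 ≤ n → e (n + p) = e n) {c y : ℝ}
    (hy : Pull_B e c p n0 y = y) {n j m : ℕ} (h : n + j = n0 + m * p) (k : ℕ) :
    Pull_B e c (k * p + j) n y = Pull_B e c j n y := by
  induction k with
  | zero => rw [zero_mul, zero_add]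
  | succ k ih =>
    have h1 : (k + 1) * p + j = p + (k * p + j) := by ring
    have h2 : n + (k * p + j) = n0 + (m + k) * p := by linear_combination h
    rw [h1, Pull_add, h2, Pull_fix hper hy, ih]

lemma Pull_xi (Φ : ℝ → ℝ → ℝ) (hc : Continuous fun q : ℝ × ℝ => Φ q.1 q.2)
    (ha : ∀ c, Antitone (Φ c)) (hb : ∀ c ∈ Set.Icc (-2 : ℝ) 0, ∀ y, |y| ≤ 2 → |Φ c y| ≤ 2) :
    ∃ ξ : ℝ → ℝ, ContinuousOn ξ (Set.Icc (-2) 0) ∧
      ∀ c ∈ Set.Icc (-2 : ℝ) 0, |ξ c| ≤ 2 ∧ Φ c (ξ c) = ξ c := by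
  have h1 : ∀ c, ∃ y, c ∈ Set.Icc (-2 : ℝ) 0 → |y| ≤ 2 ∧ Φ c y = y := by
    intro c
    by_cases h : c ∈ Set.Icc (-2 : ℝ) 0
    · have h2 : Continuous fun y => Φ c y - y :=
        (hc.comp (continuous_const.prodMk continuous_id)).sub continuous_id
      have h3 := (abs_le.1 (hb c h 2 (by norm_num))).2
      have h4 := (abs_le.1 (hb c h (-2) (by norm_num))).1
      obtain ⟨y, hy, hy'⟩ := intermediate_value_Icc' (a := -2) (b := 2) (by norm_num)
        h2.continuousOn (show (0 : ℝ) ∈ _ from ⟨by linarith, by linarith⟩)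
      exact ⟨y, fun _ => ⟨abs_le.2 hy, sub_eq_zero.1 hy'⟩⟩
    · exact ⟨0, fun h' => absurd h' h⟩
  choose ξ hξ using h1
  refine ⟨ξ, fun c0 h0 => ?_, hξ⟩
  have h5 : ∀ a, Continuous fun c => Φ c a := fun a =>
    hc.comp (continuous_id.prodMk continuous_const)
  refine tendsto_order.2 ⟨fun a h => ?_, fun a h => ?_⟩
  · have h2 : a < Φ c0 a := by linarith [ha c0 h.le, (hξ c0 h0).2]
    filter_upwards [self_mem_nhdsWithin,
      nhdsWithin_le_nhds ((h5 a).continuousAt.eventually (lt_mem_nhds h2))] with c h3 h4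
    by_contra h6
    linarith [ha c (not_lt.1 h6), (hξ c h3).2, not_lt.1 h6]
  · have h2 : Φ c0 a < a := by linarith [ha c0 h.le, (hξ c0 h0).2]
    filter_upwards [self_mem_nhdsWithin,
      nhdsWithin_le_nhds ((h5 a).continuousAt.eventually (gt_mem_nhds h2))] with c h3 h4
    by_contra h6
    linarith [ha c (not_lt.1 h6), (hξ c h3).2, not_lt.1 h6]

theorem pull (e : ℕ → ℤ) (he : ∀ n, e n = 1 ∨ e n = -1) (n0 p : ℕ) (hp : 0 < p)
    (hper : ∀ n, n0 ≤ n → e (n + p) = e n) (hodd : KT e (n0 + p) = -KT e n0) :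
    ∃ X : ℕ → ℝ → ℝ, (∀ n, ContinuousOn (X n) (Set.Icc (-2) 0)) ∧ ∀ c ∈ Set.Icc (-2 : ℝ) 0,
      (∀ n, X n c = e n * √(X (n + 1) c - c)) ∧ (∀ n, |X n c| ≤ 2) ∧
        ∀ n, n0 ≤ n → X (n + p) c = X n c := by
  obtain ⟨ξ, hc, hξ⟩ := Pull_xi (fun c => Pull_B e c p n0) (Pull_cont e p n0)
    (fun c => (Pull_mono he c p n0).2 hodd) fun c h y hy => Pull_bd he h.1 hy p n0
  obtain ⟨q, rfl⟩ : ∃ q, p = q + 1 := ⟨p - 1, by omega⟩
  refine ⟨fun n c => Pull_B e c (n0 + n * q) n (ξ c), fun n => ?_, fun c h => ⟨fun n => ?_,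
    fun n => Pull_bd he h.1 (hξ c h).1 _ _, fun n hn => ?_⟩⟩
  · exact (Pull_cont e _ n).comp_continuousOn (continuousOn_id.prodMk hc)
  · have h1 : 1 * (q + 1) + (n0 + n * q) = n0 + (n + 1) * q + 1 := by ring
    have h2 := Pull_ind hper (hξ c h).2 (n := n) (j := n0 + n * q) (m := n) (by ring) 1
    rw [h1] at h2
    exact h2.symm
  · have h1 : q * (q + 1) + (n0 + n * q) = n0 + (n + (q + 1)) * q := by ring
    have h2 := Pull_ind hper (hξ c h).2 (n := n) (j := n0 + n * q) (m := n) (by ring) q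
    rw [h1] at h2
    exact (Pull_per hper c _ _ n hn).trans h2

end Pool.Agent.MP_994d64_an.Ex

end

section

namespace Pool.Agent.MP_994d64_an.Ex

open Finset

lemma Order_step {l : ℝ} {x : ℕ → ℝ} {e : ℕ → ℤ} (T : Tent l x e) (hx : ∀ n, x n ≠ 0) {c : ℝ}
    {X : ℕ → ℝ} (hX : ∀ n, X n = e n * √(X (n + 1) - c)) (i : ℕ) :
    ∀ a b, x b < x a → 2 < l ^ i * (x a - x b) → X a ≤ X b := by
  have hl : 0 < l := by linarith [T.one_lt]
  induction i with
  | zero =>
    intro a b _ h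
    have h1 := abs_le.1 (Conj_abs_le T a)
    have h2 := abs_le.1 (Conj_abs_le T b)
    rw [pow_zero, one_mul] at h
    linarith [h1.2, h2.1]
  | succ i ih =>
    intro a b hab h
    have sa := T.step a
    have sb := T.step b
    have hd : 0 < l * (x a - x b) := mul_pos hl (by linarith)
    rw [pow_succ, mul_assoc] at h
    rw [hX a, hX b]
    rcases lt_or_gt_of_ne (hx a) with ha | ha
    · have ea := (Tent_sign T a).2 ha
      have eb := (Tent_sign T b).2 (hab.trans ha)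
      rw [ea] at sa ⊢
      rw [eb] at sb ⊢
      push_cast at sa sb ⊢
      have h1 : x (a + 1) - x (b + 1) = l * (x a - x b) := by rw [sa, sb]; ring
      have h2 := ih (a + 1) (b + 1) (by linarith) (by rw [h1]; exact h)
      rw [one_mul, one_mul]
      exact Real.sqrt_le_sqrt (by linarith)
    · have ea := (Tent_sign T a).1 ha
      rcases lt_or_gt_of_ne (hx b) with hb | hb
      · have eb := (Tent_sign T b).2 hb
        rw [ea, eb]
        push_cast
        linarith [Real.sqrt_nonneg (X (a + 1) - c), Real.sqrt_nonneg (X (b + 1) - c)]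
      · have eb := (Tent_sign T b).1 hb
        rw [ea] at sa ⊢
        rw [eb] at sb ⊢
        push_cast at sa sb ⊢
        have h1 : x (b + 1) - x (a + 1) = l * (x a - x b) := by rw [sa, sb]; ring
        have h2 := ih (b + 1) (a + 1) (by linarith) (by rw [h1]; exact h)
        have h3 : √(X (b + 1) - c) ≤ √(X (a + 1) - c) := Real.sqrt_le_sqrt (by linarith)
        linarith

lemma Order_sum {l : ℝ} {x : ℕ → ℝ} {e : ℕ → ℤ} (T : Tent l x e) (n : ℕ) :
    ∑ j ∈ range (n + 1), (KT e j : ℝ) * l⁻¹ ^ j = KT e n * x n * l⁻¹ ^ n := by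
  have hl : l ≠ 0 := by linarith [T.one_lt]
  induction n with
  | zero => simp [KT, T.x0]
  | succ n ih =>
    rw [sum_range_succ, ih, T.step n, KT, pow_succ]
    rcases T.sign n with h | h <;> rw [h] <;> push_cast <;> field_simp <;> ring

lemma Order_block {e : ℕ → ℤ} {q : ℕ} (h : ∀ n, (n + 1) % q ≠ 0 → e n = e (n % q)) (r j : ℕ)
    (hj : j < q) : KT e (r * q + j) = KT e (r * q) * KT e j := by
  induction j with
  | zero => simp [KT]
  | succ j ih =>
    have h1 : (r * q + j + 1) % q = j + 1 := by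
      rw [add_assoc, Nat.mul_add_mod_self_right, Nat.mod_eq_of_lt hj]
    have h2 : (r * q + j) % q = j := by
      rw [Nat.mul_add_mod_self_right, Nat.mod_eq_of_lt (by omega)]
    rw [← add_assoc, KT, KT, ih (by omega), h (r * q + j) (by omega), h2, mul_assoc]

lemma Order_eps {s : ℤ} (hs : s = 1 ∨ s = -1) {y : ℝ} (h : 0 < s * y) (b : Bool) :
    eps (y, b) = s := by
  rcases hs with rfl | rfl
  · exact if_pos ((pos_iff _).2 (Or.inl (by simpa using h)))
  · have h1 : pos (y, b) = false := (not_pos_iff _).2 (Or.inl (by simpa using h))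
    simp [eps, h1]

lemma Order_th {c : ℝ} {X : ℕ → ℝ} {e : ℕ → ℤ} (he : ∀ n, e n = 1 ∨ e n = -1)
    (hX : ∀ n, X (n + 1) = X n ^ 2 + c) (n : ℕ) : ∀ (k : ℕ) (b : Bool),
    (∀ i, i ≤ k + n → 0 < e i * X i) → KT e k * th c n (X k, b) = KT e (k + n + 1) := by
  induction n with
  | zero =>
    intro k b hs
    rw [th, Order_eps (he k) (hs k le_rfl)]
    rfl
  | succ n ih =>
    intro k b hs
    have h1 := ih (k + 1) (if pos (X k, b) then b else !b) fun i hi => hs i (by omega)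
    rw [th, Order_eps (he k) (hs k (by omega)), ← mul_assoc,
      show k + (n + 1) + 1 = k + 1 + n + 1 by omega, ← h1, hX k]
    rfl

theorem order {l : ℝ} {x : ℕ → ℝ} {e : ℕ → ℤ} (T : Tent l x e) (hx : ∀ n, x n ≠ 0) {c : ℝ}
    {X : ℕ → ℝ} (hX : ∀ n, X n = e n * √(X (n + 1) - c)) (n : ℕ) : X 0 ≤ X n := by
  cases n with
  | zero => exact le_rfl
  | succ n =>
    have h1 : 0 < l * |x n| := mul_pos (by linarith [T.one_lt]) (abs_pos.2 (hx n))
    have h2 : 0 < x 0 - x (n + 1) := by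
      rw [T.x0, Conj_step T n]
      linarith
    obtain ⟨i, hi⟩ := pow_unbounded_of_one_lt (2 / (x 0 - x (n + 1))) T.one_lt
    exact Order_step T hx hX i 0 (n + 1) (by linarith) ((div_lt_iff₀ h2).1 hi)

theorem KK_zero {l : ℝ} {x : ℕ → ℝ} {e : ℕ → ℤ} (T : Tent l x e) : KK e l⁻¹ = 0 := by
  have h0 : 0 ≤ l⁻¹ := inv_nonneg.2 (by linarith [T.one_lt])
  have h1 : l⁻¹ < 1 := inv_lt_one_of_one_lt₀ T.one_lt
  have h2 := ((KK_summable T.sign h0 h1).hasSum.tendsto_sum_nat).comp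
    (Filter.tendsto_add_atTop_nat 1)
  refine tendsto_nhds_unique h2 (squeeze_zero_norm (fun n => ?_)
    (tendsto_pow_atTop_nhds_zero_of_lt_one h0 h1))
  rw [Function.comp_apply, Order_sum T n, Real.norm_eq_abs, abs_mul, abs_mul,
    abs_of_nonneg (pow_nonneg h0 n)]
  exact mul_le_of_le_one_left (pow_nonneg h0 n)
    (mul_le_one₀ (KT_abs T.sign n) (abs_nonneg _) (Conj_abs_le T n))

theorem KK_block {e : ℕ → ℤ} (he : ∀ n, e n = 1 ∨ e n = -1) {q : ℕ} (hq : 0 < q)
    (h : ∀ n, (n + 1) % q ≠ 0 → e n = e (n % q)) {t : ℝ} (h0 : 0 ≤ t) (h1 : t < 1)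
    (hW : ∑ j ∈ range q, (KT e j : ℝ) * t ^ j = 0) : KK e t = 0 := by
  have h2 : ∀ r, ∑ j ∈ range (r * q), (KT e j : ℝ) * t ^ j = 0 := by
    intro r
    induction r with
    | zero => simp
    | succ r ih =>
      rw [add_mul, one_mul, sum_range_add, ih, zero_add,
        sum_congr rfl (g := fun j => (KT e (r * q) : ℝ) * t ^ (r * q) * ((KT e j : ℝ) * t ^ j))
          fun j hj => by
            rw [Order_block h r j (mem_range.1 hj), pow_add]
            push_cast
            ring,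
        ← mul_sum, hW, mul_zero]
  have h3 := ((KK_summable he h0 h1).hasSum.tendsto_sum_nat).comp
    (Filter.tendsto_id.atTop_mul_const' hq)
  refine tendsto_nhds_unique h3 (tendsto_const_nhds.congr fun r => ?_)
  exact (h2 r).symm

theorem th_itin {c : ℝ} {X : ℕ → ℝ} {e : ℕ → ℤ} (he : ∀ n, e n = 1 ∨ e n = -1)
    (hX : ∀ n, X (n + 1) = X n ^ 2 + c) (b : Bool) (n : ℕ)
    (hs : ∀ i, i ≤ n → 0 < e i * X i) : th c n (X 0, b) = KT e (n + 1) := by
  have h := Order_th he hX n 0 b fun i hi => hs i (by omega)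
  rwa [KT, one_mul, zero_add] at h

theorem Th_itin {c : ℝ} {X : ℕ → ℝ} {e : ℕ → ℤ} (he : ∀ n, e n = 1 ∨ e n = -1)
    (hX : ∀ n, X (n + 1) = X n ^ 2 + c) (hs : ∀ i, 0 < e i * X i) (b : Bool) {t : ℝ}
    (h0 : 0 ≤ t) (h1 : t < 1) : 1 + t * Th c (X 0, b) t = KK e t := by
  rw [KK, (KK_summable he h0 h1).tsum_eq_zero_add, Th, ← tsum_mul_left]
  congr 1
  · simp [KT]
  · refine tsum_congr fun n => ?_
    rw [th_itin he hX b n fun i _ => hs i]
    ring

theorem Good.per_e {l : ℝ} {x : ℕ → ℝ} {e : ℕ → ℤ} (G : Good l x e) :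
    ∃ n0 p, 0 < p ∧ (∀ n, n0 ≤ n → e (n + p) = e n) ∧ KT e (n0 + p) = -KT e n0 := by
  obtain ⟨n0, p, hp, h1, h2⟩ := G.per
  refine ⟨n0, p, hp, fun n hn => ?_, h2⟩
  have h3 : x (n + p) = x n := by
    induction n, hn using Nat.le_induction with
    | base => exact h1
    | succ n _ ih => rw [add_right_comm, Conj_step G.tent, Conj_step G.tent, ih]
  rcases lt_or_gt_of_ne (G.ne n) with h | h
  · rw [(Tent_sign G.tent n).2 h, (Tent_sign G.tent (n + p)).2 (h3 ▸ h)]
  · rw [(Tent_sign G.tent n).1 h, (Tent_sign G.tent (n + p)).1 (h3 ▸ h)]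

end Pool.Agent.MP_994d64_an.Ex

end

section

namespace Pool.Agent.MP_994d64_an.Ex

open Finset Filter Topology

lemma Local_th (c : ℝ) (n : ℕ) : ∀ P, th c (n + 1) P = th c n P * eps ((F c)^[n + 1] P) := by
  induction n with
  | zero => intro P; simp [th]
  | succ n ih =>
    intro P
    rw [th, ih, Function.iterate_succ_apply (F c) (n + 1), th, mul_assoc]

lemma Local_dd (c : ℝ) (n : ℕ) : dd c (n + 1) = dd c n * eps ((F c)^[n] (c, true)) := by
  cases n with
  | zero => simp [dd, th]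
  | succ n => rw [dd, dd, Local_th]

lemma Local_sign (c : ℝ) (n : ℕ) : dd c n = 1 ∨ dd c n = -1 := by
  induction n with
  | zero => exact Or.inl rfl
  | succ n ih =>
    rw [Local_dd, eps]
    rcases ih with h | h <;> split_ifs <;> simp [h]

lemma Local_eps {P Q : ℝ × Bool} (h : 0 < P.1 * Q.1) : eps P = eps Q := by
  rcases mul_pos_iff.1 h with ⟨h1, h2⟩ | ⟨h1, h2⟩
  · simp [eps, (pos_iff P).2 (Or.inl h1), (pos_iff Q).2 (Or.inl h2)]
  · simp [eps, (not_pos_iff P).2 (Or.inl h1), (not_pos_iff Q).2 (Or.inl h2)]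

lemma Local_same {w a b : ℝ} (h1 : 0 < w * a) (h2 : 0 < w * b) : 0 < a * b := by
  by_contra h
  nlinarith [mul_pos h1 h2, mul_nonneg (sq_nonneg w) (neg_nonneg.2 (not_lt.1 h))]

lemma Local_cont (j : ℕ) : Continuous fun p : ℝ × ℝ => (fun x : ℝ => x ^ 2 + p.1)^[j] p.2 := by
  induction j with
  | zero => exact continuous_snd
  | succ j ih =>
    simp only [Function.iterate_succ_apply']
    exact (ih.pow 2).add continuous_fst

lemma Local_lip {c : ℝ} (h1 : -2 ≤ c) (h2 : c ≤ 1 / 4) (k : ℕ) : ∀ u ∈ Set.Icc (-be c) (be c),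
    ∀ v ∈ Set.Icc (-be c) (be c),
    |(fun x : ℝ => x ^ 2 + c)^[k] u - (fun x : ℝ => x ^ 2 + c)^[k] v| ≤ 4 ^ k * |u - v| := by
  induction k with
  | zero => intro u _ v _; simp
  | succ k ih =>
    intro u hu v hv
    rw [Function.iterate_succ_apply, Function.iterate_succ_apply]
    refine (ih _ (mapsTo h1 h2 hu) _ (mapsTo h1 h2 hv)).trans ?_
    have e : u ^ 2 + c - (v ^ 2 + c) = (u + v) * (u - v) := by ring
    have hb := be_le h1
    have h4 : |u + v| ≤ 4 := abs_le.2 ⟨by linarith [hu.1, hv.1], by linarith [hu.2, hv.2]⟩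
    rw [e, abs_mul, pow_succ, mul_assoc]
    exact mul_le_mul_of_nonneg_left (mul_le_mul_of_nonneg_right h4 (abs_nonneg _)) (by positivity)

lemma Local_orbit {g : ℝ → ℝ} {L : ℝ} (hL : 0 ≤ L) (hg : ∀ y, |y| ≤ 1 / 2 → |g y - g 0| ≤ L * y ^ 2)
    (h1 : |g 0| ≤ 1 / 3) (h2 : 9 * L * |g 0| ≤ 2) (r : ℕ) :
    |g^[r] 0| ≤ 3 / 2 * |g 0| ∧ |g^[r + 1] 0 - g 0| ≤ |g 0| / 2 := by
  have key : ∀ y, |y| ≤ 3 / 2 * |g 0| → |g y - g 0| ≤ |g 0| / 2 := by
    intro y hy
    refine (hg y (by linarith)).trans ?_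
    have h3 : y ^ 2 ≤ (3 / 2 * |g 0|) ^ 2 := by
      rw [← sq_abs y]
      exact pow_le_pow_left₀ (abs_nonneg _) hy 2
    have h4 := mul_le_mul_of_nonneg_left h3 hL
    have h5 := mul_le_mul_of_nonneg_right h2 (abs_nonneg (g 0))
    nlinarith
  have h : |g^[r] 0| ≤ 3 / 2 * |g 0| := by
    induction r with
    | zero => simp
    | succ r ih =>
      rw [Function.iterate_succ_apply']
      have := key _ ih
      have h6 := abs_sub_abs_le_abs_sub (g (g^[r] 0)) (g 0)
      linarith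
  exact ⟨h, by rw [Function.iterate_succ_apply']; exact key _ h⟩

lemma Local_final {c c0 : ℝ} {q : ℕ}
    (hA : ∀ n, eps ((F c)^[n + q] (c, true)) = eps ((F c)^[n] (c, true)))
    (hB : ∀ j, j + 1 < q → eps ((F c)^[j] (c, true)) = eps ((F c0)^[j] (c0, true))) :
    ∃ a : ℝ, (a = 1 ∨ a = -1) ∧ ∀ t, 0 ≤ t → t < 1 →
      DD c t * (1 - a * t ^ q) = ∑ j ∈ range q, (dd c0 j : ℝ) * t ^ j := by
  have h1 : ∀ n, dd c (n + q) = dd c q * dd c n := by
    intro n
    induction n with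
    | zero => simp [dd]
    | succ n ih => rw [add_right_comm, Local_dd, ih, hA, Local_dd, mul_assoc]
  have h2 : ∀ j, j < q → dd c j = dd c0 j := by
    intro j
    induction j with
    | zero => intro _; rfl
    | succ j ih => intro h; rw [Local_dd, Local_dd, ih (by omega), hB j h]
  refine ⟨dd c q, by exact_mod_cast Local_sign c q, fun t h0 ht => ?_⟩
  have hs : Summable fun n => (dd c n : ℝ) * t ^ n :=
    (prings_summable_norm _ (fun n => by rcases Local_sign c n with h | h <;> simp [h]) h0 ht).of_norm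
  have h3 := hs.sum_add_tsum_nat_add q
  have h4 : ∑' n, (dd c (n + q) : ℝ) * t ^ (n + q) = dd c q * t ^ q * DD c t := by
    rw [DD, ← tsum_mul_left]
    refine tsum_congr fun n => ?_
    rw [h1]
    push_cast
    ring
  have h5 : ∑ j ∈ range q, (dd c0 j : ℝ) * t ^ j = ∑ j ∈ range q, (dd c j : ℝ) * t ^ j :=
    sum_congr rfl fun j hj => by rw [h2 j (mem_range.1 hj)]
  rw [h4] at h3
  rw [h5]
  change _ = DD c t at h3
  linarith

theorem local_knead {c0 : ℝ} (hc : c0 ∈ Set.Ioo (-2 : ℝ) (1 / 4)) {q : ℕ} (hq : 0 < q)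
    (h0 : (fun x : ℝ => x ^ 2 + c0)^[q] 0 = 0)
    (hne : ∀ j, 0 < j → j < q → (fun x : ℝ => x ^ 2 + c0)^[j] 0 ≠ 0) :
    ∀ᶠ c in 𝓝 c0, ∃ a : ℝ, (a = 1 ∨ a = -1) ∧ ∀ t, 0 ≤ t → t < 1 →
      DD c t * (1 - a * t ^ q) = ∑ j ∈ range q, (dd c0 j : ℝ) * t ^ j := by
  have hev : ∀ᶠ p : ℝ × ℝ in 𝓝 (c0, 0), ∀ j ∈ Ioo 0 q,
      0 < (fun x : ℝ => x ^ 2 + c0)^[j] 0 * (fun x : ℝ => x ^ 2 + p.1)^[j] p.2 := by
    refine (eventually_all_finset _).2 fun j hj => ?_
    refine (continuous_const.mul (Local_cont j)).continuousAt.eventually (lt_mem_nhds ?_)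
    exact mul_self_pos.2 (hne j (mem_Ioo.1 hj).1 (mem_Ioo.1 hj).2)
  obtain ⟨ε, hε, hb⟩ := Metric.eventually_nhds_iff.1 hev
  obtain ⟨k, rfl⟩ := Nat.exists_eq_succ_of_ne_zero hq.ne'
  have hd : Tendsto (fun c : ℝ => |(fun x : ℝ => x ^ 2 + c)^[k + 1] 0|) (𝓝 c0) (𝓝 0) := by
    have h1 : Continuous fun c : ℝ => |(fun x : ℝ => x ^ 2 + c)^[k + 1] 0| :=
      ((Local_cont (k + 1)).comp (continuous_id.prodMk continuous_const)).abs
    have h2 := h1.tendsto c0
    rwa [show (fun x : ℝ => x ^ 2 + c0)^[k + 1] 0 = 0 from h0, abs_zero] at h2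
  have hL : (0 : ℝ) < 4 ^ k := by positivity
  filter_upwards [Ioo_mem_nhds hc.1 hc.2, Metric.ball_mem_nhds c0 hε,
    hd.eventually (gt_mem_nhds (show (0 : ℝ) < 1 / 3 by norm_num)),
    hd.eventually (gt_mem_nhds (show (0 : ℝ) < ε / 2 by positivity)),
    hd.eventually (gt_mem_nhds (show (0 : ℝ) < 2 / (9 * 4 ^ k) by positivity))]
    with c hc1 hc2 hd1 hd2 hd3
  have hs : ∀ y, |y| < ε → ∀ j, 0 < j → j < k + 1 →
      0 < (fun x : ℝ => x ^ 2 + c0)^[j] 0 * (fun x : ℝ => x ^ 2 + c)^[j] y := by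
    intro y hy j h1 h2
    refine hb (y := (c, y)) ?_ j (mem_Ioo.2 ⟨h1, h2⟩)
    rw [Prod.dist_eq]
    exact max_lt hc2 (by simpa using hy)
  refine Local_final (fun n => ?_) fun j hj => Local_eps ?_
  · by_cases hz : (fun x : ℝ => x ^ 2 + c)^[k + 1] 0 = 0
    · have h1 : (F c)^[k + 1] (c, true) = (c, true) := by
        have h2 := (iter_fst c k).trans hz
        rw [Function.iterate_succ_apply']
        generalize (F c)^[k] (c, true) = P at h2
        obtain ⟨x, b⟩ := P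
        obtain rfl : x = 0 := h2
        cases b <;> simp [F, pos]
      rw [Function.iterate_add_apply, h1]
    · have hg : ∀ y, |y| ≤ 1 / 2 → |(fun x : ℝ => x ^ 2 + c)^[k + 1] y -
          (fun x : ℝ => x ^ 2 + c)^[k + 1] 0| ≤ 4 ^ k * y ^ 2 := by
        intro y hy
        have hb := be_ge c
        have hy' := abs_le.1 hy
        rw [Function.iterate_succ_apply, Function.iterate_succ_apply]
        refine (Local_lip hc1.1.le hc1.2.le k _
          (mapsTo hc1.1.le hc1.2.le ⟨by linarith [hy'.1], by linarith [hy'.2]⟩) _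
          (mapsTo hc1.1.le hc1.2.le ⟨by linarith, by linarith⟩)).trans (le_of_eq ?_)
        simp
      have ho := Local_orbit hL.le hg hd1.le (by
        rw [lt_div_iff₀ (by positivity)] at hd3
        linarith)
      have hw : ∀ j, j < k + 1 → ∃ w : ℝ, ∀ r, 0 < j + (k + 1) * r →
          0 < w * (fun x : ℝ => x ^ 2 + c)^[j + (k + 1) * r] 0 := by
        intro j hj
        rcases Nat.eq_zero_or_pos j with rfl | hj0
        · refine ⟨(fun x : ℝ => x ^ 2 + c)^[k + 1] 0, fun r hr => ?_⟩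
          obtain ⟨r, rfl⟩ := Nat.exists_eq_succ_of_ne_zero (show r ≠ 0 by rintro rfl; simp at hr)
          rw [zero_add, Function.iterate_mul]
          have h3 := abs_le.1 (ho r).2
          rcases lt_or_gt_of_ne hz with h4 | h4
          · rw [abs_of_neg h4] at h3
            exact mul_pos_of_neg_of_neg h4 (by linarith [h3.2])
          · rw [abs_of_pos h4] at h3
            exact mul_pos h4 (by linarith [h3.1])
        · refine ⟨(fun x : ℝ => x ^ 2 + c0)^[j] 0, fun r _ => ?_⟩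
          rw [Function.iterate_add_apply, Function.iterate_mul]
          refine hs _ ?_ j hj0 hj
          linarith [(ho r).1]
      refine Local_eps ?_
      rw [iter_fst, iter_fst]
      obtain ⟨w, hw⟩ := hw ((n + 1) % (k + 1)) (Nat.mod_lt _ hq)
      have e1 := Nat.mod_add_div (n + 1) (k + 1)
      have h5 := hw ((n + 1) / (k + 1)) (by omega)
      have h6 := hw ((n + 1) / (k + 1) + 1) (by positivity)
      rw [e1] at h5
      rw [mul_add_one, ← add_assoc, e1, add_right_comm] at h6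
      exact Local_same h6 h5
  · rw [iter_fst, iter_fst, mul_comm]
    exact hs 0 (by simpa using hε) (j + 1) j.succ_pos hj

end Pool.Agent.MP_994d64_an.Ex

end

section

namespace Pool.Agent.MP_994d64_an.Ex

open Finset Filter Topology

lemma Real_least {Ψ : ℝ → ℝ} {a b : ℝ} (hab : a ≤ b) (hc : ContinuousOn Ψ (Set.Icc a b))
    (ha : 0 ≤ Ψ a) (hb : Ψ b ≤ 0) :
    ∃ c ∈ Set.Icc a b, Ψ c = 0 ∧ ∀ c' ∈ Set.Icc a b, c' < c → 0 < Ψ c' := by
  have hcl : IsClosed (Set.Icc a b ∩ Ψ ⁻¹' {0}) :=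
    hc.preimage_isClosed_of_isClosed isClosed_Icc isClosed_singleton
  have hK : IsCompact (Set.Icc a b ∩ Ψ ⁻¹' {0}) :=
    isCompact_Icc.of_isClosed_subset hcl Set.inter_subset_left
  have hne : (Set.Icc a b ∩ Ψ ⁻¹' {0}).Nonempty := by
    obtain ⟨c, hc1, hc2⟩ := intermediate_value_Icc' hab hc ⟨hb, ha⟩
    exact ⟨c, hc1, hc2⟩
  obtain ⟨c, hc1, hmin⟩ := hK.exists_isLeast hne
  refine ⟨c, hc1.1, hc1.2, fun c' hc' hlt => ?_⟩
  by_contra hn
  have hsub : Set.Icc a c' ⊆ Set.Icc a b := Set.Icc_subset_Icc le_rfl hc'.2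
  obtain ⟨d, hd1, hd2⟩ := intermediate_value_Icc' hc'.1 (hc.mono hsub) ⟨not_lt.1 hn, ha⟩
  have := hmin ⟨hsub hd1, hd2⟩
  linarith [hd1.2]

lemma Real_fin {u : ℕ → ℝ} {n0 p : ℕ} (hp : 0 < p) (h : ∀ n, n0 ≤ n → u (n + p) = u n) :
    (Set.range u).Finite := by
  have key : ∀ n, ∃ m, m < n0 + p ∧ u n = u m := by
    intro n
    induction n using Nat.strong_induction_on with
    | _ n ih =>
      by_cases hn : n < n0 + p
      · exact ⟨n, hn, rfl⟩
      · obtain ⟨m, hm, hm'⟩ := ih (n - p) (by omega)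
        refine ⟨m, hm, ?_⟩
        rw [← hm', ← h (n - p) (by omega)]
        congr 1
        omega
  refine ((Set.finite_lt_nat (n0 + p)).image u).subset ?_
  rintro _ ⟨n, rfl⟩
  obtain ⟨m, hm, hm'⟩ := key n
  exact ⟨m, hm, hm'.symm⟩

lemma Real_pos {W : ℝ → ℝ} (hW : Continuous W) (h0 : 0 < W 0) {t : ℝ} (ht : 0 ≤ t)
    (hne : ∀ s, 0 ≤ s → s ≤ t → W s ≠ 0) : 0 < W t := by
  by_contra hn
  obtain ⟨d, hd1, hd2⟩ := intermediate_value_Icc' ht hW.continuousOn ⟨not_lt.1 hn, h0.le⟩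
  exact hne d hd1.1 hd1.2 hd2

lemma Real_mul {e : ℕ → ℤ} (he : ∀ n, e n = 1 ∨ e n = -1) {c : ℝ} {X : ℕ → ℝ}
    (hX : ∀ n, X n = e n * √(X (n + 1) - c)) (n : ℕ) : e n * X n = √(X (n + 1) - c) := by
  rw [hX n]
  rcases he n with h | h <;> simp [h]

lemma Real_sgn {e : ℕ → ℤ} (he : ∀ n, e n = 1 ∨ e n = -1) {c : ℝ} {X : ℕ → ℝ}
    (hX : ∀ n, X n = e n * √(X (n + 1) - c)) {n : ℕ} (hn : X n ≠ 0) : 0 < e n * X n := by
  have h1 : 0 ≤ e n * X n := by rw [Real_mul he hX]; exact Real.sqrt_nonneg _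
  refine lt_of_le_of_ne h1 (mul_ne_zero ?_ hn).symm
  rcases he n with h | h <;> simp [h]

lemma Real_step {l : ℝ} {x : ℕ → ℝ} {e : ℕ → ℤ} (G : Good l x e) {c : ℝ} {X : ℕ → ℝ}
    (hX : ∀ n, X n = e n * √(X (n + 1) - c)) (hc : c ≤ X 0) (n : ℕ) :
    X (n + 1) = X n ^ 2 + c := by
  have h1 : 0 ≤ X (n + 1) - c := by linarith [order G.tent G.ne hX (n + 1)]
  have h2 := Real.sq_sqrt h1
  rw [← Real_mul G.tent.sign hX] at h2
  rcases G.tent.sign n with h | h <;> rw [h] at h2 <;> push_cast at h2 <;> linarith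

lemma Real_fac {a t : ℝ} (ha : a = 1 ∨ a = -1) {q : ℕ} (hq : 0 < q) (h0 : 0 ≤ t) (h1 : t < 1) :
    0 < 1 - a * t ^ q := by
  have h2 : t ^ q < 1 := pow_lt_one₀ h0 h1 hq.ne'
  have h3 : 0 ≤ t ^ q := pow_nonneg h0 q
  rcases ha with h | h <;> rw [h] <;> linarith

/-- Data of a superstable parameter. -/
lemma Real_super {l : ℝ} {x : ℕ → ℝ} {e : ℕ → ℤ} (G : Good l x e) {c : ℝ} {X : ℕ → ℝ}
    (hc : c ∈ Set.Icc (-2 : ℝ) 0) (hX : ∀ n, X n = e n * √(X (n + 1) - c)) (h0 : X 0 = c)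
    {m : ℕ} (hm : X m = 0) (hlt : ∀ j, j < m → X j ≠ 0) :
    -2 < c ∧ (∀ n, (n + 1) % (m + 1) ≠ 0 → e n = e (n % (m + 1))) ∧
      ∀ᶠ c' in 𝓝 c, ∃ a : ℝ, (a = 1 ∨ a = -1) ∧ ∀ t, 0 ≤ t → t < 1 →
        DD c' t * (1 - a * t ^ (m + 1)) = ∑ j ∈ range (m + 1), (KT e j : ℝ) * t ^ j := by
  have he := G.tent.sign
  have hs := Real_step G hX h0.ge
  have hit : ∀ n, (fun x : ℝ => x ^ 2 + c)^[n + 1] 0 = X n := by
    intro n
    induction n with
    | zero => simp [h0]
    | succ n ih => rw [Function.iterate_succ_apply', ih, hs]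
  have hc2 : -2 < c := by
    refine lt_of_le_of_ne hc.1 fun h => ?_
    have h2 : ∀ n, X n ^ 2 = 4 := by
      intro n
      induction n with
      | zero => rw [h0, ← h]; norm_num
      | succ n ih => rw [hs, ih, ← h]; norm_num
    have := h2 m
    rw [hm] at this
    norm_num at this
  have hper : ∀ n, X (n + (m + 1)) = X n := by
    intro n
    induction n with
    | zero => rw [zero_add, hs, hm, h0]; simp
    | succ n ih => rw [show n + 1 + (m + 1) = n + (m + 1) + 1 by omega, hs, ih, hs]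
  have hmod : ∀ n, X n = X (n % (m + 1)) := fun n =>
    (Function.Periodic.map_mod_nat (f := X) (a := m + 1) hper n).symm
  refine ⟨hc2, fun n hn => ?_, ?_⟩
  · have h1 : n % (m + 1) < m := by
      have h2 : n % (m + 1) < m + 1 := Nat.mod_lt _ (Nat.succ_pos m)
      have h3 : n % (m + 1) ≠ m := by
        intro h3
        apply hn
        rw [Nat.add_mod, h3]
        rcases Nat.eq_zero_or_pos m with h4 | h4
        · subst h4; omega
        · rw [Nat.mod_eq_of_lt (show 1 < m + 1 by omega), Nat.mod_self]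
      omega
    have h4 := Real_sgn he hX (hlt _ h1)
    have h5 : X n ≠ 0 := by rw [hmod]; exact hlt _ h1
    have h6 := Real_sgn he hX h5
    rw [← hmod] at h4
    rcases he n with h | h <;> rcases he (n % (m + 1)) with h' | h' <;>
      rw [h] at h6 <;> rw [h'] at h4 <;> rw [h, h'] <;> push_cast at h4 h6 <;>
      (exfalso; linarith)
  · have hdd : ∀ j ∈ range (m + 1), ∀ t : ℝ, (dd c j : ℝ) * t ^ j = (KT e j : ℝ) * t ^ j := by
      intro j hj t
      have hj' : j < m + 1 := mem_range.1 hj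
      have : dd c j = KT e j := by
        cases j with
        | zero => rfl
        | succ i =>
          have h1 := th_itin he hs true i fun k hk => Real_sgn he hX (hlt k (by omega))
          rw [h0] at h1
          exact h1
      rw [this]
    have hl := local_knead (c0 := c) ⟨hc2, by linarith [hc.2]⟩ (Nat.succ_pos m)
      (by rw [hit, hm]) (fun j hj hjq => by
        obtain ⟨i, rfl⟩ : ∃ i, j = i + 1 := ⟨j - 1, by omega⟩
        rw [hit]
        exact hlt i (by omega))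
    filter_upwards [hl] with c' hc'
    obtain ⟨a, ha, hc'⟩ := hc'
    exact ⟨a, ha, fun t h0 h1 => (hc' t h0 h1).trans (sum_congr rfl fun j hj => hdd j hj t)⟩

theorem Good.realize {l : ℝ} {x : ℕ → ℝ} {e : ℕ → ℤ} (G : Good l x e) :
    ∃ c, PCF c ∧ Real.exp (ent c).toReal = l := by
  have T := G.tent
  have he := T.sign
  have hl0 : 0 < l := by linarith [T.one_lt]
  have hi0 : 0 < l⁻¹ := inv_pos.2 hl0
  have hi1 : l⁻¹ < 1 := inv_lt_one_of_one_lt₀ T.one_lt
  have he0 : e 0 = -1 := (Tent_sign T 0).1 (by rw [T.x0]; norm_num)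
  obtain ⟨n0, p, hp, hper, hodd⟩ := G.per_e
  obtain ⟨X, hXc, hX⟩ := pull e he n0 p hp hper hodd
  obtain ⟨c, hc, hc0, hmin⟩ := Real_least (Ψ := fun c => X 0 c - c) (a := -2) (b := 0)
    (by norm_num) ((hXc 0).sub continuousOn_id)
    (by
      have := (abs_le.1 ((hX (-2) ⟨le_rfl, by norm_num⟩).2.1 0)).1
      show 0 ≤ X 0 (-2) - -2
      linarith)
    (by
      have h1 := (hX 0 ⟨by norm_num, le_rfl⟩).1 0
      have h2 := Real.sqrt_nonneg (X (0 + 1) 0 - 0)
      rw [he0] at h1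
      push_cast at h1
      show X 0 0 - 0 ≤ 0
      linarith)
  have h0 : X 0 c = c := by
    have : X 0 c - c = 0 := hc0
    linarith
  have hXe : ∀ n, (fun n => X n c) n = e n * √((fun n => X n c) (n + 1) - c) := (hX c hc).1
  have hs := Real_step G hXe h0.ge
  have hpcf : PCF c := by
    refine Examples_pcf (S := Set.range fun n => X n c) (Real_fin hp (hX c hc).2.2) ⟨0, h0⟩ ?_
    rintro _ ⟨n, rfl⟩
    exact ⟨n + 1, hs n⟩
  refine ⟨c, hpcf, ?_⟩
  suffices h : (∀ t, 0 ≤ t → t < l⁻¹ → 0 < DD c t) ∧ DD c l⁻¹ = 0 by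
    rw [exp_ent hpcf hi0 hi1.le h.1 fun _ => h.2, inv_inv]
  by_cases hz : ∃ n, X n c = 0
  · classical
    obtain ⟨hc2, hblock, hloc⟩ := Real_super G hc hXe h0 (Nat.find_spec hz)
      fun j hj => Nat.find_min hz hj
    set m := Nat.find hz
    set W : ℝ → ℝ := fun t => ∑ j ∈ range (m + 1), (KT e j : ℝ) * t ^ j with hWd
    have hWc : Continuous W := by rw [hWd]; fun_prop
    have hW0 : 0 < W 0 := by simp [hWd, sum_range_succ', KT]
    have hWne : ∀ s, 0 ≤ s → s < l⁻¹ → W s ≠ 0 := fun s h1 h2 h3 =>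
      (G.pos s h1 h2).ne' (KK_block he (Nat.succ_pos m) hblock h1 (h2.trans hi1) h3)
    have hWpos : ∀ t, 0 ≤ t → t < l⁻¹ → 0 < W t := fun t h1 h2 =>
      Real_pos hWc hW0 h1 fun s h3 h4 => hWne s h3 (h4.trans_lt h2)
    have hDD : ∀ c' a t, (a = 1 ∨ a = -1) → 0 ≤ t → t < 1 →
        DD c' t * (1 - a * t ^ (m + 1)) = W t → 0 < W t → 0 < DD c' t := by
      intro c' a t ha h1 h2 h3 h4
      rw [← h3] at h4
      exact (mul_pos_iff_of_pos_right (Real_fac ha (Nat.succ_pos m) h1 h2)).1 h4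
    by_cases hW : W l⁻¹ = 0
    · obtain ⟨a, ha, hc'⟩ := hloc.self_of_nhds
      refine ⟨fun t h1 h2 => hDD c a t ha h1 (h2.trans hi1) (hc' t h1 (h2.trans hi1))
        (hWpos t h1 h2), ?_⟩
      have h1 : DD c l⁻¹ * (1 - a * l⁻¹ ^ (m + 1)) = 0 := (hc' _ hi0.le hi1).trans hW
      exact (mul_eq_zero.1 h1).resolve_right (Real_fac ha (Nat.succ_pos m) hi0.le hi1).ne'
    · exfalso
      have hWl : 0 < W l⁻¹ := Real_pos hWc hW0 hi0.le fun s h3 h4 => by
        rcases h4.lt_or_eq with h5 | h5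
        · exact hWne s h3 h5
        · rw [h5]; exact hW
      obtain ⟨c', hlt, ⟨a, ha, hc'⟩, hgt⟩ := (hloc.and (Ioi_mem_nhds hc2)).exists_lt
      have hm' : c' ∈ Set.Icc (-2 : ℝ) 0 := ⟨le_of_lt hgt, by linarith [hc.2]⟩
      have h1 : c' < X 0 c' := by
        have : 0 < X 0 c' - c' := hmin c' hm' hlt
        linarith
      have hXe' : ∀ n, (fun n => X n c') n = e n * √((fun n => X n c') (n + 1) - c') :=
        (hX c' hm').1
      have hs' := Real_step G hXe' h1.le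
      have hsg : ∀ i, 0 < e i * (fun n => X n c') i := by
        intro i
        rw [Real_mul he hXe']
        have := order T G.ne hXe' (i + 1)
        exact Real.sqrt_pos.2 (by linarith)
      have h2 := Th_itin he hs' hsg true hi0.le hi1
      have h3 := Th_mono c' (P := (c', true)) (Q := (X 0 c', true)) (Or.inl h1) hi0 hi1
        fun t h1 h2 => hDD c' a t ha h1 (h2.trans hi1) (hc' t h1 (h2.trans hi1)) (hWpos t h1 h2)
      have h4 := hDD c' a _ ha hi0.le hi1 (hc' _ hi0.le hi1) hWl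
      rw [DD_eq c' hi0.le hi1] at h4
      rw [KK_zero T] at h2
      have h5 := mul_le_mul_of_nonneg_left h3 hi0.le
      linarith
  · have hsg : ∀ i, 0 < e i * (fun n => X n c) i := fun i =>
      Real_sgn he hXe fun h => hz ⟨i, h⟩
    have hDD : ∀ t, 0 ≤ t → t < 1 → DD c t = KK e t := by
      intro t h1 h2
      have h3 := Th_itin he hs hsg true h1 h2
      rw [DD_eq c h1 h2, ← h3]
      simp only [h0]
    exact ⟨fun t h1 h2 => by rw [hDD t h1 (h2.trans hi1)]; exact G.pos t h1 h2,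
      by rw [hDD _ hi0.le hi1, KK_zero T]⟩

end Pool.Agent.MP_994d64_an.Ex

end

section

namespace Pool.Agent.MP_994d64_an.Ex

open Finset

section
variable {l : ℝ} {x : ℕ → ℝ} {e : ℕ → ℤ}

lemma Pos_y (T : Tent l x e) (n : ℕ) : (KT e n : ℝ) * x n = -(KT e (n + 1) * |x n|) := by
  rw [← Conj_a_abs T n, KT]
  rcases T.sign n with h | h <;> rw [h] <;> push_cast <;> ring

lemma Pos_step (T : Tent l x e) (n : ℕ) :
    (KT e (n + 1) : ℝ) * x (n + 1) = l * (KT e n * x n) + KT e (n + 1) := by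
  rw [Pos_y T n, Conj_step T n]
  ring

lemma Pos_sum (T : Tent l x e) (t : ℝ) (n : ℕ) :
    ∑ j ∈ range (n + 1), (KT e j : ℝ) * t ^ j =
      KT e n * x n * t ^ n + (1 - l * t) * ∑ j ∈ range n, KT e j * x j * t ^ j := by
  induction n with
  | zero => simp [T.x0]
  | succ n ih =>
    rw [sum_range_succ, ih, sum_range_succ, Pos_step T n]
    ring

lemma Pos_pair (T : Tent l x e) {t : ℝ} (h0 : 0 ≤ t) (h1 : t ≤ 1) (n : ℕ) :
    -(1 + (l - 1) * t) ≤ KT e n * x n + KT e (n + 1) * x (n + 1) * t := by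
  rw [Pos_step T n, Pos_y T n]
  have a0 := abs_nonneg (x n)
  have a1 := Conj_abs_le T n
  have a2 : 0 ≤ l * t := mul_nonneg (by linarith [T.one_lt]) h0
  have a3 : t ≤ l * t := le_mul_of_one_le_left h0 T.one_lt.le
  rcases KT_sign T.sign (n + 1) with h | h <;> rw [h] <;> push_cast
  · nlinarith [mul_le_mul_of_nonneg_left a1 a2]
  · nlinarith [mul_nonneg a2 a0]

lemma Pos_low (T : Tent l x e) {t : ℝ} (h0 : 0 ≤ t) (h1 : 2 * t ^ 2 ≤ 1) (j : ℕ) :
    (1 + (l - 1) * t) * (1 - 2 * t ^ 2 + 2 * t ^ (2 * j + 2)) ≤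
      ∑ i ∈ range (2 * j + 2), KT e i * x i * t ^ i := by
  have hK : 0 ≤ 1 + (l - 1) * t := by
    have := mul_nonneg (sub_pos.2 T.one_lt).le h0
    linarith
  induction j with
  | zero =>
    have e0 : e 0 = -1 := (Tent_sign T 0).1 (by rw [T.x0]; exact one_pos)
    have x1 : x 1 = 1 - l := by simpa [T.x0] using Conj_step T 0
    simp only [mul_zero, zero_add, sum_range_succ, sum_range_zero, KT, e0, x1, T.x0]
    push_cast
    exact le_of_eq (by ring)
  | succ j ih =>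
    rw [show 2 * (j + 1) + 2 = 2 * j + 2 + 1 + 1 by ring, sum_range_succ, sum_range_succ]
    have hp := pow_nonneg h0 (2 * j + 2)
    have k1 := mul_le_mul_of_nonneg_right (Pos_pair T h0 (by nlinarith) (2 * j + 2)) hp
    have k2 := mul_le_mul_of_nonneg_left h1 (mul_nonneg hK hp)
    rw [pow_succ t (2 * j + 2 + 1), pow_succ t (2 * j + 2)]
    linarith

end

theorem tent_pos {l : ℝ} {x : ℕ → ℝ} {e : ℕ → ℤ} (T : Tent l x e) (hl : 2 ≤ l ^ 2) (t : ℝ)
    (h0 : 0 ≤ t) (h1 : t < l⁻¹) : 0 < KK e t := by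
  have l1 := T.one_lt
  have a1 : l * t < 1 := by
    rwa [← one_div, lt_div_iff₀' (by linarith)] at h1
  have a2 : 0 ≤ l * t := mul_nonneg (by linarith) h0
  have a3 : 2 * t ^ 2 < 1 := by nlinarith [mul_le_mul_of_nonneg_right hl (sq_nonneg t)]
  have a4 : t < 1 := by nlinarith
  have hK : 0 < 1 + (l - 1) * t := by
    have := mul_nonneg (sub_pos.2 l1).le h0
    linarith
  have hm : Filter.Tendsto (fun j : ℕ => 2 * j + 2) Filter.atTop Filter.atTop :=
    Filter.tendsto_atTop_mono (fun j => by simp only [id]; omega) Filter.tendsto_id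
  have t1 := (KK_summable T.sign h0 a4).hasSum.tendsto_sum_nat.comp
    ((Filter.tendsto_add_atTop_nat 1).comp hm)
  have t2 := ((tendsto_pow_atTop_nhds_zero_of_lt_one h0 a4).comp hm).const_sub
    ((1 - l * t) * ((1 + (l - 1) * t) * (1 - 2 * t ^ 2)))
  refine lt_of_lt_of_le ?_ (le_of_tendsto_of_tendsto' t2 t1 fun j => ?_)
  · rw [sub_zero]
    exact mul_pos (sub_pos.2 a1) (mul_pos hK (sub_pos.2 a3))
  · simp only [Function.comp_apply]
    rw [Pos_sum T]
    have hp := pow_nonneg h0 (2 * j + 2)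
    have k1 := mul_le_mul_of_nonneg_left (Pos_low T h0 a3.le j) (sub_pos.2 a1).le
    have k2 : -1 ≤ (KT e (2 * j + 2) : ℝ) * x (2 * j + 2) := by
      have := abs_le.1 (Conj_abs_le T (2 * j + 2))
      rcases KT_sign T.sign (2 * j + 2) with h | h <;> rw [h] <;> push_cast <;> linarith
    have k3 := mul_le_mul_of_nonneg_right k2 hp
    have k4 := mul_nonneg (sub_pos.2 a1).le (mul_nonneg hK.le hp)
    nlinarith

theorem good_of_orbit {l : ℝ} (h0 : 0 < l) (h1 : 2 ≤ l ^ 2) (h2 : l ≤ 2) (x : ℕ → ℝ)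
    (x0 : x 0 = 1) (hs : ∀ n, x (n + 1) = 1 - l * |x n|) (n p : ℕ) (hp : 0 < p)
    (hne : ∀ i, i < n + p → x i ≠ 0) (hper : x (n + p) = x n)
    (hodd : ∏ i ∈ range p, (-x (n + i)) < 0) : ∃ e, Good l x e := by
  classical
  obtain ⟨e, he⟩ : ∃ e : ℕ → ℤ, ∀ m, e m = if 0 < x m then -1 else 1 := ⟨_, fun _ => rfl⟩
  have sg : ∀ m, e m = 1 ∨ e m = -1 := fun m => by
    rw [he]
    split_ifs <;> simp
  have ab : ∀ m, (e m : ℝ) * -x m = |x m| := fun m => by
    rw [he]
    split_ifs with h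
    · rw [abs_of_pos h]
      simp
    · rw [abs_of_nonpos (not_lt.1 h)]
      simp
  have pr : ∀ k, x (n + k + p) = x (n + k) := fun k => by
    induction k with
    | zero => exact hper
    | succ k ih => rw [show n + (k + 1) + p = n + k + p + 1 by ring, hs, ih, ← add_assoc, hs]
  have T : Tent l x e := by
    refine ⟨by nlinarith, h2, x0, sg, fun m => ?_, fun m => ?_, n, p, hp, hper, fun k => ?_⟩
    · rw [hs, ← ab]
      ring
    · cases m with
      | zero => exact x0.le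
      | succ m =>
        rw [hs]
        linarith [mul_nonneg h0.le (abs_nonneg (x m))]
    · rw [he, he, pr]
  have ne : ∀ m, x m ≠ 0 := fun m => by
    induction m using Nat.strong_induction_on with
    | h m ih =>
      rcases lt_or_ge m (n + p) with h | h
      · exact hne m h
      · obtain ⟨k, rfl⟩ : ∃ k, m = n + k + p := ⟨m - (n + p), by omega⟩
        rw [pr]
        exact ih _ (by omega)
  have key : ∀ q, 0 < (KT e (n + q) * KT e n : ℝ) * ∏ i ∈ range q, (-x (n + i)) := fun q => by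
    induction q with
    | zero => rcases KT_sign sg n with h | h <;> simp [h]
    | succ q ih =>
      have k := mul_pos ih (ab (n + q) ▸ abs_pos.2 (ne (n + q)))
      rw [prod_range_succ, ← add_assoc, KT]
      push_cast
      linarith
  refine ⟨e, T, ne, ⟨n, p, hp, hper, ?_⟩, tent_pos T h1⟩
  have k := key p
  rcases KT_sign sg (n + p) with h | h <;> rcases KT_sign sg n with h' | h' <;>
    rw [h, h'] at k ⊢ <;> push_cast at k <;> first | rfl | (exfalso; linarith)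

end Pool.Agent.MP_994d64_an.Ex

end
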