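import Mathlib
import Pool.Agent.Mg.F994d64ap.G499516

set_option linter.all false

section

/-!
The conjugate orbit of a finite critical orbit forces the two halves of the attractor of
`1 + z w`, `-1 + z w` to meet.
-/

set_option autoImplicit false

open Metric Set Filter Topology

namespace Pool.Agent.MP_994d64_an.TS

lemma sign_const {f : ℝ → ℝ} (hf : Continuous f) (h : ∀ t, f t ≠ 0) : 0 < f 0 * f 1 := by
  by_contra hc
  have h0 := h 0
  have h1 := h 1
  rcases lt_or_gt_of_ne h0 with a | a <;> rcases lt_or_gt_of_ne h1 with b | b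
  · exact hc (mul_pos_of_neg_of_neg a b)
  · obtain ⟨t, ht⟩ := intermediate_value_univ 0 1 hf ⟨a.le, b.le⟩
    exact h t ht
  · obtain ⟨t, ht⟩ := intermediate_value_univ 1 0 hf ⟨b.le, a.le⟩
    exact h t ht
  · exact hc (mul_pos a b)

lemma exists_sqrt {R : ℝ × ℝ → ℂ} (hR : Continuous R) (h : ∀ u, R u ≠ 0) :
    ∃ q : ℝ × ℝ → ℂ, Continuous q ∧ ∀ u, q u ^ 2 = R u := by
  obtain ⟨L, ⟨-, hL⟩, -⟩ := Complex.isCoveringMap_exp.existsUnique_continuousMap_lifts
    (⟨fun u => ⟨R u, h u⟩, hR.subtype_mk _⟩ : C(ℝ × ℝ, {z : ℂ // z ≠ 0})) (0, 0)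
    (Complex.log (R (0, 0))) (Subtype.ext (Complex.exp_log (h _)))
  refine ⟨fun u => Complex.exp (L u / 2), by fun_prop, fun u => ?_⟩
  have := congrArg Subtype.val (congrFun hL u)
  rw [← Complex.exp_nat_mul]
  simp only [Function.comp_apply, ContinuousMap.coe_mk] at this
  rw [← this]
  congr 1
  push_cast
  ring

/-- A path from the centre of a symmetric loop to a point left of the loop meets the loop. -/
lemma crossing (a b c : ℝ → ℂ) (ha : Continuous a) (hb : Continuous b) (hc : Continuous c)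
    (h01 : a 0 = b 1) (h10 : a 1 = b 0) (hs : ∀ t, a t + b t = 2 * c 0)
    (hl : ∀ t, (c 1).re < (a t).re ∧ (c 1).re < (b t).re) : ∃ s t, c s = a t ∨ c s = b t := by
  by_contra hn
  push Not at hn
  have na : ∀ s t, a t - c s ≠ 0 := fun s t => sub_ne_zero.2 (hn s t).1.symm
  have nb : ∀ s t, b t - c s ≠ 0 := fun s t => sub_ne_zero.2 (hn s t).2.symm
  obtain ⟨q, hq, hq2⟩ := exists_sqrt (R := fun u => (a u.2 - c u.1) / (b u.2 - c u.1))
    (Continuous.div (by fun_prop) (by fun_prop) fun u => nb _ _)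
    fun u => div_ne_zero (na _ _) (nb _ _)
  have e : ∀ s t, q (s, t) ^ 2 * (b t - c s) = a t - c s := fun s t => by
    rw [hq2]
    exact div_mul_cancel₀ _ (nb s t)
  have e0 : ∀ t, (q (0, t)).re = 0 ∧ (q (0, t)).im ≠ 0 := fun t => by
    have h1 : q (0, t) ^ 2 = -1 := by
      apply mul_right_cancel₀ (nb 0 t)
      rw [e]
      linear_combination hs t
    have h2 := congrArg Complex.re h1
    have h3 := congrArg Complex.im h1
    simp only [pow_two, Complex.mul_re, Complex.mul_im, Complex.neg_re, Complex.one_re,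
      Complex.neg_im, Complex.one_im, neg_zero] at h2 h3
    have h4 : (q (0, t)).im ≠ 0 := fun h => by
      rw [h] at h2
      nlinarith [mul_self_nonneg (q (0, t)).re]
    refine ⟨?_, h4⟩
    have : (q (0, t)).re * (q (0, t)).im = 0 := by linarith
    exact (mul_eq_zero.1 this).resolve_right h4
  have e1 : ∀ s, q (s, 0) * q (s, 1) = 1 ∨ q (s, 0) * q (s, 1) = -1 := fun s => by
    refine mul_self_eq_one_iff.1 ?_
    apply mul_right_cancel₀ (mul_ne_zero (nb s 0) (nb s 1))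
    have u := e s 0
    have v := e s 1
    rw [h01] at u
    rw [h10] at v
    linear_combination (q (s, 1) ^ 2 * (b 1 - c s)) * u + (b 1 - c s) * v
  have e2 : ∀ t, (q (1, t)).re ≠ 0 := fun t h => by
    have h2 := congrArg Complex.re (e 1 t)
    simp only [pow_two, Complex.mul_re, Complex.mul_im, Complex.sub_re, Complex.sub_im, h] at h2
    nlinarith [(hl t).1, (hl t).2, mul_self_nonneg (q (1, t)).im]
  have s0 := sign_const (f := fun t => (q (0, t)).im) (by fun_prop) fun t => (e0 t).2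
  have s1 := sign_const (f := fun s => (q (s, 0) * q (s, 1)).re) (by fun_prop) fun s => by
    rcases e1 s with h | h <;> rw [h] <;> simp
  have s2 := sign_const (f := fun t => (q (1, t)).re) (by fun_prop) e2
  have n0 : (q (0, 0) * q (0, 1)).re < 0 := by
    rw [Complex.mul_re, (e0 0).1]
    linarith
  rcases e1 1 with h | h
  · rw [h] at s1
    simp only [Complex.one_re] at s1
    linarith
  · have h2 := congrArg Complex.re h
    have h3 := congrArg Complex.im h
    simp only [Complex.mul_re, Complex.mul_im, Complex.neg_re, Complex.one_re,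
      Complex.neg_im, Complex.one_im, neg_zero] at h2 h3
    generalize (q (1, 0)).re = x at *
    generalize (q (1, 0)).im = y at *
    generalize (q (1, 1)).re = u at *
    generalize (q (1, 1)).im = v at *
    have h4 : (x * u) * (y * v) = -(y * u) ^ 2 := by linear_combination (y * u) * h3
    have h5 : 0 < y * v := by linarith
    nlinarith [mul_pos s2 h5, sq_nonneg (y * u)]

lemma joined_seg {A : Set ℂ} {ε : ℝ} {x y : ℂ} (hx : x ∈ A) (hy : y ∈ A) (h : ‖x - y‖ < 2 * ε) :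
    JoinedIn (thickening ε A) x y := by
  have hε : 0 < ε := by linarith [norm_nonneg (x - y)]
  have hm : ∀ u v : ℂ, u ∈ A → ‖u - v‖ < ε → JoinedIn (thickening ε A) u v := fun u v hu huv => by
    have h1 : JoinedIn (ball u ε) u v :=
      ((convex_ball u ε).isPathConnected ⟨u, mem_ball_self hε⟩).joinedIn u (mem_ball_self hε) v
        (by rwa [mem_ball_iff_norm'])
    exact h1.mono (ball_subset_thickening hu ε)
  have a : ‖x - (x + y) / 2‖ < ε := by
    rw [show x - (x + y) / 2 = (x - y) / 2 by ring, norm_div, Complex.norm_two]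
    linarith
  have b : ‖y - (x + y) / 2‖ < ε := by
    rw [show y - (x + y) / 2 = -(x - y) / 2 by ring, norm_div, norm_neg, Complex.norm_two]
    linarith
  exact (hm _ _ hx a).trans (hm _ _ hy b).symm

/-- Short hops. -/
lemma hop {z : ℂ} {A : Set ℂ} {ε : ℝ} (hz : ‖z‖ < 1) (hA : IsCompact A)
    (hf : ∀ w, w ∈ A ↔ ∃ u ∈ A, w = 1 + z * u ∨ w = -1 + z * u) {u₀ v₀ : ℂ} (hu : u₀ ∈ A)
    (hv : v₀ ∈ A) (h : ‖(1 + z * u₀) - (-1 + z * v₀)‖ < 2 * ε) {x y : ℂ} (hx : x ∈ A)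
    (hy : y ∈ A) : JoinedIn (thickening ε A) x y := by
  have hε : 0 < ε := by linarith [norm_nonneg ((1 + z * u₀) - (-1 + z * v₀))]
  obtain ⟨D, hD⟩ := hA.isBounded.exists_norm_le
  have key : ∀ n : ℕ, ∀ c s : ℂ, ‖s‖ ≤ 1 → ‖s‖ * ‖z‖ ^ n * D < ε → (∀ u ∈ A, c + s * u ∈ A) →
      ∀ u ∈ A, ∀ v ∈ A, JoinedIn (thickening ε A) (c + s * u) (c + s * v) := by
    intro n
    induction n with
    | zero =>
      intro c s _ h2 h3 u hu v hv
      refine joined_seg (h3 u hu) (h3 v hv) ?_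
      rw [show c + s * u - (c + s * v) = s * (u - v) by ring, norm_mul]
      have : ‖u - v‖ ≤ 2 * D := by linarith [norm_sub_le u v, hD u hu, hD v hv]
      have := mul_le_mul_of_nonneg_left this (norm_nonneg s)
      simp only [pow_zero, mul_one] at h2
      linarith
    | succ n ih =>
      intro c s h1 h2 h3
      have n1 : ‖s * z‖ ≤ 1 := by
        rw [norm_mul]
        exact mul_le_one₀ h1 (norm_nonneg _) hz.le
      have n2 : ‖s * z‖ * ‖z‖ ^ n * D < ε := by
        rw [norm_mul]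
        calc ‖s‖ * ‖z‖ * ‖z‖ ^ n * D = ‖s‖ * ‖z‖ ^ (n + 1) * D := by ring
          _ < ε := h2
      have p1 : ∀ u : ℂ, c + s * (1 + z * u) = c + s + s * z * u := fun u => by ring
      have p2 : ∀ u : ℂ, c + s * (-1 + z * u) = c - s + s * z * u := fun u => by ring
      have m1 : ∀ u ∈ A, c + s + s * z * u ∈ A := fun u hu =>
        p1 u ▸ h3 _ ((hf _).2 ⟨u, hu, Or.inl rfl⟩)
      have m2 : ∀ u ∈ A, c - s + s * z * u ∈ A := fun u hu =>
        p2 u ▸ h3 _ ((hf _).2 ⟨u, hu, Or.inr rfl⟩)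
      have i1 := ih (c + s) (s * z) n1 n2 m1
      have i2 := ih (c - s) (s * z) n1 n2 m2
      have j : JoinedIn (thickening ε A) (c + s + s * z * u₀) (c - s + s * z * v₀) := by
        refine joined_seg (m1 _ hu) (m2 _ hv) ?_
        rw [show c + s + s * z * u₀ - (c - s + s * z * v₀) =
          s * ((1 + z * u₀) - (-1 + z * v₀)) by ring, norm_mul]
        exact (mul_le_of_le_one_left (norm_nonneg _) h1).trans_lt h
      intro u hu' v hv'
      obtain ⟨u', a, rfl | rfl⟩ := (hf u).1 hu' <;> obtain ⟨v', b, rfl | rfl⟩ := (hf v).1 hv'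
      · rw [p1, p1]
        exact i1 _ a _ b
      · rw [p1, p2]
        exact ((i1 _ a _ hu).trans j).trans (i2 _ hv _ b)
      · rw [p2, p1]
        exact ((i2 _ a _ hv).trans j.symm).trans (i1 _ hu _ b)
      · rw [p2, p2]
        exact i2 _ a _ b
  have t : Tendsto (fun n : ℕ => ‖z‖ ^ n * D) atTop (𝓝 (0 * D)) :=
    (tendsto_pow_atTop_nhds_zero_of_lt_one (norm_nonneg _) hz).mul_const D
  rw [zero_mul] at t
  obtain ⟨n, hn⟩ := (t.eventually (gt_mem_nhds hε)).exists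
  simpa using key n 0 1 (by simp) (by simpa using hn) (by simp) x hx y hy

/-- If the two halves of the attractor are disjoint, finite sums are not in the attractor. -/
lemma top {z : ℂ} {A : Set ℂ} (hz0 : z ≠ 0) (hz : ‖z‖ < 1) (hA : IsCompact A) (hne : A.Nonempty)
    (hs : ∀ w ∈ A, -w ∈ A) (hf : ∀ w, w ∈ A ↔ ∃ u ∈ A, w = 1 + z * u ∨ w = -1 + z * u)
    (hd : ∀ u ∈ A, ∀ v ∈ A, 1 + z * u ≠ -1 + z * v) (V : ℕ → ℂ) (h0 : V 0 = 0)
    (hV : ∀ j, V (j + 1) = 1 + z * V j ∨ V (j + 1) = 1 + z * -V j) (j : ℕ) : V j ∉ A := by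
  have zp : 0 < ‖z‖ := norm_pos_iff.2 hz0
  obtain ⟨⟨u₀, v₀⟩, ⟨hu, hv⟩, hmin⟩ := (hA.prod hA).exists_isMinOn (hne.prod hne)
    (f := fun w : ℂ × ℂ => ‖(1 + z * w.1) - (-1 + z * w.2)‖) (by fun_prop)
  simp only at hu hv
  obtain ⟨δ, hδ⟩ : ∃ δ, δ = ‖(1 + z * u₀) - (-1 + z * v₀)‖ := ⟨_, rfl⟩
  have dp : 0 < δ := hδ ▸ norm_pos_iff.2 (sub_ne_zero.2 (hd _ hu _ hv))
  have dm : ∀ u ∈ A, ∀ v ∈ A, δ ≤ ‖(1 + z * u) - (-1 + z * v)‖ := fun u a v b =>
    hδ ▸ hmin (show (u, v) ∈ A ×ˢ A from ⟨a, b⟩)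
  obtain ⟨ε, hε⟩ : ∃ ε, ε = δ / (2 * ‖z‖) := ⟨_, rfl⟩
  have e1 : 2 * ‖z‖ * ε = δ := by rw [hε]; field_simp
  have ep : 0 < ε := by rw [hε]; positivity
  have e2 : δ < 2 * ε := by nlinarith
  obtain ⟨N, hN⟩ : ∃ N, N = thickening ε A := ⟨_, rfl⟩
  have mN : ∀ w, w ∈ N ↔ ∃ u ∈ A, ‖w - u‖ < ε := fun w => by
    rw [hN, mem_thickening_iff]
    simp only [dist_eq_norm]
  have AN : ∀ w ∈ A, w ∈ N := fun w h => (mN w).2 ⟨w, h, by simpa using ep⟩
  have jA : ∀ x ∈ A, ∀ y ∈ A, JoinedIn N x y := fun x a y b =>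
    hN ▸ hop hz hA hf hu hv (hδ ▸ e2) a b
  have jN : ∀ x ∈ A, ∀ y ∈ N, JoinedIn N x y := fun x a y b => by
    obtain ⟨u, h1, h2⟩ := (mN y).1 b
    refine (jA x a u h1).trans ?_
    have h3 : JoinedIn (ball u ε) u y :=
      ((convex_ball u ε).isPathConnected ⟨u, mem_ball_self ep⟩).joinedIn u (mem_ball_self ep) y
        (by rwa [mem_ball_iff_norm])
    exact h3.mono (hN ▸ ball_subset_thickening h1 ε)
  have sN : ∀ w ∈ N, -w ∈ N := fun w h => by
    obtain ⟨u, h1, h2⟩ := (mN w).1 h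
    exact (mN _).2 ⟨-u, hs u h1, by rwa [show -w - -u = -(w - u) by ring, norm_neg]⟩
  have fN : ∀ w ∈ N, 1 + z * w ∈ N := fun w h => by
    obtain ⟨u, h1, h2⟩ := (mN w).1 h
    refine (mN _).2 ⟨1 + z * u, (hf _).2 ⟨u, h1, Or.inl rfl⟩, ?_⟩
    rw [show 1 + z * w - (1 + z * u) = z * (w - u) by ring, norm_mul]
    exact (mul_le_of_le_one_left (norm_nonneg _) hz.le).trans_lt h2
  have dN : ∀ w ∈ N, ∀ w' ∈ N, 1 + z * w ≠ -1 + z * w' := fun w h w' h' he => by
    obtain ⟨u, h1, h2⟩ := (mN w).1 h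
    obtain ⟨v, h3, h4⟩ := (mN w').1 h'
    have h5 := dm u h1 v h3
    rw [show 1 + z * u - (-1 + z * v) = z * ((w' - v) - (w - u)) by linear_combination he,
      norm_mul] at h5
    have h6 := norm_sub_le (w' - v) (w - u)
    nlinarith
  have inv : ∀ j, ∃ s : ℂ, ∀ u ∈ N, V j + s * u ∈ N := fun j => by
    induction j with
    | zero => exact ⟨1, fun u h => by simpa [h0] using h⟩
    | succ j ih =>
      obtain ⟨s, hs'⟩ := ih
      rcases hV j with h | h
      · exact ⟨z * s, fun u a => by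
          rw [h, show 1 + z * V j + z * s * u = 1 + z * (V j + s * u) by ring]
          exact fN _ (hs' u a)⟩
      · exact ⟨-(z * s), fun u a => by
          rw [h, show 1 + z * -V j + -(z * s) * u = 1 + z * -(V j + s * u) by ring]
          exact fN _ (sN _ (hs' u a))⟩
  have cross : ∀ v s : ℂ, (∀ u ∈ N, v + s * u ∈ N) → ∀ a₀ ∈ A, 1 + z * v ≠ -1 + z * a₀ := by
    intro v s hvs a₀ ha₀ he
    obtain ⟨α, hα⟩ := jA u₀ hu (-u₀) (hs _ hu)
    have mα : ∀ t, α.extend t ∈ N := fun t => by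
      obtain ⟨t', h⟩ := α.extend_range ▸ mem_range_self (f := α.extend) t
      exact h ▸ hα t'
    obtain ⟨D, hD⟩ := hA.isBounded.exists_norm_le
    have bdd : BddBelow ((fun w : ℂ => (1 + z * w).re) '' N) := by
      refine ⟨-(1 + (D + ε)), ?_⟩
      rintro _ ⟨w, h, rfl⟩
      obtain ⟨u, h1, h2⟩ := (mN w).1 h
      have a1 : ‖w‖ ≤ D + ε := by linarith [norm_le_norm_add_norm_sub' w u, hD u h1]
      have a2 : ‖1 + z * w‖ ≤ 1 + ‖w‖ := by
        refine (norm_add_le _ _).trans ?_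
        rw [norm_one, norm_mul]
        linarith [mul_le_of_le_one_left (norm_nonneg w) hz.le]
      have a3 := (abs_le.1 (Complex.abs_re_le_norm (1 + z * w))).1
      show _ ≤ (1 + z * w).re
      linarith
    obtain ⟨_, ⟨w₀, hw₀, rfl⟩, hlt⟩ := Real.lt_sInf_add_pos
      (s := (fun w : ℂ => (1 + z * w).re) '' N) ⟨_, u₀, AN _ hu, rfl⟩ one_pos
    have low : ∀ w ∈ N, (-1 + z * w₀).re < (1 + z * w).re := fun w h => by
      have a1 := csInf_le bdd ⟨w, h, rfl⟩
      simp only [Complex.add_re, Complex.one_re, Complex.neg_re] at a1 hlt ⊢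
      linarith
    obtain ⟨γ, hγ⟩ := jN a₀ ha₀ w₀ hw₀
    have mγ : ∀ t, γ.extend t ∈ N := fun t => by
      obtain ⟨t', h⟩ := γ.extend_range ▸ mem_range_self (f := γ.extend) t
      exact h ▸ hγ t'
    have cα := α.continuous_extend
    have cγ := γ.continuous_extend
    obtain ⟨t, t', h | h⟩ := crossing (fun t => 1 + z * (v + s * α.extend t))
      (fun t => 1 + z * (v + s * -α.extend t)) (fun t => -1 + z * γ.extend t) (by fun_prop)
      (by fun_prop) (by fun_prop) (by simp) (by simp)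
      (fun t => by simp only [Path.extend_zero]; linear_combination 2 * he)
      (fun t => by
        simp only [Path.extend_one]
        exact ⟨low _ (hvs _ (mα t)), low _ (hvs _ (sN _ (mα t)))⟩)
    · exact dN _ (hvs _ (mα t')) _ (mγ t) h.symm
    · exact dN _ (hvs _ (sN _ (mα t'))) _ (mγ t) h.symm
  induction j with
  | zero =>
    rw [h0]
    intro h
    obtain ⟨u, a, h | h⟩ := (hf 0).1 h
    · exact hd u a (-u) (hs u a) (by linear_combination -2 * h)
    · exact hd (-u) (hs u a) u a (by linear_combination 2 * h)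
  | succ j ih =>
    intro h
    obtain ⟨s, hs'⟩ := inv j
    obtain ⟨u, a, h | h⟩ := (hf _).1 h <;> rcases hV j with h' | h'
    · exact ih (mul_left_cancel₀ hz0 (show z * u = z * V j by linear_combination h' - h) ▸ a)
    · exact ih (mul_left_cancel₀ hz0 (show z * -u = z * V j by linear_combination h - h') ▸ hs u a)
    · exact cross _ s hs' u a (h'.symm.trans h)
    · refine cross (-V j) (-s) (fun w b => ?_) u a (h'.symm.trans h)
      rw [show -V j + -s * w = -(V j + s * w) by ring]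
      exact sN _ (hs' w b)

/-- The value of a series with integer coefficients. -/
noncomputable def SS (c : ℕ → ℤ) (z : ℂ) : ℂ := ∑' n, (c n : ℂ) * z ^ n

/-- Zeros of series with constant term `1` and coefficients `-1`, `0`, `1`. -/
def MM (z : ℂ) : Prop :=
  ∃ c : ℕ → ℤ, (∀ n, |c n| ≤ 1) ∧ c 0 = 1 ∧ HasSum (fun n => (c n : ℂ) * z ^ n) 0

lemma term_le {c : ℕ → ℤ} {B : ℤ} (hc : ∀ n, |c n| ≤ B) {z : ℂ} {ρ : ℝ} (hz : ‖z‖ ≤ ρ) (n : ℕ) :
    ‖(c n : ℂ) * z ^ n‖ ≤ B * ρ ^ n := by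
  rw [norm_mul, norm_pow, Complex.norm_intCast]
  have h1 : |(c n : ℝ)| ≤ B := by exact_mod_cast hc n
  exact mul_le_mul h1 (pow_le_pow_left₀ (norm_nonneg _) hz n) (by positivity)
    ((abs_nonneg _).trans h1)

lemma summ {c : ℕ → ℤ} {B : ℤ} (hc : ∀ n, |c n| ≤ B) {z : ℂ} (hz : ‖z‖ < 1) :
    Summable fun n => (c n : ℂ) * z ^ n :=
  .of_norm_bounded ((summable_geometric_of_lt_one (norm_nonneg _) hz).mul_left (B : ℝ))
    (term_le hc le_rfl)

lemma SS_cont {ρ : ℝ} (h0 : 0 ≤ ρ) (h1 : ρ < 1) :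
    ContinuousOn (fun u : (ℕ → ℤ) × ℂ => SS u.1 u.2) {u | (∀ n, |u.1 n| ≤ 1) ∧ ‖u.2‖ ≤ ρ} := by
  refine continuousOn_tsum (u := fun n => ((1 : ℤ) : ℝ) * ρ ^ n) (fun n => ?_)
    ((summable_geometric_of_lt_one h0 h1).mul_left _) fun n u hu => term_le hu.1 hu.2 n
  have : Continuous fun k : ℤ => (k : ℂ) := continuous_of_discreteTopology
  exact Continuous.continuousOn (by fun_prop)

lemma SS_cons {c : ℕ → ℤ} (hc : ∀ n, |c n| ≤ 1) {z : ℂ} (hz : ‖z‖ < 1) :
    SS c z = c 0 + z * SS (fun n => c (n + 1)) z := by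
  unfold SS
  rw [(summ hc hz).tsum_eq_zero_add, ← tsum_mul_left]
  simp only [pow_zero, mul_one, add_right_inj]
  exact tsum_congr fun n => by ring

lemma sg_abs {s : ℕ → ℤ} (hs : ∀ n, s n = 1 ∨ s n = -1) (n : ℕ) : |s n| ≤ 1 := by
  rcases hs n with h | h <;> simp [h]

/-- A finite orbit of `0` puts the parameter in the connectedness locus. -/
theorem MM_of_per {z : ℂ} (hz0 : z ≠ 0) (hz : ‖z‖ < 1) (V : ℕ → ℂ) (h0 : V 0 = 0)
    (hV : ∀ j, V (j + 1) = 1 + z * V j ∨ V (j + 1) = 1 + z * -V j) {n p : ℕ} (hp : 0 < p)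
    (hper : V (n + p) = V n) : MM z := by
  by_contra hM
  obtain ⟨A, hA⟩ : ∃ A : Set ℂ, A = (fun s => SS s z) '' {s | ∀ n, s n = 1 ∨ s n = -1} := ⟨_, rfl⟩
  have cK : IsCompact {s : ℕ → ℤ | ∀ n, s n = 1 ∨ s n = -1} := by
    have e : {s : ℕ → ℤ | ∀ n, s n = 1 ∨ s n = -1} = Set.univ.pi fun _ => ({1, -1} : Set ℤ) :=
      Set.ext fun s => by simp
    rw [e]
    exact isCompact_univ_pi fun _ : ℕ => (Set.toFinite ({1, -1} : Set ℤ)).isCompact
  have cA : IsCompact A := by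
    rw [hA]
    refine cK.image_of_continuousOn ?_
    exact (SS_cont (norm_nonneg z) hz).comp (f := fun s => (s, z)) (by fun_prop)
      fun s hs => ⟨sg_abs hs, le_rfl⟩
  have nA : A.Nonempty := hA ▸ ⟨_, fun _ => 1, fun _ => Or.inl rfl, rfl⟩
  have sA : ∀ w ∈ A, -w ∈ A := by
    rw [hA]
    rintro _ ⟨s, hs, rfl⟩
    refine ⟨fun n => -s n, fun n => ?_, ?_⟩
    · rcases hs n with h | h <;> simp [h]
    · simp [SS, tsum_neg]
  have fA : ∀ w, w ∈ A ↔ ∃ u ∈ A, w = 1 + z * u ∨ w = -1 + z * u := by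
    rw [hA]
    intro w
    constructor
    · rintro ⟨s, hs, rfl⟩
      refine ⟨_, ⟨fun n => s (n + 1), fun n => hs _, rfl⟩, ?_⟩
      have := SS_cons (sg_abs hs) hz
      rcases hs 0 with h | h <;> rw [h] at this
      · exact Or.inl (by simpa using this)
      · exact Or.inr (by simpa using this)
    · rintro ⟨_, ⟨s, hs, rfl⟩, h⟩
      have g : ∀ k : ℤ, k = 1 ∨ k = -1 →
          (k : ℂ) + z * SS s z ∈ (fun s => SS s z) '' {s | ∀ n, s n = 1 ∨ s n = -1} := fun k hk => by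
        have hs' : ∀ n, (fun n => Nat.casesOn n k s : ℕ → ℤ) n = 1 ∨
            (fun n => Nat.casesOn n k s : ℕ → ℤ) n = -1 := fun n => by
          cases n with
          | zero => exact hk
          | succ n => exact hs n
        exact ⟨_, hs', SS_cons (sg_abs hs') hz⟩
      rcases h with rfl | rfl
      · simpa using g 1 (Or.inl rfl)
      · simpa using g (-1) (Or.inr rfl)
  have dA : ∀ u ∈ A, ∀ v ∈ A, 1 + z * u ≠ -1 + z * v := by
    rw [hA]
    rintro _ ⟨s, hs, rfl⟩ _ ⟨s', hs', rfl⟩ he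
    apply hM
    obtain ⟨c, hc0, hc⟩ : ∃ c : ℕ → ℤ, c 0 = 1 ∧ ∀ n, c (n + 1) = (s n - s' n) / 2 :=
      ⟨fun n => Nat.casesOn n 1 fun n => (s n - s' n) / 2, rfl, fun _ => rfl⟩
    have h2 : ∀ n, 2 * c (n + 1) = s n - s' n := fun n => by
      rw [hc]
      rcases hs n with h | h <;> rcases hs' n with h' | h' <;> simp [h, h']
    have h1 : ∀ n, |c n| ≤ 1 := fun n => by
      cases n with
      | zero => simp [hc0]
      | succ n =>
        have := h2 n
        rw [abs_le]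
        rcases hs n with h | h <;> rcases hs' n with h' | h' <;> omega
    refine ⟨c, h1, hc0, ?_⟩
    have h3 : SS c z = 0 := by
      have h4 : 2 * SS (fun n => c (n + 1)) z = SS s z - SS s' z := by
        unfold SS
        rw [← (summ (sg_abs hs) hz).tsum_sub (summ (sg_abs hs') hz), ← tsum_mul_left]
        refine tsum_congr fun n => ?_
        have : (2 : ℂ) * c (n + 1) = s n - s' n := by exact_mod_cast h2 n
        linear_combination z ^ n * this
      rw [SS_cons h1 hz, hc0]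
      simp only at he
      push_cast
      linear_combination (1 / 2 : ℂ) * he + (z / 2) * h4
    exact h3 ▸ (summ h1 hz).hasSum
  have step : ∀ j, infDist (V (j + 1)) A ≤ ‖z‖ * infDist (V j) A := fun j => by
    obtain ⟨u, hu, he⟩ := cA.exists_infDist_eq_dist nA (V j)
    rw [he, dist_eq_norm, ← norm_mul]
    rcases hV j with h | h
    · refine (infDist_le_dist_of_mem ((fA _).2 ⟨u, hu, Or.inl rfl⟩)).trans_eq ?_
      rw [h, dist_eq_norm]
      congr 1
      ring
    · refine (infDist_le_dist_of_mem ((fA _).2 ⟨-u, sA u hu, Or.inl rfl⟩)).trans_eq ?_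
      rw [h, dist_eq_norm, ← norm_neg]
      congr 1
      ring
  have it : ∀ i, infDist (V (n + i)) A ≤ ‖z‖ ^ i * infDist (V n) A := fun i => by
    induction i with
    | zero => simp
    | succ i ih =>
      refine (step (n + i)).trans ?_
      rw [pow_succ', mul_assoc]
      exact mul_le_mul_of_nonneg_left ih (norm_nonneg _)
  have h1 := it p
  rw [hper] at h1
  have h2 : ‖z‖ ^ p < 1 := pow_lt_one₀ (norm_nonneg _) hz hp.ne'
  have h3 : infDist (V n) A = 0 := by nlinarith [infDist_nonneg (x := V n) (s := A)]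
  exact top hz0 hz cA nA sA fA dA V h0 hV n ((cA.isClosed.mem_iff_infDist_zero nA).2 h3)

/-- The locus is closed in the disc. -/
theorem MM_closed {S : Set ℂ} (hS : ∀ w ∈ S, ‖w‖ < 1 → MM w) {z : ℂ} (hz : ‖z‖ < 1)
    (h : z ∈ closure S) : MM z := by
  obtain ⟨ρ, h1, h2⟩ := exists_between hz
  have h0 : 0 ≤ ρ := (norm_nonneg z).trans h1.le
  have cK : IsCompact {u : (ℕ → ℤ) × ℂ | (∀ n, |u.1 n| ≤ 1) ∧ ‖u.2‖ ≤ ρ} := by
    have e : {u : (ℕ → ℤ) × ℂ | (∀ n, |u.1 n| ≤ 1) ∧ ‖u.2‖ ≤ ρ} =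
        (Set.univ.pi fun _ => Set.Icc (-1 : ℤ) 1) ×ˢ closedBall (0 : ℂ) ρ :=
      Set.ext fun s => by simp [abs_le, Pi.le_def, forall_and]
    rw [e]
    exact (isCompact_univ_pi fun _ : ℕ => (Set.finite_Icc (-1 : ℤ) 1).isCompact).prod
      (isCompact_closedBall (0 : ℂ) ρ)
  have cont : ContinuousOn (fun u : (ℕ → ℤ) × ℂ => (u.1 0, SS u.1 u.2))
      {u | (∀ n, |u.1 n| ≤ 1) ∧ ‖u.2‖ ≤ ρ} :=
    ContinuousOn.prodMk (Continuous.continuousOn (by fun_prop)) (SS_cont h0 h2)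
  have cZ := ((cK.of_isClosed_subset (cont.preimage_isClosed_of_isClosed cK.isClosed
    (isClosed_singleton (x := ((1 : ℤ), (0 : ℂ))))) inter_subset_left).image
    continuous_snd).isClosed
  have h3 : z ∈ closure (ball (0 : ℂ) ρ ∩ S) :=
    isOpen_ball.inter_closure ⟨by simpa using h1, h⟩
  obtain ⟨⟨c, w⟩, ⟨⟨a1, -⟩, a2⟩, rfl⟩ := (cZ.closure_subset_iff (s := ball (0 : ℂ) ρ ∩ S)).2 (by
    rintro w ⟨a, b⟩
    have a' : ‖w‖ < ρ := by simpa using a
    obtain ⟨c, c1, c2, c3⟩ := hS w b (a'.trans h2)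
    exact ⟨(c, w), ⟨⟨c1, a'.le⟩, Prod.ext c2 c3.tsum_eq⟩, rfl⟩) h3
  have a3 : c 0 = 1 := congrArg Prod.fst a2
  have a4 : SS c w = 0 := congrArg Prod.snd a2
  exact ⟨c, a1, a3, a4 ▸ (summ a1 hz).hasSum⟩

end Pool.Agent.MP_994d64_an.TS

end

section

/-! Roots of the polynomials of preperiodic kneading sequences. -/

set_option autoImplicit false

open Metric Set Filter Topology Polynomial

namespace Pool.Agent.MP_994d64_an.TS

lemma aeval_SS (F : ℤ[X]) (w : ℂ) : aeval w F = SS F.coeff w := by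
  unfold SS
  rw [tsum_eq_sum (s := Finset.range (F.natDegree + 1)), aeval_eq_sum_range]
  · simp only [zsmul_eq_mul]
  · intro n hn
    rw [coeff_eq_zero_of_natDegree_lt (by simpa using hn)]
    simp

lemma SS_tail {d : ℕ → ℤ} (hd : ∀ n, |d n| ≤ 4) {N : ℕ} (h0 : ∀ n < N, d n = 0) {w : ℂ} {ρ : ℝ}
    (hw : ‖w‖ ≤ ρ) (h1 : ρ < 1) : ‖SS d w‖ ≤ 4 * ρ ^ N * (1 - ρ)⁻¹ := by
  have hρ : 0 ≤ ρ := (norm_nonneg w).trans hw
  unfold SS
  rw [← (summ hd (hw.trans_lt h1)).sum_add_tsum_nat_add N,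
    Finset.sum_eq_zero fun n hn => by simp [h0 n (Finset.mem_range.1 hn)], zero_add]
  refine tsum_of_norm_bounded ((hasSum_geometric_of_lt_one hρ h1).mul_left (4 * ρ ^ N)) fun n => ?_
  refine (term_le hd hw (n + N)).trans_eq ?_
  push_cast
  ring

/-- Zeros persist when the first coefficients are kept. -/
theorem hurwitz {z : ℂ} {c : ℕ → ℤ} {ε : ℝ} (hz : ‖z‖ < 1) (hc : ∀ n, |c n| ≤ 1) (h0 : c 0 = 1)
    (hs : HasSum (fun n => (c n : ℂ) * z ^ n) 0) (hε : 0 < ε) :
    ∃ N, ∀ F : ℤ[X], (∀ j, |F.coeff j| ≤ 2) → (∀ j < N, F.coeff j = 2 * c j) →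
      ∃ w : ℂ, aeval w F = 0 ∧ ‖w - z‖ < ε := by
  obtain ⟨ρ, h1, h2⟩ := exists_between hz
  have hρ : 0 ≤ ρ := (norm_nonneg z).trans h1.le
  have hz' : z ∈ ball (0 : ℂ) ρ := by simpa using h1
  have hd : DifferentiableOn ℂ (SS c) (ball 0 ρ) :=
    Complex.differentiableOn_tsum_of_summable_norm (u := fun n => ((1 : ℤ) : ℝ) * ρ ^ n)
      ((summable_geometric_of_lt_one hρ h2).mul_left _) (fun n => by fun_prop) isOpen_ball
      fun n w hw => term_le hc (mem_ball_zero_iff.1 hw).le n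
  have han := hd.analyticOnNhd isOpen_ball
  have hne : ∀ᶠ w in 𝓝[≠] z, SS c w ≠ 0 := by
    refine (han z hz').eventually_eq_zero_or_eventually_ne_zero.resolve_left fun h => ?_
    have h3 := han.eqOn_zero_of_preconnected_of_eventuallyEq_zero
      (convex_ball (0 : ℂ) ρ).isPreconnected hz' h
      (mem_ball_self ((norm_nonneg z).trans_lt h1))
    rw [SS_cons hc (by simp), h0] at h3
    simp at h3
  obtain ⟨r₀, hr₀, hr⟩ := Metric.eventually_nhds_iff.1 (eventually_nhdsWithin_iff.1 hne)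
  obtain ⟨r, r0, r1, r2, r3⟩ : ∃ r : ℝ, 0 < r ∧ r < r₀ ∧ r < ε ∧ r < ρ - ‖z‖ := by
    refine ⟨min r₀ (min ε (ρ - ‖z‖)) / 2, ?_⟩
    have a := min_le_left r₀ (min ε (ρ - ‖z‖))
    have b := (min_le_right r₀ (min ε (ρ - ‖z‖))).trans (min_le_left _ _)
    have d := (min_le_right r₀ (min ε (ρ - ‖z‖))).trans (min_le_right _ _)
    have e : 0 < min r₀ (min ε (ρ - ‖z‖)) := lt_min hr₀ (lt_min hε (by linarith))
    exact ⟨by linarith, by linarith, by linarith, by linarith⟩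
  have hin : ∀ w ∈ closedBall z r, ‖w‖ < ρ := fun w hw => by
    have := mem_closedBall_iff_norm.1 hw
    linarith [norm_le_norm_add_norm_sub' w z]
  obtain ⟨w₀, hw₀, hmin⟩ := (isCompact_sphere z r).exists_isMinOn
    (NormedSpace.sphere_nonempty.2 r0.le) (f := fun w => ‖SS c w‖)
    ((hd.continuousOn.mono fun w hw =>
      mem_ball_zero_iff.2 (hin w (sphere_subset_closedBall hw))).norm)
  have hμ : 0 < ‖SS c w₀‖ := by
    have a : dist w₀ z = r := hw₀
    refine norm_pos_iff.2 (hr (a ▸ r1) fun h => ?_)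
    rw [mem_singleton_iff.1 h, dist_self] at a
    exact r0.ne a
  have t : Tendsto (fun N : ℕ => 4 * ρ ^ N * (1 - ρ)⁻¹) atTop (𝓝 (4 * 0 * (1 - ρ)⁻¹)) :=
    ((tendsto_pow_atTop_nhds_zero_of_lt_one hρ h2).const_mul 4).mul_const _
  rw [mul_zero, zero_mul] at t
  obtain ⟨N, hN⟩ := (t.eventually (gt_mem_nhds hμ)).exists
  refine ⟨N, fun F hF hF' => ?_⟩
  by_contra hn
  push Not at hn
  have hdiff : ∀ w ∈ closedBall z r, ‖aeval w F - 2 * SS c w‖ < ‖SS c w₀‖ := fun w hw => by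
    have a := hin w hw
    have b := SS_tail (d := fun n => F.coeff n - 2 * c n) (N := N) (fun n => by
      have := abs_le.1 (hF n)
      have := abs_le.1 (hc n)
      rw [abs_le]
      omega) (fun n hn => by rw [hF' n hn, sub_self]) a.le h2
    refine lt_of_eq_of_lt ?_ (b.trans_lt hN)
    congr 1
    rw [aeval_SS]
    unfold SS
    rw [← tsum_mul_left, ← (summ hF (a.trans h2)).tsum_sub ((summ hc (a.trans h2)).mul_left 2)]
    exact tsum_congr fun n => by push_cast; ring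
  have hF0 : ∀ w ∈ closedBall z r, aeval w F ≠ 0 := fun w hw h => by
    linarith [hn w h, mem_closedBall_iff_norm.1 hw]
  have hG : Differentiable ℂ fun w : ℂ => aeval w F := Polynomial.differentiable_aeval F
  have hI : DiffContOnCl ℂ (fun w : ℂ => (aeval w F)⁻¹) (ball z r) := by
    refine DifferentiableOn.diffContOnCl ?_
    rw [closure_ball z r0.ne']
    exact hG.differentiableOn.inv hF0
  have hb := Complex.norm_le_of_forall_mem_frontier_norm_le isBounded_ball hI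
    (C := ‖SS c w₀‖⁻¹) (z := z) (fun w hw => by
      rw [frontier_ball z r0.ne'] at hw
      rw [norm_inv]
      refine inv_anti₀ hμ ?_
      have a := hdiff w (sphere_subset_closedBall hw)
      have b : ‖SS c w₀‖ ≤ ‖SS c w‖ := hmin hw
      have d := norm_le_norm_add_norm_sub (aeval w F) (2 * SS c w)
      rw [norm_mul, Complex.norm_two] at d
      linarith) (subset_closure (mem_ball_self r0))
  have hz0 := hdiff z (mem_closedBall_self r0.le)
  rw [show SS c z = 0 from hs.tsum_eq, mul_zero, sub_zero] at hz0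
  rw [norm_inv] at hb
  exact absurd hb (not_le.2 (inv_strictAnti₀ (norm_pos_iff.2 (hF0 z (mem_closedBall_self r0.le))) hz0))

lemma root_le {F : ℤ[X]} (hm : F.Monic) (hF : ∀ j, |F.coeff j| ≤ 2) {a : ℂ} (ha : aeval a F = 0) :
    ‖a‖ ≤ 3 := by
  have hm' := hm.map (Int.castRingHom ℂ)
  have h1 : (F.map (Int.castRingHom ℂ)).IsRoot a := by
    rw [IsRoot.def, eval_map, ← algebraMap_int_eq, ← aeval_def, ha]
  have h2 := h1.norm_lt_cauchyBound hm'.ne_zero
  have h3 : cauchyBound (F.map (Int.castRingHom ℂ)) ≤ 2 + 1 := by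
    unfold cauchyBound
    rw [hm'.leadingCoeff, nnnorm_one, div_one]
    refine add_le_add_left (Finset.sup_le fun j _ => ?_) 1
    rw [← NNReal.coe_le_coe, coe_nnnorm, coeff_map, eq_intCast, Complex.norm_intCast]
    have : |(F.coeff j : ℝ)| ≤ 2 := by exact_mod_cast hF j
    exact this
  have h4 : ((‖a‖₊ : NNReal) : ℝ) ≤ ((2 + 1 : NNReal) : ℝ) := NNReal.coe_le_coe.2 (h2.le.trans h3)
  norm_num at h4
  exact h4

lemma deg_lt {F m : ℤ[X]} {k p : ℕ} (hm : F.Monic) (hd : F.natDegree < k + p)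
    (he : ∀ j < k, Even (F.coeff j)) (hm' : m.Monic) (hdvd : m ∣ F) (ho : Odd (m.coeff 0)) :
    m.natDegree < p := by
  obtain ⟨U, hU⟩ : (X : (ZMod 2)[X]) ^ k ∣ F.map (Int.castRingHom (ZMod 2)) :=
    X_pow_dvd_iff.2 fun j hj => by
      rw [coeff_map, eq_intCast]
      exact (ZMod.intCast_eq_zero_iff_even).2 (he j hj)
  have h0 : U ≠ 0 := fun h => (hm.map (Int.castRingHom (ZMod 2))).ne_zero (by rw [hU, h, mul_zero])
  have h1 := hm.natDegree_map (Int.castRingHom (ZMod 2))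
  rw [hU, natDegree_X_pow_mul k h0] at h1
  have h2 : IsCoprime (X : (ZMod 2)[X]) (m.map (Int.castRingHom (ZMod 2))) :=
    irreducible_X.coprime_iff_not_dvd.2 fun h => by
      rw [X_dvd_iff, coeff_map, eq_intCast, ZMod.intCast_eq_zero_iff_even] at h
      exact Int.not_even_iff_odd.2 ho h
  have h3 : m.map (Int.castRingHom (ZMod 2)) ∣ U :=
    (h2.symm.pow_right (n := k)).dvd_of_dvd_mul_left (hU ▸ Polynomial.map_dvd _ hdvd)
  have h4 := natDegree_le_of_dvd h3 h0
  rw [hm'.natDegree_map] at h4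
  omega

/-- Outside a finite set, two roots are conjugate. -/
theorem conj_of_notMem (p : ℕ) : ∃ S : Set ℂ, S.Finite ∧ ∀ (F : ℤ[X]) (k : ℕ) (l : ℝ) (w : ℂ),
    F.Monic → F.natDegree < k + p → (∀ j, |F.coeff j| ≤ 2) → F.coeff 0 = 2 →
    (∀ j < k, Even (F.coeff j)) → aeval l F = 0 → aeval w F = 0 → (l : ℂ) ∉ S → w ∉ S →
    aeval w (minpoly ℚ l) = 0 := by
  classical
  refine ⟨_, bUnion_roots_finite (Int.castRingHom ℂ) p
    (Set.finite_Icc (-(3 ^ p * p.choose (p / 2) : ℤ)) (3 ^ p * p.choose (p / 2))), ?_⟩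
  intro F k l w hm hd hF h0 he hl hw hlS hwS
  have small : ∀ m : ℤ[X], m.Monic → m ∣ F → Odd (m.coeff 0) → ∀ a : ℂ, aeval a m = 0 →
      a ∈ ⋃ (f : ℤ[X]) (_ : f.natDegree ≤ p ∧ ∀ i, f.coeff i ∈
        Set.Icc (-(3 ^ p * p.choose (p / 2) : ℤ)) (3 ^ p * p.choose (p / 2))),
        ((f.map (Int.castRingHom ℂ)).roots.toFinset : Set ℂ) := by
    intro m hm' hdvd ho a ha
    have h1 := (deg_lt hm hd he hm' hdvd ho).le
    have rt : ∀ b : ℂ, b ∈ (m.map (Int.castRingHom ℂ)).roots ↔ aeval b m = 0 := fun b => by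
      rw [mem_roots (hm'.map _).ne_zero, IsRoot.def, eval_map, ← algebraMap_int_eq, ← aeval_def]
    refine mem_iUnion₂.2 ⟨m, ⟨h1, fun i => ?_⟩, by simpa using (rt a).2 ha⟩
    have h2 := coeff_bdd_of_roots_le (B := 3) (Int.castRingHom ℂ) hm' (IsAlgClosed.splits _) h1
      (fun b hb => root_le hm hF (aeval_eq_zero_of_dvd_aeval_eq_zero hdvd ((rt b).1 hb))) i
    rw [coeff_map, eq_intCast, Complex.norm_intCast, max_eq_left (by norm_num)] at h2
    rw [Set.mem_Icc, ← abs_le]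
    exact_mod_cast h2
  have il : IsIntegral ℤ l := ⟨F, hm, by rwa [← aeval_def]⟩
  have iw : IsIntegral ℤ w := ⟨F, hm, by rwa [← aeval_def]⟩
  rw [minpoly.isIntegrallyClosed_eq_field_fractions' ℚ il, aeval_map_algebraMap]
  by_contra hn
  obtain ⟨G, hG⟩ := minpoly.isIntegrallyClosed_dvd il hl
  have hG0 : aeval w G = 0 := by
    rw [hG, map_mul] at hw
    exact (mul_eq_zero.1 hw).resolve_left hn
  obtain ⟨H, hH⟩ := minpoly.isIntegrallyClosed_dvd iw hG0
  by_cases o1 : Odd ((minpoly ℤ l).coeff 0)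
  · refine hlS (small _ (minpoly.monic il) ⟨G, hG⟩ o1 _ ?_)
    rw [show (l : ℂ) = algebraMap ℝ ℂ l from rfl, aeval_algebraMap_apply, minpoly.aeval, map_zero]
  by_cases o2 : Odd ((minpoly ℤ w).coeff 0)
  · exact hwS (small _ (minpoly.monic iw) (minpoly.isIntegrallyClosed_dvd iw hw) o2 _
      (minpoly.aeval ℤ w))
  obtain ⟨a, ha⟩ := Int.not_odd_iff_even.1 o1
  obtain ⟨b, hb⟩ := Int.not_odd_iff_even.1 o2
  rw [hG, hH, mul_coeff_zero, mul_coeff_zero, ha, hb] at h0
  have : 4 * (a * b * H.coeff 0) = 2 := by linear_combination h0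
  omega

/-- The polynomial of an eventually antiperiodic sequence. -/
theorem exists_poly (θ : ℕ → ℤ) (k p : ℕ) (t : ℝ) (h0 : θ 0 = 1) (hp : 0 < p)
    (ha : ∀ n, k ≤ n → θ (n + p) = -θ n) (ht : t ≠ 0)
    (hs : HasSum (fun n => (θ n : ℝ) * t ^ n) 0) :
    ∃ F : ℤ[X], F.Monic ∧ F.natDegree < k + p ∧ aeval t⁻¹ F = 0 ∧ ∀ j, F.coeff j =
      (if j < k + p then θ (k + p - 1 - j) else 0) + if j < k then θ (k - 1 - j) else 0 := by
  obtain ⟨d, hd⟩ : ∃ d : ℕ → ℤ, ∀ j, d j =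
      (if j < k + p then θ (k + p - 1 - j) else 0) + if j < k then θ (k - 1 - j) else 0 :=
    ⟨_, fun _ => rfl⟩
  have hc : ∀ j, (∑ i ∈ Finset.range (k + p), monomial i (d i) : ℤ[X]).coeff j = d j := fun j => by
    rw [finsetSum_coeff]
    simp only [coeff_monomial, Finset.sum_ite_eq', Finset.mem_range]
    split_ifs with h
    · rfl
    · rw [hd, if_neg h, if_neg (by omega), add_zero]
  have hdeg : (∑ i ∈ Finset.range (k + p), monomial i (d i) : ℤ[X]).natDegree ≤ k + p - 1 :=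
    natDegree_le_iff_coeff_eq_zero.2 fun j hj => by
      rw [hc, hd, if_neg (by omega), if_neg (by omega), add_zero]
  refine ⟨_, monic_of_natDegree_le_of_coeff_eq_one _ hdeg ?_, by omega, ?_, fun j => by rw [hc, hd]⟩
  · rw [hc, hd, if_pos (by omega), if_neg (by omega), Nat.sub_self, h0, add_zero]
  have s1 := (hasSum_nat_add_iff' (k + p)).2 hs
  have s2 := ((hasSum_nat_add_iff' k).2 hs).mul_left (-t ^ p)
  have s3 := s1.unique (s2.congr_fun fun n => by
    rw [← add_assoc, ha (n + k) (by omega)]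
    push_cast
    ring)
  have e1 : ∑ i ∈ Finset.range (k + p), (θ (k + p - 1 - i) : ℝ) * t⁻¹ ^ i * t ^ (k + p - 1) =
      ∑ i ∈ Finset.range (k + p), (θ i : ℝ) * t ^ i := by
    rw [← Finset.sum_range_reflect (fun i => (θ i : ℝ) * t ^ i)]
    refine Finset.sum_congr rfl fun i hi => ?_
    have := Finset.mem_range.1 hi
    rw [pow_sub₀ _ ht (show i ≤ k + p - 1 by omega), inv_pow]
    ring
  have e2 : ∑ i ∈ Finset.range (k + p), ((if i < k then θ (k - 1 - i) else 0 : ℤ) : ℝ) * t⁻¹ ^ i *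
      t ^ (k + p - 1) = t ^ p * ∑ i ∈ Finset.range k, (θ i : ℝ) * t ^ i := by
    rw [← Finset.sum_range_reflect (fun i => (θ i : ℝ) * t ^ i), Finset.mul_sum,
      Finset.sum_range_add, Finset.sum_eq_zero (s := Finset.range p) (fun i _ => by simp), add_zero]
    refine Finset.sum_congr rfl fun i hi => ?_
    have := Finset.mem_range.1 hi
    rw [if_pos this, show k + p - 1 = p + (k - 1) by omega, pow_add,
      pow_sub₀ _ ht (show i ≤ k - 1 by omega), inv_pow]
    ring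
  apply mul_right_cancel₀ (pow_ne_zero (k + p - 1) ht)
  rw [map_sum, Finset.sum_mul, zero_mul]
  rw [← e1] at s3
  rw [Finset.sum_congr rfl (g := fun i => (θ (k + p - 1 - i) : ℝ) * t⁻¹ ^ i * t ^ (k + p - 1) +
    ((if i < k then θ (k - 1 - i) else 0 : ℤ) : ℝ) * t⁻¹ ^ i * t ^ (k + p - 1)) fun i hi => by
      rw [aeval_monomial, hd, if_pos (Finset.mem_range.1 hi), algebraMap_int_eq, eq_intCast,
        Int.cast_add]
      ring, Finset.sum_add_distrib, e2]
  linear_combination -s3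

end Pool.Agent.MP_994d64_an.TS

end

section

/-! Kneading sequences with a long first block are realised by tent maps of slope near `2`. -/

set_option autoImplicit false

open Set Filter Topology Polynomial

namespace Pool.Agent.MP_994d64_an.TS

lemma rsumm {d : ℕ → ℤ} (hd : ∀ n, d n = 1 ∨ d n = -1) {t : ℝ} (h0 : 0 ≤ t) (h1 : t < 1) :
    Summable fun n => (d n : ℝ) * t ^ n :=
  (prings_summable_norm (fun n => (d n : ℝ))
    (fun n => by rcases hd n with h | h <;> simp [h]) h0 h1).of_norm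

/-- One term of the wrong sign lowers the sum. -/
lemma sum_le {d : ℕ → ℤ} (hd : ∀ n, d n = 1 ∨ d n = -1) {t : ℝ} (h0 : 0 ≤ t) (h1 : t < 1) {j : ℕ}
    (hj : d j = -1) : ∑' n, (d n : ℝ) * t ^ n ≤ (1 - t)⁻¹ - 2 * t ^ j := by
  have a := (hasSum_geometric_of_lt_one h0 h1).sub (rsumm hd h0 h1).hasSum
  have b := le_hasSum a j fun n _ => by
    have := pow_nonneg h0 n
    rcases hd n with h | h <;> rw [h] <;> push_cast <;> linarith
  rw [hj] at b
  push_cast at b
  linarith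

/-- A long first block of right signs raises the sum. -/
lemma le_sum {d : ℕ → ℤ} (hd : ∀ n, d n = 1 ∨ d n = -1) {t : ℝ} (h0 : 0 ≤ t) (h1 : t < 1) {L : ℕ}
    (hL : ∀ n < L, d n = 1) : (1 - 2 * t ^ L) * (1 - t)⁻¹ ≤ ∑' n, (d n : ℝ) * t ^ n := by
  have a := (hasSum_geometric_of_lt_one h0 h1).sub (rsumm hd h0 h1).hasSum
  have b := (hasSum_nat_add_iff' L).2 a
  rw [Finset.sum_eq_zero fun n hn => by simp [hL n (Finset.mem_range.1 hn)], sub_zero] at b
  have c := hasSum_le (fun n => by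
    have := pow_nonneg h0 (n + L)
    rw [show 2 * t ^ L * t ^ n = 2 * t ^ (n + L) by ring]
    rcases hd (n + L) with h | h <;> rw [h] <;> push_cast <;> linarith) b
    ((hasSum_geometric_of_lt_one h0 h1).mul_left (2 * t ^ L))
  linarith

theorem realise (θ : ℕ → ℤ) (L k p : ℕ) (t₁ : ℝ) (hθ : ∀ n, θ n = 1 ∨ θ n = -1) (h0 : θ 0 = 1)
    (hL : ∀ n, 1 ≤ n → n ≤ L → θ n = -1) (hp : 0 < p) (ha : ∀ n, k ≤ n → θ (n + p) = -θ n)
    (hk : L ≤ k) (hk' : k + 2 * p + 2 ≤ 2 * L) (t0 : 1 / 2 < t₁) (t1 : t₁ ≤ 4 / 7)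
    (t2 : 2 * t₁ ^ (L + 1) < 2 * t₁ - 1) :
    ∃ t : ℝ, 1 / 2 < t ∧ t ≤ t₁ ∧ HasSum (fun n => (θ n : ℝ) * t ^ n) 0 ∧
      ∃ x e, Ex.Good t⁻¹ x e := by
  have sq : ∀ n, (θ n : ℝ) * θ n = 1 := fun n => by rcases hθ n with h | h <;> simp [h]
  have sg : ∀ n i, -θ n * θ (n + 1 + i) = 1 ∨ -θ n * θ (n + 1 + i) = -1 := fun n i => by
    rcases hθ n with h | h <;> rcases hθ (n + 1 + i) with h' | h' <;> simp [h, h']
  obtain ⟨y, hy⟩ : ∃ y : ℕ → ℝ → ℝ, ∀ n t,
      y n t = t * ∑' i, ((-θ n * θ (n + 1 + i) : ℤ) : ℝ) * t ^ i := ⟨_, fun _ _ => rfl⟩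
  have up : ∀ n j t, 0 ≤ t → t < 1 → θ (n + 1 + j) = θ n →
      y n t ≤ t * ((1 - t)⁻¹ - 2 * t ^ j) := fun n j t a b h => by
    rw [hy]
    refine mul_le_mul_of_nonneg_left (sum_le (sg n) a b ?_) a
    rw [h]
    rcases hθ n with h | h <;> simp [h]
  have lo : ∀ t, 0 ≤ t → t < 1 → t * ((1 - 2 * t ^ L) * (1 - t)⁻¹) ≤ y 0 t := fun t a b => by
    rw [hy]
    refine mul_le_mul_of_nonneg_left (le_sum (sg 0) a b fun n hn => ?_) a
    rw [h0, hL _ (by omega) (by omega)]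
    rfl
  have rep : ∀ n, ∃ j, θ (n + 1 + j) = θ n ∧ (1 ≤ n → j + 3 ≤ L) := fun n => by
    by_cases c1 : k ≤ n
    · refine ⟨2 * p - 1, ?_, fun _ => by omega⟩
      rw [show n + 1 + (2 * p - 1) = n + p + p by omega, ha _ (by omega), ha _ c1, neg_neg]
    by_cases c2 : 1 ≤ n ∧ n < L
    · exact ⟨0, by rw [hL _ (by omega) (by omega), hL _ c2.1 c2.2.le], fun _ => by omega⟩
    by_cases c3 : θ k = θ n
    · exact ⟨k - n - 1, by rwa [show n + 1 + (k - n - 1) = k by omega], fun _ => by omega⟩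
    · refine ⟨k + p - n - 1, ?_, fun _ => by omega⟩
      rw [show n + 1 + (k + p - n - 1) = k + p by omega, ha _ le_rfl]
      rcases hθ n with h | h <;> rcases hθ k with h' | h' <;> simp_all
  have cont : ContinuousOn (y 0) (Icc (1 / 2) t₁) := by
    rw [show y 0 = fun t => t * ∑' i, ((-θ 0 * θ (0 + 1 + i) : ℤ) : ℝ) * t ^ i from funext (hy 0)]
    refine continuousOn_id.mul ((series_contOn (fun i => ((-θ 0 * θ (0 + 1 + i) : ℤ) : ℝ))
      (fun i => by rcases sg 0 i with h | h <;> simp only [h] <;> simp) (r := t₁)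
      (by linarith)).mono (Icc_subset_Icc_left (by norm_num)))
  have y0 : y 0 (1 / 2) < 1 := by
    obtain ⟨j, hj, -⟩ := rep 0
    have a := up 0 j (1 / 2) (by norm_num) (by norm_num) hj
    have b : (0 : ℝ) < (1 / 2) ^ j := by positivity
    norm_num at a
    linarith
  have y1 : 1 ≤ y 0 t₁ := by
    refine le_trans ?_ (lo t₁ (by linarith) (by linarith))
    rw [← mul_assoc, ← div_eq_mul_inv, le_div_iff₀ (by linarith)]
    rw [pow_succ] at t2
    linarith
  obtain ⟨t, ⟨ta, tb⟩, ht⟩ := intermediate_value_Icc t0.le cont ⟨y0.le, y1⟩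
  have ta' : 1 / 2 < t := lt_of_le_of_ne ta fun h => by
    rw [← h] at ht
    exact y0.ne ht
  have p0 : 0 < t := by linarith
  have p1 : t < 1 := by linarith
  have st : ∀ n, y (n + 1) t = 1 + ((θ n * θ (n + 1) : ℤ) : ℝ) * t⁻¹ * y n t := fun n => by
    rw [hy, hy, (rsumm (sg n) p0.le p1).tsum_eq_zero_add, ← mul_assoc, inv_mul_cancel_right₀ p0.ne',
      mul_add, ← tsum_mul_left, ← tsum_mul_left]
    have e : ∀ i, t * (((-θ (n + 1) * θ (n + 1 + 1 + i) : ℤ) : ℝ) * t ^ i) =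
        ((θ n * θ (n + 1) : ℤ) : ℝ) * (((-θ n * θ (n + 1 + (i + 1)) : ℤ) : ℝ) * t ^ (i + 1)) :=
      fun i => by
        rw [show n + 1 + (i + 1) = n + 1 + 1 + i by ring]
        push_cast
        linear_combination (θ (n + 1) * θ (n + 1 + 1 + i) * t ^ (i + 1) : ℝ) * sq n
    rw [tsum_congr e]
    push_cast
    linear_combination (θ (n + 1) * θ (n + 1) : ℝ) * sq n + sq (n + 1)
  have lt1 : ∀ n, y (n + 1) t < 1 := fun n => by
    obtain ⟨j, hj, hj'⟩ := rep (n + 1)
    have a := up _ j t p0.le p1 hj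
    have b := lo t p0.le p1
    rw [ht] at b
    have c : t ^ L ≤ t ^ j * t ^ 3 := by
      rw [← pow_add]
      exact pow_le_pow_of_le_one p0.le p1.le (hj' (by omega))
    have d : t ^ 3 * (1 - t)⁻¹ < 1 := by
      rw [← div_eq_mul_inv, div_lt_one (by linarith)]
      have : t ≤ 4 / 7 := tb.trans t1
      nlinarith [mul_pos p0 p0]
    have u : 0 < (1 - t)⁻¹ := inv_pos.2 (by linarith)
    have v : 0 < t * t ^ j := by positivity
    have w := mul_le_mul_of_nonneg_right (mul_le_mul_of_nonneg_left c p0.le) u.le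
    nlinarith [mul_lt_mul_of_pos_left d v]
  have se : ∀ n, θ n * θ (n + 1) = 1 ∨ θ n * θ (n + 1) = -1 := fun n => by
    rcases hθ n with h | h <;> rcases hθ (n + 1) with h' | h' <;> simp [h, h']
  have pr : y (k + p) t = y k t := by
    rw [hy, hy]
    congr 1
    refine tsum_congr fun i => ?_
    rw [ha k le_rfl, show k + p + 1 + i = k + 1 + i + p by ring, ha _ (by omega)]
    push_cast
    ring
  have T : Tent t⁻¹ (fun n => y n t) fun n => θ n * θ (n + 1) :=
    { one_lt := (one_lt_inv₀ p0).2 p1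
      le_two := by rw [inv_le_comm₀ p0 two_pos]; linarith
      x0 := ht
      sign := se
      step := st
      le_one := fun n => by
        cases n with
        | zero => exact ht.le
        | succ n => exact (lt1 n).le
      per := ⟨k, p, hp, pr, fun i => by
        rw [ha _ (by omega), show k + i + p + 1 = k + i + 1 + p by ring, ha _ (by omega)]
        ring⟩ }
  have kt : ∀ n, Ex.KT (fun n => θ n * θ (n + 1)) n = θ n := fun n => by
    induction n with
    | zero => exact h0.symm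
    | succ n ih =>
      rw [Ex.KT, ih]
      rcases hθ n with h | h <;> simp [h]
  refine ⟨t, ta', tb, ?_, _, _, T, fun n h => ?_, ⟨k, p, hp, pr, ?_⟩, Ex.tent_pos T ?_⟩
  · have a := (rsumm hθ p0.le p1).hasSum
    rw [(rsumm hθ p0.le p1).tsum_eq_zero_add] at a
    rw [hy, ← tsum_mul_left] at ht
    have e : ∀ i, (θ (i + 1) : ℝ) * t ^ (i + 1) =
        -(t * (((-θ 0 * θ (0 + 1 + i) : ℤ) : ℝ) * t ^ i)) := fun i => by
      rw [h0, show 0 + 1 + i = i + 1 by ring]
      push_cast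
      ring
    rw [tsum_congr e, tsum_neg, ht, h0] at a
    simpa using a
  · have a := lt1 n
    rw [st, show y n t = 0 from h] at a
    simp at a
  · rw [kt, kt, ha k le_rfl]
  · rw [inv_pow, le_inv_comm₀ two_pos (by positivity)]
    have : t ≤ 4 / 7 := tb.trans t1
    nlinarith

lemma exists_word (σ τ : ℕ → ℤ) (hσ : ∀ n, σ n = 1 ∨ σ n = -1) (hτ : ∀ n, τ n = 1 ∨ τ n = -1)
    (L K p : ℕ) (hp : 0 < p) : ∃ θ : ℕ → ℤ, (∀ n, θ n = 1 ∨ θ n = -1) ∧ θ 0 = 1 ∧
      (∀ n, 1 ≤ n → n ≤ L → θ n = -1) ∧ (∀ n, L + 1 + K ≤ n → θ (n + p) = -θ n) ∧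
      (∀ j < K, θ (L + K - j) = σ j) ∧ ∀ j < p, θ (L + K + p - j) = τ j := by
  refine ⟨fun n => if n = 0 then 1 else if n ≤ L then -1 else if n < L + 1 + K then σ (L + K - n)
    else (-1) ^ ((n - (L + 1 + K)) / p) * τ (p - 1 - (n - (L + 1 + K)) % p), fun n => ?_, by simp,
    fun n h1 h2 => ?_, fun n h => ?_, fun j h => ?_, fun j h => ?_⟩
  · dsimp only
    split_ifs
    · exact Or.inl rfl
    · exact Or.inr rfl
    · exact hσ _
    · rcases neg_one_pow_eq_or ℤ ((n - (L + 1 + K)) / p) with h | h <;>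
        rcases hτ (p - 1 - (n - (L + 1 + K)) % p) with h' | h' <;> simp [h, h']
  · dsimp only
    rw [if_neg (by omega), if_pos h2]
  · dsimp only
    rw [if_neg (by omega), if_neg (by omega), if_neg (by omega), if_neg (by omega),
      if_neg (by omega), if_neg (by omega), show n + p - (L + 1 + K) = n - (L + 1 + K) + p by omega,
      Nat.add_div_right _ hp, Nat.add_mod_right, pow_succ]
    ring
  · dsimp only
    rw [if_neg (by omega), if_neg (by omega), if_pos (by omega)]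
    congr 1
    omega
  · dsimp only
    rw [if_neg (by omega), if_neg (by omega), if_neg (by omega), Nat.div_eq_of_lt (by omega),
      Nat.mod_eq_of_lt (by omega), pow_zero, one_mul]
    congr 1
    omega

/-- Every zero of a series with coefficients `-1`, `0`, `1` is a limit of conjugates. -/
theorem exists_conj {z : ℂ} (hz : ‖z‖ < 1) (hM : MM z) {ε a : ℝ} (hε : 0 < ε) (ha : a < 2) :
    ∃ (l : ℝ) (w : ℂ), (∃ c, PCF c ∧ Real.exp (ent c).toReal = l) ∧ a < l ∧
      aeval w (minpoly ℚ l) = 0 ∧ ‖w - z‖ < ε := by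
  classical
  obtain ⟨c, hc, c0, hs⟩ := hM
  obtain ⟨N, hN⟩ := hurwitz hz hc c0 hs (lt_min hε (sub_pos.2 hz))
  obtain ⟨p, hp, hNp⟩ : ∃ p, 0 < p ∧ N ≤ p := ⟨N + 1, by omega, by omega⟩
  obtain ⟨S, hS, hconj⟩ := conj_of_notMem p
  obtain ⟨K, hK⟩ : ∃ K, K = p + hS.toFinset.card + 1 := ⟨_, rfl⟩
  have ev : ∀ᶠ t : ℝ in 𝓝[>] (1 / 2), a < t⁻¹ ∧ ((t⁻¹ : ℝ) : ℂ) ∉ S := by
    refine Eventually.and (mem_nhdsWithin_of_mem_nhds ?_) ?_
    · exact (continuousAt_inv₀ (by norm_num)).eventually (lt_mem_nhds (by norm_num; exact ha))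
    · have f : ((fun t : ℝ => ((t⁻¹ : ℝ) : ℂ)) ⁻¹' S).Finite :=
        hS.preimage fun u _ v _ h => inv_injective (Complex.ofReal_injective h)
      exact (nhdsGT_le_nhdsNE _).trans (nhdsNE_le_cofinite _) f.compl_mem_cofinite
  obtain ⟨t₂, h2, h2'⟩ := mem_nhdsGT_iff_exists_Ioc_subset.1 ev
  obtain ⟨t₁, t0, t1, t3⟩ : ∃ t₁ : ℝ, 1 / 2 < t₁ ∧ t₁ ≤ 4 / 7 ∧ t₁ ≤ t₂ :=
    ⟨min (4 / 7) t₂, lt_min (by norm_num) h2, min_le_left _ _, min_le_right _ _⟩
  have tt : Tendsto (fun L : ℕ => 2 * t₁ ^ (L + 1)) atTop (𝓝 (2 * 0)) :=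
    ((tendsto_pow_atTop_nhds_zero_of_lt_one (by linarith) (by linarith)).comp
      (tendsto_add_atTop_nat 1)).const_mul 2
  obtain ⟨L, t2, hL⟩ := ((tt.eventually (gt_mem_nhds (show 2 * 0 < 2 * t₁ - 1 by linarith))).and
    (eventually_ge_atTop (K + 2 * p + 3))).exists
  have c3 : ∀ n, c n = -1 ∨ c n = 0 ∨ c n = 1 := fun n => by
    have := abs_le.1 (hc n)
    omega
  obtain ⟨θ, g1, g2, g3, g4, g5, g6⟩ := exists_word
    (fun n => if n < p ∧ c n = -1 then -1 else 1) (fun n => if c n = 1 then 1 else -1)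
    (fun n => by split_ifs <;> simp) (fun n => by split_ifs <;> simp) L K p hp
  have main : ∀ m, p ≤ m → m < K → ∃ (t : ℝ) (w : ℂ) (F : ℤ[X]), ‖w - z‖ < min ε (1 - ‖z‖) ∧
      aeval w F = 0 ∧ w ≠ 0 ∧ (∃ x e, Ex.Good t⁻¹ x e) ∧ a < t⁻¹ ∧
      (w ∉ S → aeval w (minpoly ℚ t⁻¹) = 0) ∧ ∀ j, (F + C 2 * X ^ m + C 2 * X ^ (m + p)).coeff j =
        (if j < L + 1 + K + p then θ (L + 1 + K + p - 1 - j) else 0) +
          if j < L + 1 + K then θ (L + 1 + K - 1 - j) else 0 := by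
    intro m m1 m2
    obtain ⟨η, hη⟩ : ∃ η : ℕ → ℤ, ∀ n, η n = θ n - if n = L + K - m then 2 else 0 :=
      ⟨_, fun _ => rfl⟩
    have hne : ∀ n, n ≠ L + K - m → η n = θ n := fun n h => by rw [hη, if_neg h, sub_zero]
    have e1 : ∀ n, η n = 1 ∨ η n = -1 := fun n => by
      by_cases h : n = L + K - m
      · right
        rw [hη, if_pos h, h, g5 m m2, if_neg (by omega)]
        rfl
      · rw [hne n h]
        exact g1 n
    have e2 : η 0 = 1 := by rw [hne 0 (by omega), g2]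
    have e4 : ∀ n, L + 1 + K ≤ n → η (n + p) = -η n := fun n h => by
      rw [hne _ (by omega), hne _ (by omega), g4 n h]
    obtain ⟨t, a1, a2, a3, a4⟩ := realise η L (L + 1 + K) p t₁ e1 e2
      (fun n h h' => by rw [hne n (by omega), g3 n h h']) hp e4 (by omega) (by omega) t0 t1 t2
    obtain ⟨F, f1, f2, f3, f4⟩ := exists_poly η (L + 1 + K) p t e2 hp e4 (by linarith) a3
    have f5 : ∀ j, |F.coeff j| ≤ 2 := fun j => by
      rw [f4, abs_le]
      rcases e1 (L + 1 + K + p - 1 - j) with h | h <;> rcases e1 (L + 1 + K - 1 - j) with h' | h' <;>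
        split_ifs <;> omega
    have f6 : ∀ j < p, F.coeff j = 2 * c j := fun j hj => by
      rw [f4, if_pos (by omega), if_pos (by omega), hne _ (by omega), hne _ (by omega),
        show L + 1 + K + p - 1 - j = L + K + p - j by omega,
        show L + 1 + K - 1 - j = L + K - j by omega, g6 j hj, g5 j (by omega)]
      rcases c3 j with h | h | h <;> simp [h, hj]
    have f7 : ∀ j < L + 1 + K, Even (F.coeff j) := fun j hj => by
      rw [f4, if_pos (by omega), if_pos hj]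
      rcases e1 (L + 1 + K + p - 1 - j) with h | h <;> rcases e1 (L + 1 + K - 1 - j) with h' | h' <;>
        rw [h, h'] <;> decide
    have f0 : F.coeff 0 = 2 := by rw [f6 0 hp, c0, mul_one]
    obtain ⟨w, w1, w2⟩ := hN F f5 fun j hj => f6 j (by omega)
    have b := h2' ⟨a1, a2.trans t3⟩
    refine ⟨t, w, F, w2, w1, fun h => ?_, a4, b.1, hconj F _ _ w f1 f2 f5 f0 f7 f3 w1 b.2,
      fun j => ?_⟩
    · rw [h, ← coeff_zero_eq_aeval_zero', f0] at w1
      simp at w1
    · rw [coeff_add, coeff_add, coeff_C_mul_X_pow, coeff_C_mul_X_pow, f4, hη, hη]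
      split_ifs <;> omega
  choose! t w F h1 h2 h3 h4 h5 h6 h7 using main
  by_cases hex : ∃ m, p ≤ m ∧ m < K ∧ w m ∉ S
  · obtain ⟨m, m1, m2, m3⟩ := hex
    obtain ⟨x, e, G⟩ := h4 m m1 m2
    exact ⟨_, w m, G.realize, h5 m m1 m2, h6 m m1 m2 m3, (h1 m m1 m2).trans_le (min_le_left _ _)⟩
  push Not at hex
  obtain ⟨m, hm, m', hm', hne, he⟩ := Finset.exists_ne_map_eq_of_card_lt_of_maps_to
    (s := Finset.Ico p K) (t := hS.toFinset) (by rw [Nat.card_Ico]; omega) (f := w)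
    fun m hm => by
      have := Finset.mem_Ico.1 hm
      simpa using hex m this.1 this.2
  obtain ⟨m1, m2⟩ := Finset.mem_Ico.1 hm
  obtain ⟨m1', m2'⟩ := Finset.mem_Ico.1 hm'
  have q : F m + C 2 * X ^ m + C 2 * X ^ (m + p) = F m' + C 2 * X ^ m' + C 2 * X ^ (m' + p) :=
    Polynomial.ext fun j => by rw [h7 m m1 m2, h7 m' m1' m2']
  have q1 := congrArg (aeval (w m)) q
  simp only [map_add, map_mul, map_pow, aeval_X, aeval_C, h2 m m1 m2] at q1
  rw [show aeval (w m) (F m') = 0 from he ▸ h2 m' m1' m2'] at q1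
  have n1 : ‖w m‖ < 1 := by
    linarith [(h1 m m1 m2).trans_le (min_le_right _ _), norm_le_norm_add_norm_sub' (w m) z]
  have n0 : 0 < ‖w m‖ := norm_pos_iff.2 (h3 m m1 m2)
  have q2 : (w m ^ m - w m ^ m') * (1 + w m ^ p) = 0 := by
    simp only [algebraMap_int_eq, eq_intCast, Int.cast_ofNat] at q1
    linear_combination (1 / 2 : ℂ) * q1
  rcases mul_eq_zero.1 q2 with h | h
  · have := congrArg norm (sub_eq_zero.1 h)
    rw [norm_pow, norm_pow] at this
    exact absurd (pow_right_injective₀ n0 n1.ne this) hne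
  · have := congrArg norm (eq_neg_of_add_eq_zero_right h)
    rw [norm_pow, norm_neg, norm_one] at this
    exact absurd this (pow_lt_one₀ n0.le n1 hp.ne').ne

/-- Every conjugate in the disc is a zero of a series with coefficients `-1`, `0`, `1`. -/
theorem MM_of_conj {c : ℝ} (hc : PCF c) {w : ℂ}
    (hw : aeval w (minpoly ℚ (Real.exp (ent c).toReal)) = 0) (h1 : ‖w‖ < 1) : MM w := by
  rcases tent_of_pcf hc with h | ⟨x, e, T⟩
  · rw [h] at hw
    simp only [minpoly.one, map_sub, aeval_X, map_one] at hw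
    rw [sub_eq_zero.1 hw] at h1
    simp at h1
  generalize Real.exp (ent c).toReal = l at hw T
  obtain ⟨N, p, hp, -, hper⟩ := Conj_per T hw
  have h0 : w ≠ 0 := fun h => by
    rw [h, ← coeff_zero_eq_aeval_zero', map_eq_zero] at hw
    exact minpoly.coeff_zero_ne_zero T.isIntegral.tower_top (by linarith [T.one_lt]) hw
  refine MM_of_per h0 h1 (fun j => Nat.casesOn j 0 (ww e w)) rfl (fun j => ?_) (n := N + 1) hp ?_
  · cases j with
    | zero => exact Or.inl (by simp [ww])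
    | succ j =>
      rcases T.sign j with h | h
      · exact Or.inl (by simp [ww, h])
      · exact Or.inr (by simp [ww, h])
  · rw [show N + 1 + p = N + p + 1 by ring]
    exact hper 0

end Pool.Agent.MP_994d64_an.TS

end
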