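import Pool.Agent.Mg.F994d64ap.G499516

set_option linter.all false

section

namespace Pool.Agent.MP_994d64_an.Ex

open Finset

theorem PhiB_conv {u E D : ℕ → ℤ} (hD : ∀ n, D n = ∑ i ∈ range (n + 1), u i * E (n - i)) (n : ℕ) :
    D (n + 2) - D (n + 1) - D n = u 0 * E (n + 2) + (u 1 - u 0) * E (n + 1) +
      ∑ i ∈ range (n + 1), (u (i + 2) - u (i + 1) - u i) * E (n - i) := by
  have e1 : ∀ i, n + 2 - (i + 1 + 1) = n - i := fun i => by omega
  have e2 : ∀ i, n + 1 - (i + 1) = n - i := fun i => by omega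
  rw [hD (n + 2), hD (n + 1), hD n, sum_range_succ' _ (n + 2), sum_range_succ' _ (n + 1),
    sum_range_succ' (fun i => u i * E (n + 1 - i)) (n + 1)]
  simp only [e1, e2, sub_mul, sum_sub_distrib, Nat.sub_zero, zero_add,
    show n + 2 - 1 = n + 1 by omega]
  ring

theorem PhiB_num {t r η : ℝ} (ht : 59 / 100 ≤ t) (ht1 : t ≤ 1) (hη : η = 1 ∨ η = -1)
    (h1 : |r| ≤ 1) (h2 : |t * (t * (t * (t * (t * (r + η) + -η) + η) + η) + η)| ≤ 1) : False := by
  have t0 : 0 ≤ t := by linarith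
  have key : ∀ s : ℝ, -1 ≤ s → 1 < t * (t * (t * (t * (t * (s + 1) + -1) + 1) + 1) + 1) := by
    intro s hs
    have a1 : 0 ≤ t ^ 5 * (s + 1) := mul_nonneg (pow_nonneg t0 5) (by linarith)
    have a2 : (59 / 100 : ℝ) ^ 3 * (1 - t) ≤ t ^ 3 * (1 - t) :=
      mul_le_mul_of_nonneg_right (pow_le_pow_left₀ (by norm_num) ht 3) (by linarith)
    nlinarith
  rcases hη with rfl | rfl
  · exact absurd (abs_le.1 h2).2 (not_le.2 (key r (abs_le.1 h1).1))
  · have a := key (-r) (by linarith [(abs_le.1 h1).2])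
    linarith [(abs_le.1 h2).1]

theorem PhiB_odd {x y z e f : ℤ} (hx : x = 1 ∨ x = -1) (hy : y = 1 ∨ y = -1) (hz : z = 1 ∨ z = -1)
    (h : z - y - x = 2 * f - e) : e % 2 = 1 := by
  omega

theorem PhiB_start {d0 d1 d2 d3 e0 e1 e3 : ℤ} (h0 : d0 = 2 ∨ d0 = -2)
    (h1 : d1 = 0 ∨ d1 = 2 ∨ d1 = -2) (h2 : d2 = 1 ∨ d2 = -1) (h3 : d3 = 1 ∨ d3 = -1)
    (a0 : d0 = 2 * e0) (a1 : d1 = 2 * e1 + 2 * e0) (a3 : d3 - d2 - d1 = 2 * e3 - e1)
    (ne : d1 ≠ d0) : (e0 = 1 ∧ e1 = -2) ∨ (e0 = -1 ∧ e1 = 2) := by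
  omega

theorem PhiB_base {d0 d1 d2 d3 e0 e1 e2 e3 : ℤ} (h : (e0 = 1 ∧ e1 = -2) ∨ (e0 = -1 ∧ e1 = 2))
    (h2 : d2 = 1 ∨ d2 = -1) (h3 : d3 = 1 ∨ d3 = -1) (a0 : d0 = 2 * e0) (a1 : d1 = 2 * e1 + 2 * e0)
    (a2 : d2 - d1 - d0 = 2 * e2 - e0) (a3 : d3 - d2 - d1 = 2 * e3 - e1) (o2 : e2 % 2 = 1)
    (o3 : e3 % 2 = 1) : d2 = e2 ∧ d3 = e3 ∧ d3 = -d2 := by
  omega

theorem PhiB_step {x y z e f g : ℤ} (h : x = e ∧ y = f ∧ y = -x) (hx : x = 1 ∨ x = -1)
    (hz : z = 1 ∨ z = -1) (a : z - y - x = 2 * g - e) (o : g % 2 = 1) : y = f ∧ z = g ∧ z = -y := by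
  omega

theorem PhiB_even {x y z e f c : ℤ} (hx : x = 1 ∨ x = -1) (hy : y = 1 ∨ y = -1)
    (hz : z = 1 ∨ z = -1) (h : z - y - x = 2 * f - e + c) (hc : c % 2 = 1) : e % 2 = 0 := by
  omega

theorem PhiB_same {x z e : ℤ} (hx : x = 1 ∨ x = -1) (hz : z = 1 ∨ z = -1) (h : z - x = 2 * e)
    (he : e % 2 = 0) : z = x := by
  omega

theorem Data.phiB {t : ℝ} {u : ℕ → ℤ} (H : Data t u) (h1 : u 1 = 2) (h2 : u 2 = 3) {M : ℕ}
    (hM : 12 ≤ M) (h3 : ∀ n, 1 ≤ n → n < M → u (n + 2) = u (n + 1) + u n)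
    (h4 : Odd (u (M + 2) - u (M + 1) - u M)) (h5 : Odd (u (M + 3) - u (M + 2) - u (M + 1)))
    (ht : 59 / 100 ≤ t) (ht1 : t ≤ 1) : False := by
  obtain ⟨k, hk⟩ := H.back
  obtain ⟨E, D, hD, G⟩ := hk (M + 4)
  have h0 := H.u0
  have S : ∀ n m, m < M → ∑ i ∈ range (m + 1), (u (i + 2) - u (i + 1) - u i) * E (n - i) = -E n := by
    intro n m hm
    rw [sum_range_succ', sum_eq_zero fun i hi => by
      rw [h3 (i + 1) (by omega) (by have := mem_range.1 hi; omega)]; ring]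
    simp only [zero_add, h0, h1, h2, Nat.sub_zero]
    ring
  have A : ∀ n, n < M → D (n + 2) - D (n + 1) - D n = 2 * E (n + 2) - E n := fun n hn => by
    rw [PhiB_conv hD, S n n hn, h0, h1]
    ring
  obtain ⟨m, rfl⟩ : ∃ m, M = m + 3 := ⟨M - 3, by omega⟩
  obtain ⟨a, ha⟩ := h4
  obtain ⟨b, hb⟩ := h5
  have B1 : D (m + 5) - D (m + 4) - D (m + 3) = 2 * E (m + 5) - E (m + 3) + (2 * a + 1) * E 0 := by
    rw [PhiB_conv hD (m + 3), sum_range_succ, S _ (m + 2) (by omega), h0, h1, ha, Nat.sub_self]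
    ring
  have B2 : D (m + 6) - D (m + 5) - D (m + 4) =
      2 * E (m + 6) - E (m + 4) + (2 * a + 1) * E 1 + (2 * b + 1) * E 0 := by
    rw [PhiB_conv hD (m + 4), sum_range_succ, sum_range_succ, S _ (m + 2) (by omega), h0, h1, ha,
      ← hb, Nat.sub_self, show m + 4 - (m + 3) = 1 by omega]
    ring
  have D0 : D 0 = 2 * E 0 := by simp [hD 0, h0]
  have D1 : D 1 = 2 * E 1 + 2 * E 0 := by simp [hD 1, h0, h1, sum_range_succ]
  have A0 : D 2 - D 1 - D 0 = 2 * E 2 - E 0 := A 0 (by omega)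
  have A1 : D 3 - D 2 - D 1 = 2 * E 3 - E 1 := A 1 (by omega)
  have k1 : 1 < k := by
    by_contra h
    have := G.hi 1 (by omega) (by omega)
    omega
  have k2 : k ≤ 2 := by
    by_contra h
    have := G.lo 2 (by omega)
    have := G.d0
    omega
  have hi : ∀ i, 2 ≤ i → i ≤ m + 7 → D i = 1 ∨ D i = -1 := fun i h h' => G.hi i (by omega) h'
  have bd : ∀ i, 2 ≤ i → i ≤ m + 7 → |RR t D i| ≤ 1 := fun i h h' => G.bd i (by omega) h'
  have od : ∀ i, 2 ≤ i → i < m + 3 → E i % 2 = 1 := fun i h h' =>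
    PhiB_odd (hi i h (by omega)) (hi (i + 1) (by omega) (by omega))
      (hi (i + 2) (by omega) (by omega)) (A i h')
  have ne : D 1 ≠ D 0 := fun h => by
    have b2 := bd 2 (by omega) (by omega)
    simp only [RR, zero_add, h] at b2
    rcases G.d0 with e | e <;> rw [e, abs_le] at b2 <;> push_cast at b2 <;> nlinarith [b2.1, b2.2]
  have hm : 9 ≤ m := by omega
  have e0 := PhiB_start G.d0 (G.lo 1 k1) (hi 2 le_rfl (by omega)) (hi 3 (by omega) (by omega))
    D0 D1 A1 ne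
  have e1 : ((2 * a + 1) * E 0) % 2 = 1 ∧ ((2 * a + 1) * E 1 + (2 * b + 1) * E 0) % 2 = 1 := by
    rcases e0 with ⟨e, e'⟩ | ⟨e, e'⟩ <;> rw [e, e'] <;> omega
  have base := PhiB_base e0 (hi 2 le_rfl (by omega)) (hi 3 (by omega) (by omega)) D0 D1 A0 A1
    (od 2 le_rfl (by omega)) (od 3 (by omega) (by omega))
  clear e0
  have ind : ∀ i, 2 ≤ i → i + 1 < m + 3 → D i = E i ∧ D (i + 1) = E (i + 1) ∧ D (i + 1) = -D i := by
    intro i h
    induction i, h using Nat.le_induction with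
    | base => exact fun _ => base
    | succ i h ih =>
      exact fun h' => PhiB_step (ih (by omega)) (hi i h (by omega))
        (hi (i + 2) (by omega) (by omega)) (A i (by omega)) (od (i + 2) (by omega) (by omega))
  obtain ⟨-, -, i1⟩ := ind m (by omega) (by omega)
  obtain ⟨i2, i3, i4⟩ : D (m + 1) = E (m + 1) ∧ D (m + 2) = E (m + 2) ∧ D (m + 2) = -D (m + 1) :=
    ind (m + 1) (by omega) (by omega)
  have a1 : D (m + 3) - D (m + 2) - D (m + 1) = 2 * E (m + 3) - E (m + 1) := A (m + 1) (by omega)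
  have a2 : D (m + 4) - D (m + 3) - D (m + 2) = 2 * E (m + 4) - E (m + 2) := A (m + 2) (by omega)
  have c := fun j (hj : j ≤ 7) => hi (m + j) (by omega) (by omega)
  have f2 : D (m + 2) = D m := by rw [i4, i1, neg_neg]
  have f3 : D (m + 3) = D m := PhiB_same (c 0 (by omega)) (c 3 (by omega)) (by linarith)
    (PhiB_even (c 3 (by omega)) (c 4 (by omega)) (c 5 (by omega)) B1 e1.1)
  have f4 : D (m + 4) = D m := PhiB_same (c 0 (by omega)) (c 4 (by omega)) (by linarith)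
    (PhiB_even (c 4 (by omega)) (c 5 (by omega)) (c 6 (by omega)) (B2.trans (add_assoc _ _ _)) e1.2)
  have b5 := bd (m + 5) (by omega) (by omega)
  simp only [RR, f2, f3, f4, i1, Int.cast_neg] at b5
  exact PhiB_num ht ht1 (by exact_mod_cast c 0 (by omega)) (bd m (by omega) (by omega)) b5

end Pool.Agent.MP_994d64_an.Ex

end

section

namespace Pool.Agent.MP_994d64_an.Ex

/-- The critical orbit of the tent map of slope `m`. -/
noncomputable def BaseA_orb (m : ℝ) : ℕ → ℝ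
  | 0 => 1
  | n + 1 => 1 - m * |BaseA_orb m n|

theorem BaseA_pos {m a : ℝ} {n : ℕ} (h : BaseA_orb m n = a) (ha : 0 < a) :
    BaseA_orb m (n + 1) = 1 - m * a := by
  rw [BaseA_orb, h, abs_of_pos ha]

theorem BaseA_neg {m a : ℝ} {n : ℕ} (h : BaseA_orb m n = a) (ha : a < 0) :
    BaseA_orb m (n + 1) = 1 + m * a := by
  rw [BaseA_orb, h, abs_of_neg ha]; ring

theorem BaseA_one (m : ℝ) : BaseA_orb m 1 = 1 - m := by
  rw [BaseA_pos (n := 0) (a := 1) rfl one_pos, mul_one]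

theorem BaseA_two {m : ℝ} (h1 : 1 < m) : BaseA_orb m 2 = 1 + m - m ^ 2 := by
  rw [BaseA_neg (BaseA_one m) (by linarith)]; ring

theorem base0 {m : ℝ} (h1 : 1 < m) (h : m ^ 2 = 2) : ∃ x e, Good m x e := by
  have hb : m ≤ 2 := by nlinarith
  have x0 : BaseA_orb m 0 = 1 := rfl
  have x1 := BaseA_one m
  have x2 : BaseA_orb m 2 = m - 1 := by rw [BaseA_two h1]; linarith
  have x3 : BaseA_orb m 3 = m - 1 := by
    rw [BaseA_pos x2 (by linarith)]; linear_combination -h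
  refine ⟨_, good_of_orbit (by linarith) h.ge hb (BaseA_orb m) rfl (fun _ => rfl) 2 1 one_pos
    (fun i hi => ?_) (x3.trans x2.symm) ?_⟩
  · have hi' : i < 3 := hi
    interval_cases i
    · rw [x0]; exact one_ne_zero
    · rw [x1]; linarith
    · rw [x2]; linarith
  · simp only [Finset.prod_range_succ, Finset.prod_range_zero, one_mul, add_zero, x2]
    linarith

theorem base1 {m : ℝ} (h1 : 1 < m) (h : m ^ 3 - 2 * m - 2 = 0) : ∃ x e, Good m x e := by
  have ha : 1.7 < m := by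
    by_contra hc
    have hc : m ≤ 1.7 := not_lt.1 hc
    have : m ^ 2 ≤ 1.7 ^ 2 := by nlinarith
    nlinarith
  have hb : m ≤ 2 := by
    by_contra hc
    have hc : 2 < m := not_le.1 hc
    have : 4 < m ^ 2 := by nlinarith
    nlinarith
  have h2 : 2 ≤ m ^ 2 := by nlinarith
  have n2 : 1 + m - m ^ 2 < 0 := by nlinarith
  have x0 : BaseA_orb m 0 = 1 := rfl
  have x1 := BaseA_one m
  have x2 := BaseA_two h1
  have x3 : BaseA_orb m 3 = m ^ 2 - m - 1 := by
    rw [BaseA_neg x2 n2]; linear_combination -h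
  have x4 : BaseA_orb m 4 = m ^ 2 - m - 1 := by
    rw [BaseA_pos x3 (by linarith)]; linear_combination -h
  refine ⟨_, good_of_orbit (by linarith) h2 hb (BaseA_orb m) rfl (fun _ => rfl) 3 1 one_pos
    (fun i hi => ?_) (x4.trans x3.symm) ?_⟩
  · have hi' : i < 4 := hi
    interval_cases i
    · rw [x0]; exact one_ne_zero
    · rw [x1]; linarith
    · rw [x2]; exact n2.ne
    · rw [x3]; linarith
  · simp only [Finset.prod_range_succ, Finset.prod_range_zero, one_mul, add_zero, x3]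
    linarith

theorem base2 {m : ℝ} (h1 : 1 < m) (h : m ^ 3 - m ^ 2 - 2 = 0) : ∃ x e, Good m x e := by
  have ha : 1.65 < m := by
    by_contra hc
    have hc : m ≤ 1.65 := not_lt.1 hc
    have : m ^ 2 ≤ 1.65 ^ 2 := by nlinarith
    nlinarith
  have hb : m ≤ 2 := by
    by_contra hc
    have hc : 2 < m := not_le.1 hc
    have : 4 < m ^ 2 := by nlinarith
    nlinarith
  have h2 : 2 ≤ m ^ 2 := by nlinarith
  have n2 : 1 + m - m ^ 2 < 0 := by nlinarith
  have x0 : BaseA_orb m 0 = 1 := rfl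
  have x1 := BaseA_one m
  have x2 := BaseA_two h1
  have x3 : BaseA_orb m 3 = m - 1 := by
    rw [BaseA_neg x2 n2]; linear_combination -h
  have x4 : BaseA_orb m 4 = 1 + m - m ^ 2 := by
    rw [BaseA_pos x3 (by linarith)]; ring
  refine ⟨_, good_of_orbit (by linarith) h2 hb (BaseA_orb m) rfl (fun _ => rfl) 2 2 two_pos
    (fun i hi => ?_) (x4.trans x2.symm) ?_⟩
  · have hi' : i < 4 := hi
    interval_cases i
    · rw [x0]; exact one_ne_zero
    · rw [x1]; linarith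
    · rw [x2]; exact n2.ne
    · rw [x3]; linarith
  · simp only [Finset.prod_range_succ, Finset.prod_range_zero, one_mul, add_zero, x2, x3]
    exact mul_neg_of_pos_of_neg (by linarith) (by linarith)

theorem base3 {m : ℝ} (h1 : 1 < m) (h : m ^ 3 - 2 * m ^ 2 + 2 * m - 2 = 0) :
    ∃ x e, Good m x e := by
  have ha : 1.5 < m := by
    by_contra hc
    have hc : m ≤ 1.5 := not_lt.1 hc
    have : 0 ≤ (1.5 - m) * (m - 1) := mul_nonneg (by linarith) (by linarith)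
    nlinarith
  have hb : m < 1.6 := by
    by_contra hc
    have hc : 1.6 ≤ m := not_lt.1 hc
    have : 0 ≤ (m - 1.6) * m := mul_nonneg (by linarith) (by linarith)
    nlinarith
  have h2 : 2 ≤ m ^ 2 := by nlinarith
  have n2 : 0 < 1 + m - m ^ 2 := by nlinarith
  have n3 : 0 < m ^ 2 - 3 * m + 3 := by nlinarith
  have x0 : BaseA_orb m 0 = 1 := rfl
  have x1 := BaseA_one m
  have x2 := BaseA_two h1
  have x3 : BaseA_orb m 3 = m ^ 2 - 3 * m + 3 := by
    rw [BaseA_pos x2 n2]; linear_combination h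
  have x4 : BaseA_orb m 4 = m ^ 2 - m - 1 := by
    rw [BaseA_pos x3 n3]; linear_combination -h
  have x5 : BaseA_orb m 5 = m ^ 2 - 3 * m + 3 := by
    rw [BaseA_neg x4 (by linarith)]; linear_combination h
  refine ⟨_, good_of_orbit (by linarith) h2 (by linarith) (BaseA_orb m) rfl (fun _ => rfl) 3 2
    two_pos (fun i hi => ?_) (x5.trans x3.symm) ?_⟩
  · have hi' : i < 5 := hi
    interval_cases i
    · rw [x0]; exact one_ne_zero
    · rw [x1]; linarith
    · rw [x2]; exact n2.ne'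
    · rw [x3]; exact n3.ne'
    · rw [x4]; linarith
  · simp only [Finset.prod_range_succ, Finset.prod_range_zero, one_mul, add_zero, x3, x4]
    exact mul_neg_of_neg_of_pos (by linarith) (by linarith)

end Pool.Agent.MP_994d64_an.Ex

end
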