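import Pool.Agent.Mg.F994d64ap.G499516

set_option linter.all false

section

namespace Pool.Agent.MP_994d64_an.Ex

open Finset

/-- Sum of the squared moduli of the first `N` coefficients. -/
noncomputable def Energy_C (N : ℕ) (φ : PowerSeries ℂ) : ℝ :=
  ∑ n ∈ range N, Complex.normSq (PowerSeries.coeff n φ)

theorem Energy_diff (z : ℂ) (V : PowerSeries ℂ) (N : ℕ) :
    Energy_C (N + 1) ((PowerSeries.X - PowerSeries.C z) * V) -
      Energy_C (N + 1) ((1 - PowerSeries.C (starRingEnd ℂ z) * PowerSeries.X) * V) =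
      (Complex.normSq z - 1) * Complex.normSq (PowerSeries.coeff N V) := by
  induction N with
  | zero =>
    simp only [Energy_C, zero_add, sum_range_one, sub_mul, mul_assoc, map_sub, one_mul,
      PowerSeries.coeff_C_mul, PowerSeries.coeff_zero_X_mul, mul_zero, zero_sub, sub_zero,
      Complex.normSq_neg, map_mul]
  | succ N ih =>
    unfold Energy_C at ih ⊢
    rw [sum_range_succ, sum_range_succ _ (N + 1)]
    have h : Complex.normSq (PowerSeries.coeff (N + 1) ((PowerSeries.X - PowerSeries.C z) * V)) -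
        Complex.normSq (PowerSeries.coeff (N + 1)
          ((1 - PowerSeries.C (starRingEnd ℂ z) * PowerSeries.X) * V)) =
        (Complex.normSq z - 1) * (Complex.normSq (PowerSeries.coeff (N + 1) V) -
          Complex.normSq (PowerSeries.coeff N V)) := by
      simp only [sub_mul, mul_assoc, map_sub, one_mul, PowerSeries.coeff_C_mul,
        PowerSeries.coeff_succ_X_mul]
      simp only [Complex.normSq_apply, Complex.sub_re, Complex.sub_im, Complex.mul_re,
        Complex.mul_im, Complex.conj_re, Complex.conj_im]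
      ring
    linarith

theorem Energy_step {z : ℂ} (hz : 1 ≤ ‖z‖) (V : PowerSeries ℂ) (N : ℕ) :
    Energy_C N ((1 - PowerSeries.C (starRingEnd ℂ z) * PowerSeries.X) * V) ≤
      Energy_C N ((PowerSeries.X - PowerSeries.C z) * V) := by
  cases N with
  | zero => simp [Energy_C]
  | succ N =>
    have h1 : 1 ≤ Complex.normSq z := by
      rw [Complex.normSq_eq_norm_sq]
      nlinarith
    have h2 := mul_nonneg (sub_nonneg.2 h1) (Complex.normSq_nonneg (PowerSeries.coeff N V))
    linarith [Energy_diff z V N]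

theorem Energy_rev (w : ℂ) :
    (Polynomial.X - Polynomial.C w).reverse = 1 - Polynomial.C w * Polynomial.X := by
  have h : (Polynomial.X : Polynomial ℂ).reverse = 1 := by
    rw [← mul_one Polynomial.X, Polynomial.reverse_X_mul, ← Polynomial.C_1, Polynomial.reverse_C]
  rw [sub_eq_add_neg, ← Polynomial.C_neg, Polynomial.reverse_add_C, h, Polynomial.natDegree_X,
    pow_one, Polynomial.C_neg]
  ring

theorem Energy_prod (s : Multiset ℂ) : (∀ z ∈ s, 1 ≤ ‖z‖) → ∀ (U : PowerSeries ℂ) (N : ℕ),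
    Energy_C N (((s.map fun z => Polynomial.X - Polynomial.C (starRingEnd ℂ z)).prod.reverse :
      Polynomial ℂ) * U) ≤
      Energy_C N (((s.map fun z => Polynomial.X - Polynomial.C z).prod : Polynomial ℂ) * U) := by
  induction s using Multiset.induction_on with
  | empty =>
    intro _ U N
    simp only [Multiset.map_zero, Multiset.prod_zero]
    rw [← Polynomial.C_1, Polynomial.reverse_C]
  | cons z s ih =>
    intro h U N
    rw [Multiset.map_cons, Multiset.prod_cons, Multiset.map_cons, Multiset.prod_cons,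
      Polynomial.reverse_mul_of_domain, Energy_rev]
    simp only [Polynomial.coe_mul, Polynomial.coe_sub, Polynomial.coe_one, Polynomial.coe_C,
      Polynomial.coe_X]
    rw [mul_assoc]
    refine (Energy_step (h z (Multiset.mem_cons_self z s)) _ N).trans ?_
    rw [mul_left_comm, mul_assoc, mul_left_comm (PowerSeries.X - PowerSeries.C z)]
    exact ih (fun w hw => h w (Multiset.mem_cons_of_mem hw)) _ N

theorem Energy_map (N : ℕ) (q : Polynomial ℝ) (U : PowerSeries ℝ) :
    En N ((q : PowerSeries ℝ) * U) = Energy_C N (((q.map (algebraMap ℝ ℂ) : Polynomial ℂ) :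
      PowerSeries ℂ) * PowerSeries.map (algebraMap ℝ ℂ) U) := by
  rw [Polynomial.polynomial_map_coe, ← map_mul]
  refine sum_congr rfl fun n _ => ?_
  rw [PowerSeries.coeff_map, Complex.coe_algebraMap, Complex.normSq_ofReal, sq]

theorem energy (p : Polynomial ℝ) (hp : p.Monic)
    (hz : ∀ z : ℂ, Polynomial.aeval z p = 0 → 1 ≤ ‖z‖) (U : PowerSeries ℝ) (N : ℕ) :
    En N ((p.reverse : PowerSeries ℝ) * U) ≤ En N ((p : PowerSeries ℝ) * U) := by
  have h1 := (IsAlgClosed.splits (p.map (algebraMap ℝ ℂ))).eq_prod_roots_of_monic (hp.map _)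
  set s := (p.map (algebraMap ℝ ℂ)).roots with hs
  have h2 : p.map (algebraMap ℝ ℂ) =
      (s.map fun z => Polynomial.X - Polynomial.C (starRingEnd ℂ z)).prod := by
    have h3 : (p.map (algebraMap ℝ ℂ)).map (starRingEnd ℂ) = p.map (algebraMap ℝ ℂ) := by
      ext n
      simp
    rw [← h3, h1, Polynomial.map_multiset_prod, Multiset.map_map]
    simp
  have h3 : p.reverse.map (algebraMap ℝ ℂ) = (p.map (algebraMap ℝ ℂ)).reverse := by
    rw [Polynomial.reverse, Polynomial.reverse, Polynomial.reflect_map, hp.natDegree_map]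
  have h4 := Energy_prod s (fun z hz' => hz z (by
    rw [Polynomial.aeval_def, ← Polynomial.eval_map]
    exact Polynomial.isRoot_of_mem_roots hz')) (PowerSeries.map (algebraMap ℝ ℂ) U) N
  rw [← h2, ← h1] at h4
  rw [Energy_map, Energy_map, h3]
  exact h4

end Pool.Agent.MP_994d64_an.Ex

end

section

namespace Pool.Agent.MP_994d64_an.Ex

open Finset Polynomial

/-- The polynomials that evaluate to the signed orbit. -/
noncomputable def Back_Y (th : ℕ → ℤ) : ℕ → ℤ[X]
  | 0 => C (th 0)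
  | n + 1 => X * Back_Y th n + C (th (n + 1))

lemma Back_coeff (th : ℕ → ℤ) (n i : ℕ) :
    (Back_Y th n).coeff i = if i ≤ n then th (n - i) else 0 := by
  induction n generalizing i with
  | zero =>
    rw [Back_Y, coeff_C]
    rcases i with _ | i <;> simp
  | succ n ih =>
    rw [Back_Y, coeff_add, coeff_C]
    rcases i with _ | i
    · simp
    · rw [coeff_X_mul, ih]
      simp

lemma Back_aeval {l : ℝ} {th : ℕ → ℤ} {y : ℕ → ℝ} (h0 : y 0 = th 0)
    (hs : ∀ n, y (n + 1) = l * y n + th (n + 1)) (n : ℕ) : aeval l (Back_Y th n) = y n := by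
  induction n with
  | zero => simp [Back_Y, h0]
  | succ n ih => simp [Back_Y, ih, hs]

lemma Back_RR {l : ℝ} (hl : 0 < l) {th : ℕ → ℤ} {y : ℕ → ℝ} (h0 : y 0 = th 0)
    (hs : ∀ n, y (n + 1) = l * y n + th (n + 1)) {a M : ℕ} (hy : y M = y a) {D : ℕ → ℤ}
    (hD : ∀ i, i ≤ M → D i = th (M - i) - if i ≤ a then th (a - i) else 0) (i : ℕ) (hi : i ≤ M) :
    RR l⁻¹ D i = -y (M - i) + if i ≤ a then y (a - i) else 0 := by
  induction i with
  | zero => simp [RR, hy]
  | succ i ih =>
    have h1 : M - i = (M - (i + 1)) + 1 := by omega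
    rw [RR, ih (by omega), hD i (by omega), h1, hs]
    rcases lt_trichotomy i a with h | h | h
    · have h2 : a - i = (a - (i + 1)) + 1 := by omega
      rw [if_pos h.le, if_pos h.le, if_pos (Nat.succ_le_of_lt h), h2, hs]
      push_cast
      field_simp
      ring
    · subst h
      rw [if_pos le_rfl, if_pos le_rfl, if_neg (by omega), Nat.sub_self, h0]
      push_cast
      field_simp
      ring
    · rw [if_neg (by omega), if_neg (by omega), if_neg (by omega)]
      push_cast
      field_simp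
      ring

lemma Back_main {l : ℝ} (hl : 0 < l) {th : ℕ → ℤ} {y : ℕ → ℝ}
    (ht : ∀ n, th n = 1 ∨ th n = -1) (h0 : y 0 = th 0)
    (hs : ∀ n, y (n + 1) = l * y n + th (n + 1)) (hb : ∀ n, |y n| ≤ 1) {P : ℕ} (hP : 0 < P)
    (hper : ∃ a, ∀ n, a ≤ n → y (n + P) = y n) :
    (∃ Q : ℤ[X], aeval l Q = 0 ∧ (Q.coeff 0 = 1 ∨ Q.coeff 0 = -1)) ∨
      ∃ k, ∀ N, ∃ Q : ℤ[X], aeval l Q = 0 ∧ Dig l⁻¹ k N Q.coeff := by
  classical
  obtain ⟨a, ha, hmin⟩ : ∃ a, (∀ n, a ≤ n → y (n + P) = y n) ∧
      ∀ b, b < a → ¬ ∀ n, b ≤ n → y (n + P) = y n :=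
    ⟨Nat.find hper, Nat.find_spec hper, fun b hb => Nat.find_min hper hb⟩
  have hth : ∀ n, a ≤ n → th (n + 1 + P) = th (n + 1) := by
    intro n hn
    have h1 := ha (n + 1) (by omega)
    have h2 := hs (n + P)
    rw [show n + P + 1 = n + 1 + P by ring, h1, hs n, ha n hn] at h2
    have h3 : (th (n + 1 + P) : ℝ) = th (n + 1) := by linarith
    exact_mod_cast h3
  by_cases hc : th (a + P) = th a
  · rcases a with _ | a
    · left
      obtain ⟨P', rfl⟩ : ∃ P', P = P' + 1 := ⟨P - 1, by omega⟩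
      refine ⟨Back_Y th P', ?_, ?_⟩
      · rw [Back_aeval h0 hs]
        have h1 := ha 0 le_rfl
        rw [zero_add] at h1 hc
        rw [hs, hc, h0] at h1
        have h2 : l * y P' = 0 := by linarith
        exact (mul_eq_zero.mp h2).resolve_left hl.ne'
      · rw [Back_coeff, if_pos (Nat.zero_le _)]
        exact ht _
    · exfalso
      refine hmin a (by omega) fun n hn => ?_
      rcases hn.lt_or_eq with h | h
      · exact ha n h
      · subst h
        have h1 := ha (a + 1) le_rfl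
        have h2 := hs (a + P)
        rw [show a + P + 1 = a + 1 + P by ring, h1, hs a, hc] at h2
        have h3 : l * y (a + P) = l * y a := by linarith
        exact mul_left_cancel₀ hl.ne' h3
  · right
    have hneg : th (a + P) = -th a := by
      rcases ht (a + P) with h | h <;> rcases ht a with h' | h' <;> simp_all
    have hr : ∀ r, y (a + (r + 1) * P) = y a ∧ th (a + (r + 1) * P) = -th a := by
      intro r
      induction r with
      | zero => simpa using ⟨ha a le_rfl, hneg⟩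
      | succ r ih =>
        have h1 : a + (r + 1 + 1) * P = a + (r + 1) * P + P := by ring
        have h2 : 0 < (r + 1) * P := by positivity
        obtain ⟨n, hn⟩ : ∃ n, a + (r + 1) * P = n + 1 := ⟨a + (r + 1) * P - 1, by omega⟩
        rw [h1, ha _ (Nat.le_add_right _ _)]
        refine ⟨ih.1, ?_⟩
        rw [← ih.2, hn]
        exact hth n (by omega)
    refine ⟨a + 1, fun N => ?_⟩
    obtain ⟨M, hM, hyM, htM⟩ : ∃ M, a + N + 1 ≤ M ∧ y M = y a ∧ th M = -th a :=
      ⟨a + (N + 1) * P, by nlinarith, hr N⟩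
    have hD : ∀ i, i ≤ M → (Back_Y th M - Back_Y th a).coeff i =
        th (M - i) - if i ≤ a then th (a - i) else 0 := by
      intro i hi
      rw [coeff_sub, Back_coeff, Back_coeff, if_pos hi]
    refine ⟨Back_Y th M - Back_Y th a, ?_, ?_, ?_, ?_, ?_⟩
    · rw [map_sub, Back_aeval h0 hs, Back_aeval h0 hs, hyM, sub_self]
    · rw [hD 0 (Nat.zero_le _), if_pos (Nat.zero_le _), Nat.sub_zero, Nat.sub_zero, htM]
      rcases ht a with h | h <;> simp [h]
    · intro i hi
      rw [hD i (by omega), if_pos (by omega)]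
      rcases ht (M - i) with h | h <;> rcases ht (a - i) with h' | h' <;> simp [h, h']
    · intro i hi hN
      rw [hD i (by omega), if_neg (by omega), sub_zero]
      exact ht _
    · intro i hi hN
      rw [Back_RR hl h0 hs hyM hD i (by omega), if_neg (by omega), add_zero, abs_neg]
      exact hb _

theorem back_of_tent {l : ℝ} {x : ℕ → ℝ} {e : ℕ → ℤ} (T : Tent l x e) :
    (∃ Q : ℤ[X], aeval l Q = 0 ∧ (Q.coeff 0 = 1 ∨ Q.coeff 0 = -1)) ∨
      ∃ k, ∀ N, ∃ Q : ℤ[X], aeval l Q = 0 ∧ Dig l⁻¹ k N Q.coeff := by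
  obtain ⟨n0, p, hp, hx, he⟩ := T.per
  have hl : 0 < l := by linarith [T.one_lt]
  have hxk : ∀ k, x (n0 + k + p) = x (n0 + k) := by
    intro k
    induction k with
    | zero => simpa using hx
    | succ k ih =>
      rw [show n0 + (k + 1) + p = n0 + k + p + 1 by ring, T.step, ← add_assoc, T.step, ih, he]
  have htk : ∀ k, KT e (n0 + k + p) = KT e (n0 + p) * KT e n0 * KT e (n0 + k) := by
    intro k
    induction k with
    | zero => rcases KT_sign T.sign n0 with h | h <;> simp [h]
    | succ k ih =>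
      rw [show n0 + (k + 1) + p = n0 + k + p + 1 by ring, KT, ← add_assoc, KT, ih, he]
      ring
  refine Back_main (th := KT e) (y := fun n => (KT e n : ℝ) * x n) (P := p + p) hl
    (KT_sign T.sign) (by simp [T.x0]) (fun n => ?_) (fun n => ?_) (by omega) ⟨n0, fun n hn => ?_⟩
  · simp only [KT, T.step]
    rcases T.sign n with h | h <;> simp only [h] <;> push_cast <;> ring
  · rw [abs_mul]
    exact mul_le_one₀ (KT_abs T.sign n) (abs_nonneg _) (Conj_abs_le T n)
  · obtain ⟨k, rfl⟩ := Nat.exists_eq_add_of_le hn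
    have h1 : n0 + k + (p + p) = n0 + (k + p) + p := by ring
    have h2 : n0 + (k + p) = n0 + k + p := by ring
    show (KT e (n0 + k + (p + p)) : ℝ) * x (n0 + k + (p + p)) = KT e (n0 + k) * x (n0 + k)
    rw [h1, hxk (k + p), htk (k + p), h2, hxk k, htk k]
    rcases KT_sign T.sign n0 with h | h <;> rcases KT_sign T.sign (n0 + p) with h' | h' <;>
      simp [h, h']

end Pool.Agent.MP_994d64_an.Ex

end

section

namespace Pool.Agent.MP_994d64_an.Ex

open Finset Polynomial

theorem Poly_En_C (N : ℕ) (c : ℝ) (f : PowerSeries ℝ) :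
    En N (PowerSeries.C c * f) = c ^ 2 * En N f := by
  simp only [En, PowerSeries.coeff_C_mul, mul_pow, mul_sum]

theorem Poly_rev (l : ℝ) : (X - C l : ℝ[X]).reverse = 1 - C l * X := by
  have h : (X : ℝ[X]).reverse = 1 := by
    rw [← one_mul X, reverse_mul_X, ← C_1, reverse_C]
  rw [sub_eq_add_neg, ← C_neg, reverse_add_C, h, natDegree_X, pow_one, C_neg]
  ring

theorem Poly_real {l s : ℝ} (hl : 1 < l) (hs : s ^ 2 = 1) (M p : ℝ[X]) (hp : p.Monic)
    (hMp : M = (X - C l) * p) (hz : ∀ z : ℂ, aeval z M = 0 → 1 ≤ ‖z‖) (I g : PowerSeries ℝ)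
    (hI : (M.reverse : PowerSeries ℝ) * I = 1)
    (hg : g = PowerSeries.C s * (M : PowerSeries ℝ) * I) :
    (∀ (W : PowerSeries ℝ) (N : ℕ), En N W ≤ En N (g * W)) ∧
    (∀ (W : PowerSeries ℝ) (N : ℕ), En N ((PowerSeries.C l⁻¹ * PowerSeries.X - 1) * W) ≤
      En N ((PowerSeries.C l⁻¹ - PowerSeries.X) * (g * W))) ∧
    ∀ f h : ℝ[X], g * (h : PowerSeries ℝ) = (f : PowerSeries ℝ) → f.eval l⁻¹⁻¹ = 0 := by
  have hl0 : l ≠ 0 := by linarith
  have hM : M.Monic := hMp ▸ (monic_X_sub_C l).mul hp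
  have hM' : (M : PowerSeries ℝ) =
      (PowerSeries.X - PowerSeries.C l) * (p : PowerSeries ℝ) := by
    rw [hMp, Polynomial.coe_mul, Polynomial.coe_sub, coe_X, coe_C]
  have hR : (M.reverse : PowerSeries ℝ) =
      (1 - PowerSeries.C l * PowerSeries.X) * (p.reverse : PowerSeries ℝ) := by
    rw [hMp, reverse_mul_of_domain, Poly_rev, Polynomial.coe_mul, Polynomial.coe_sub, Polynomial.coe_mul, coe_X, coe_C, Polynomial.coe_one]
  have ht : PowerSeries.C l⁻¹ * PowerSeries.C l = 1 := by
    rw [← map_mul, inv_mul_cancel₀ hl0, map_one]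
  refine ⟨fun W N => ?_, fun W N => ?_, fun f h hf => ?_⟩
  · have h1 := energy M hM hz (I * W) N
    have e : g * W = PowerSeries.C s * ((M : PowerSeries ℝ) * (I * W)) := by rw [hg]; ring
    rw [← mul_assoc, hI, one_mul] at h1
    rwa [e, Poly_En_C, hs, one_mul]
  · have h1 := energy p hp (fun z h => hz z (by rw [hMp, map_mul, h, mul_zero]))
      ((PowerSeries.X - PowerSeries.C l) * W * (1 - PowerSeries.C l * PowerSeries.X) * I) N
    have e1 : (PowerSeries.C l⁻¹ * PowerSeries.X - 1) * W =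
        PowerSeries.C l⁻¹ * ((p.reverse : PowerSeries ℝ) *
        ((PowerSeries.X - PowerSeries.C l) * W * (1 - PowerSeries.C l * PowerSeries.X) * I)) := by
      rw [hR] at hI
      linear_combination (-(PowerSeries.C l⁻¹ * (PowerSeries.X - PowerSeries.C l) * W)) * hI +
        W * ht
    have e2 : (PowerSeries.C l⁻¹ - PowerSeries.X) * (g * W) = PowerSeries.C l⁻¹ *
        (PowerSeries.C s * ((p : PowerSeries ℝ) * ((PowerSeries.X - PowerSeries.C l) * W *
          (1 - PowerSeries.C l * PowerSeries.X) * I))) := by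
      rw [hg, hM']
      linear_combination (PowerSeries.X * (PowerSeries.C s * ((PowerSeries.X - PowerSeries.C l) *
        (p : PowerSeries ℝ)) * I * W)) * ht
    rw [e1, e2, Poly_En_C, Poly_En_C, Poly_En_C, hs, one_mul]
    exact mul_le_mul_of_nonneg_left h1 (sq_nonneg _)
  · have e : C s * M * h = M.reverse * f := by
      apply Polynomial.coe_injective
      simp only [Polynomial.coe_mul, coe_C]
      rw [← hf, hg]
      linear_combination (-(PowerSeries.C s * (M : PowerSeries ℝ) * (h : PowerSeries ℝ))) * hI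
    have e1 := congrArg (eval l) e
    have e2 : M.eval l = 0 := by rw [hMp]; simp
    rw [eval_mul, eval_mul, eval_mul, e2, mul_zero, zero_mul] at e1
    rw [inv_inv]
    refine (mul_eq_zero.1 e1.symm).resolve_left fun h0 => ?_
    have hi : l⁻¹ ≠ 0 := inv_ne_zero hl0
    let _ := invertibleOfNonzero hi
    have h1 := (eval₂_reverse_eq_zero_iff (RingHom.id ℝ) l⁻¹ M).1 (by
      rw [invOf_eq_inv, inv_inv]; exact h0)
    have h2 := hz ((l⁻¹ : ℝ) : ℂ) (by
      rw [← Complex.coe_algebraMap, aeval_algebraMap_apply, coe_aeval_eq_eval]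
      exact (map_eq_zero _).2 h1)
    rw [Complex.norm_real, Real.norm_eq_abs, abs_of_pos (inv_pos.2 (by linarith))] at h2
    exact absurd (inv_lt_one_of_one_lt₀ hl) (not_lt.2 h2)

theorem data_of_tent {l : ℝ} {x : ℕ → ℝ} {e : ℕ → ℤ} (T : Tent l x e)
    (hz : ∀ z : ℂ, aeval z (minpoly ℚ l) = 0 → 1 ≤ ‖z‖) : ∃ u, Data l⁻¹ u := by
  have hint := T.isIntegral
  have hl := T.one_lt
  have hm : (minpoly ℤ l).Monic := minpoly.monic hint
  have hm0 : aeval l (minpoly ℤ l) = 0 := minpoly.aeval ℤ l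
  have hdvd : ∀ Q : ℤ[X], aeval l Q = 0 → minpoly ℤ l ∣ Q := fun Q hQ =>
    minpoly.isIntegrallyClosed_dvd hint hQ
  rw [minpoly.isIntegrallyClosed_eq_field_fractions' ℚ hint] at hz
  generalize minpoly ℤ l = m at hz hm hm0 hdvd
  have hM : (m.map (algebraMap ℤ ℝ)).Monic := hm.map _
  have hMz : ∀ z : ℂ, aeval z (m.map (algebraMap ℤ ℝ)) = 0 → 1 ≤ ‖z‖ := fun z h => by
    rw [aeval_map_algebraMap] at h
    exact hz z (by rwa [aeval_map_algebraMap])
  obtain ⟨p, hp⟩ : (X - C l : ℝ[X]) ∣ m.map (algebraMap ℤ ℝ) :=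
    dvd_iff_isRoot.2 (by rwa [IsRoot.def, eval_map, ← aeval_def])
  have hpm : p.Monic := (monic_X_sub_C l).of_mul_monic_left (hp ▸ hM)
  have hc : 1 < m.coeff 0 ^ 2 := by
    have h1 := energy p hpm (fun z h => hMz z (by rw [hp, map_mul, h, mul_zero])) 1 1
    simp only [En, mul_one, range_one, sum_singleton, coeff_coe, coeff_zero_reverse,
      hpm.leadingCoeff, one_pow] at h1
    have h2 : (m.coeff 0 : ℝ) = -l * p.coeff 0 := by
      have := congrArg (fun q : ℝ[X] => q.coeff 0) hp
      simpa using this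
    have h3 : (1 : ℝ) < (m.coeff 0 : ℝ) ^ 2 := by
      rw [h2, mul_pow, neg_sq]
      nlinarith
    exact_mod_cast h3
  have hd0 : ∀ Q : ℤ[X], aeval l Q = 0 → m.coeff 0 ∣ Q.coeff 0 := fun Q hQ => by
    obtain ⟨G, rfl⟩ := hdvd Q hQ
    exact ⟨G.coeff 0, mul_coeff_zero _ _⟩
  rcases back_of_tent T with ⟨Q, hQ, hQ'⟩ | ⟨k, hk⟩
  · have h1 : m.coeff 0 ∣ 1 := by
      rcases hQ' with h | h
      · exact h ▸ hd0 Q hQ
      · exact dvd_neg.1 (h ▸ hd0 Q hQ)
    rcases Int.isUnit_iff.1 (isUnit_of_dvd_one h1) with h | h <;> rw [h] at hc <;> norm_num at hc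
  obtain ⟨s, hs, hs'⟩ : ∃ s : ℤ, s * s = 1 ∧ m.coeff 0 = 2 * s := by
    obtain ⟨Q, hQ, hQ'⟩ := hk 0
    have h1 : m.coeff 0 ∣ 2 := by
      rcases hQ'.d0 with h | h
      · exact h ▸ hd0 Q hQ
      · exact dvd_neg.1 (h ▸ hd0 Q hQ)
    have h2 := Int.le_of_dvd two_pos h1
    have h3 := Int.le_of_dvd two_pos (neg_dvd.2 h1)
    have h4 : -2 ≤ m.coeff 0 := by omega
    generalize m.coeff 0 = c at hc h2 h4
    interval_cases c
    · exact ⟨-1, rfl, rfl⟩
    · norm_num at hc
    · norm_num at hc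
    · norm_num at hc
    · exact ⟨1, rfl, rfl⟩
  have hr : PowerSeries.constantCoeff (m.reverse : PowerSeries ℤ) = 1 := by
    rw [constantCoeff_coe, coeff_zero_reverse, hm.leadingCoeff]
  obtain ⟨I, hI⟩ : ∃ I : PowerSeries ℤ, (m.reverse : PowerSeries ℤ) * I = 1 :=
    ⟨_, PowerSeries.mul_invOfUnit _ 1 hr⟩
  have hG : GS (fun n => PowerSeries.coeff n (PowerSeries.C s * (m : PowerSeries ℤ) * I)) =
      PowerSeries.C (s : ℝ) * ((m.map (algebraMap ℤ ℝ) : ℝ[X]) : PowerSeries ℝ) *
        PowerSeries.map (algebraMap ℤ ℝ) I := by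
    rw [polynomial_map_coe, ← eq_intCast (algebraMap ℤ ℝ), ← PowerSeries.map_C,
      ← map_mul, ← map_mul]
    ext n
    rw [GS, PowerSeries.coeff_mk, PowerSeries.coeff_map]
    rfl
  have hI' : ((m.map (algebraMap ℤ ℝ)).reverse : PowerSeries ℝ) *
      PowerSeries.map (algebraMap ℤ ℝ) I = 1 := by
    rw [reverse, hm.natDegree_map, reflect_map, polynomial_map_coe, ← map_mul]
    exact (congrArg _ hI).trans (map_one _)
  obtain ⟨a1, a2, a3⟩ := Poly_real hl (s := s) (by rw [sq]; exact_mod_cast hs) _ p hpm hp hMz _ _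
    hI' hG
  refine ⟨_, ?_, a1, a2, a3, k, fun N => ?_⟩
  · have h1 := congrArg PowerSeries.constantCoeff hI
    rw [map_mul, hr, one_mul, map_one] at h1
    rw [PowerSeries.coeff_zero_eq_constantCoeff_apply, map_mul, map_mul, h1,
      PowerSeries.constantCoeff_C, constantCoeff_coe, hs']
    linear_combination 2 * hs
  · obtain ⟨Q, hQ, hQ'⟩ := hk N
    obtain ⟨G, rfl⟩ := hdvd Q hQ
    refine ⟨fun n => PowerSeries.coeff n (PowerSeries.C s * (m.reverse : PowerSeries ℤ) *
      (G : PowerSeries ℤ)), _, fun n => ?_, hQ'⟩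
    have hss : (PowerSeries.C s * PowerSeries.C s : PowerSeries ℤ) = 1 := by
      rw [← map_mul, hs, map_one]
    have e1 : ((m * G : ℤ[X]) : PowerSeries ℤ) =
        PowerSeries.C s * (m : PowerSeries ℤ) * I *
          (PowerSeries.C s * (m.reverse : PowerSeries ℤ) * (G : PowerSeries ℤ)) := by
      rw [Polynomial.coe_mul]
      linear_combination (-((m : PowerSeries ℤ) * (G : PowerSeries ℤ))) * hss -
        (PowerSeries.C s * PowerSeries.C s * (m : PowerSeries ℤ) * (G : PowerSeries ℤ)) * hI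
    rw [← coeff_coe, e1, PowerSeries.coeff_mul, Nat.sum_antidiagonal_eq_sum_range_succ_mk]

end Pool.Agent.MP_994d64_an.Ex

end
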