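import Pool.Agent.Mg.F994d64ap.G499516

set_option linter.all false

namespace Pool.Agent.MP_994d64_an.Ex

/-- The tent orbit of the point one. -/
noncomputable def BaseB_orb (m : ℝ) : ℕ → ℝ
  | 0 => 1
  | n + 1 => 1 - m * |BaseB_orb m n|

lemma BaseB_pos {m a b lo hi : ℝ} (hm : a ≤ m ∧ m ≤ b) (n : ℕ)
    (hy : lo ≤ BaseB_orb m n ∧ BaseB_orb m n ≤ hi) (lo' hi' : ℝ)
    (h : 0 < a ∧ 0 < lo ∧ lo' ≤ 1 - b * hi ∧ 1 - a * lo ≤ hi') :
    BaseB_orb m (n + 1) = 1 - m * BaseB_orb m n ∧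
      lo' ≤ BaseB_orb m (n + 1) ∧ BaseB_orb m (n + 1) ≤ hi' := by
  obtain ⟨h1, h2, h3, h4⟩ := h
  have h5 := mul_le_mul hm.1 hy.1 h2.le (h1.le.trans hm.1)
  have h6 := mul_le_mul hm.2 hy.2 (h2.le.trans hy.1) (h1.le.trans (hm.1.trans hm.2))
  rw [BaseB_orb, abs_of_pos (h2.trans_le hy.1)]
  exact ⟨rfl, by linarith, by linarith⟩

lemma BaseB_neg {m a b lo hi : ℝ} (hm : a ≤ m ∧ m ≤ b) (n : ℕ)
    (hy : lo ≤ BaseB_orb m n ∧ BaseB_orb m n ≤ hi) (lo' hi' : ℝ)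
    (h : 0 < a ∧ hi < 0 ∧ lo' ≤ 1 + b * lo ∧ 1 + a * hi ≤ hi') :
    BaseB_orb m (n + 1) = 1 + m * BaseB_orb m n ∧
      lo' ≤ BaseB_orb m (n + 1) ∧ BaseB_orb m (n + 1) ≤ hi' := by
  obtain ⟨h1, h2, h3, h4⟩ := h
  have h5 := mul_le_mul hm.1 (neg_le_neg hy.2) (neg_pos.2 h2).le (h1.le.trans hm.1)
  have h6 := mul_le_mul hm.2 (neg_le_neg hy.1) (neg_pos.2 (hy.2.trans_lt h2)).le
    (h1.le.trans (hm.1.trans hm.2))
  rw [BaseB_orb, abs_of_neg (hy.2.trans_lt h2)]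
  exact ⟨by ring, by linarith, by linarith⟩

theorem base4 {m : ℝ} (h1 : 1 < m) (h : m ^ 4 - 2 * m ^ 3 + 2 * m - 2 = 0) :
    ∃ x e, Good m x e := by
  have h' : (m - 1) ^ 3 * (m + 1) = 1 := by linear_combination h
  have hm : 1716 / 1000 ≤ m ∧ m ≤ 1717 / 1000 := by
    have h0 : 0 ≤ m - 1 := by linarith
    constructor <;> by_contra hc <;> rw [not_le] at hc
    · have : (m - 1) ^ 3 * (m + 1) ≤
          ((1716 / 1000) - 1) ^ 3 * ((1716 / 1000) + 1) := by gcongr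
      norm_num at this
      linarith
    · have : ((1717 / 1000) - 1) ^ 3 * ((1717 / 1000) + 1) ≤
          (m - 1) ^ 3 * (m + 1) := by gcongr
      norm_num at this
      linarith
  have b0 : 1 ≤ BaseB_orb m 0 ∧ BaseB_orb m 0 ≤ 1 := ⟨le_rfl, le_rfl⟩
  obtain ⟨e1, b1⟩ := BaseB_pos hm 0 b0 (-(717 / 1000)) (-(716 / 1000)) (by norm_num)
  obtain ⟨e2, b2⟩ := BaseB_neg hm 1 b1 (-(232 / 1000)) (-(228 / 1000)) (by norm_num)
  obtain ⟨e3, b3⟩ := BaseB_neg hm 2 b2 (601 / 1000) (609 / 1000) (by norm_num)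
  obtain ⟨e4, b4⟩ := BaseB_pos hm 3 b3 (-(46 / 1000)) (-(31 / 1000)) (by norm_num)
  obtain ⟨e5, b5⟩ := BaseB_neg hm 4 b4 (921 / 1000) (947 / 1000) (by norm_num)
  obtain ⟨e6, b6⟩ := BaseB_pos hm 5 b5 (-(626 / 1000)) (-(580 / 1000)) (by norm_num)
  obtain ⟨e7, -⟩ := BaseB_neg hm 6 b6 (-(75 / 1000)) (5 / 1000) (by norm_num)
  simp only [Nat.reduceAdd, zero_add] at e1 e2 e3 e4 e5 e6 e7 b1 b2 b3 b4 b5 b6
  obtain ⟨e, he⟩ := good_of_orbit (l := m) (by linarith) (by nlinarith) (by linarith)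
    (BaseB_orb m) rfl (fun _ => rfl) 4 3 (by norm_num) (fun i hi h0 => by
      interval_cases i <;> linarith) (by
      rw [show 4 + 3 = 7 from rfl, e7, e6, e5, e4, e3, e2, e1, BaseB_orb]
      linear_combination (-(m + m ^ 2 + m ^ 3)) * h) (by
      have p4 : 0 < -BaseB_orb m 4 := by linarith
      have p5 : 0 < BaseB_orb m 5 := by linarith
      have p6 : 0 < -BaseB_orb m 6 := by linarith
      have := mul_pos (mul_pos p4 p5) p6
      simp only [Finset.prod_range_succ, Finset.prod_range_zero, Nat.reduceAdd, add_zero]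
      linarith)
  exact ⟨_, e, he⟩

theorem base5 {m : ℝ} (h1 : 1 < m) (h : m ^ 5 - m ^ 4 - m ^ 3 + m ^ 2 - 2 = 0) :
    ∃ x e, Good m x e := by
  have h' : m ^ 2 * (m - 1) ^ 2 * (m + 1) = 2 := by linear_combination h
  have hm : 1564 / 1000 ≤ m ∧ m ≤ 1565 / 1000 := by
    have h0 : 0 ≤ m - 1 := by linarith
    constructor <;> by_contra hc <;> rw [not_le] at hc
    · have : m ^ 2 * (m - 1) ^ 2 * (m + 1) ≤
          (1564 / 1000) ^ 2 * ((1564 / 1000) - 1) ^ 2 * ((1564 / 1000) + 1) := by gcongr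
      norm_num at this
      linarith
    · have : (1565 / 1000) ^ 2 * ((1565 / 1000) - 1) ^ 2 * ((1565 / 1000) + 1) ≤
          m ^ 2 * (m - 1) ^ 2 * (m + 1) := by gcongr
      norm_num at this
      linarith
  have b0 : 1 ≤ BaseB_orb m 0 ∧ BaseB_orb m 0 ≤ 1 := ⟨le_rfl, le_rfl⟩
  obtain ⟨e1, b1⟩ := BaseB_pos hm 0 b0 (-(565 / 1000)) (-(564 / 1000)) (by norm_num)
  obtain ⟨e2, b2⟩ := BaseB_neg hm 1 b1 (115 / 1000) (118 / 1000) (by norm_num)
  obtain ⟨e3, b3⟩ := BaseB_pos hm 2 b2 (815 / 1000) (821 / 1000) (by norm_num)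
  obtain ⟨e4, b4⟩ := BaseB_pos hm 3 b3 (-(285 / 1000)) (-(274 / 1000)) (by norm_num)
  obtain ⟨e5, b5⟩ := BaseB_neg hm 4 b4 (553 / 1000) (572 / 1000) (by norm_num)
  obtain ⟨e6, -⟩ := BaseB_pos hm 5 b5 (104 / 1000) (136 / 1000) (by norm_num)
  simp only [Nat.reduceAdd, zero_add] at e1 e2 e3 e4 e5 e6 b1 b2 b3 b4 b5
  obtain ⟨e, he⟩ := good_of_orbit (l := m) (by linarith) (by nlinarith) (by linarith)
    (BaseB_orb m) rfl (fun _ => rfl) 2 4 (by norm_num) (fun i hi h0 => by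
      interval_cases i <;> linarith) (by
      rw [show 2 + 4 = 6 from rfl, e6, e5, e4, e3, e2, e1, BaseB_orb]
      linear_combination (m) * h) (by
      have p2 : 0 < BaseB_orb m 2 := by linarith
      have p3 : 0 < BaseB_orb m 3 := by linarith
      have p4 : 0 < -BaseB_orb m 4 := by linarith
      have p5 : 0 < BaseB_orb m 5 := by linarith
      have := mul_pos (mul_pos (mul_pos p2 p3) p4) p5
      simp only [Finset.prod_range_succ, Finset.prod_range_zero, Nat.reduceAdd, add_zero]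
      linarith)
  exact ⟨_, e, he⟩

theorem base6 {m : ℝ} (h1 : 1 < m) (h : m ^ 6 - 2 * m ^ 5 + m ^ 4 - m ^ 2 + 2 * m - 2 = 0) :
    ∃ x e, Good m x e := by
  have h' : (m - 1) ^ 2 * (m ^ 4 - 1) = 1 := by linear_combination h
  have hm : 1497 / 1000 ≤ m ∧ m ≤ 1498 / 1000 := by
    have h0 : 0 ≤ m - 1 := by linarith
    have h4 : 0 ≤ m ^ 4 - 1 := sub_nonneg.2 (one_le_pow₀ h1.le)
    constructor <;> by_contra hc <;> rw [not_le] at hc
    · have : (m - 1) ^ 2 * (m ^ 4 - 1) ≤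
          ((1497 / 1000) - 1) ^ 2 * ((1497 / 1000) ^ 4 - 1) := by gcongr
      norm_num at this
      linarith
    · have : ((1498 / 1000) - 1) ^ 2 * ((1498 / 1000) ^ 4 - 1) ≤
          (m - 1) ^ 2 * (m ^ 4 - 1) := by gcongr
      norm_num at this
      linarith
  have b0 : 1 ≤ BaseB_orb m 0 ∧ BaseB_orb m 0 ≤ 1 := ⟨le_rfl, le_rfl⟩
  obtain ⟨e1, b1⟩ := BaseB_pos hm 0 b0 (-(498 / 1000)) (-(497 / 1000)) (by norm_num)
  obtain ⟨e2, b2⟩ := BaseB_neg hm 1 b1 (253 / 1000) (256 / 1000) (by norm_num)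
  obtain ⟨e3, b3⟩ := BaseB_pos hm 2 b2 (616 / 1000) (622 / 1000) (by norm_num)
  obtain ⟨e4, b4⟩ := BaseB_pos hm 3 b3 (68 / 1000) (78 / 1000) (by norm_num)
  obtain ⟨e5, b5⟩ := BaseB_pos hm 4 b4 (883 / 1000) (899 / 1000) (by norm_num)
  obtain ⟨e6, b6⟩ := BaseB_pos hm 5 b5 (-(347 / 1000)) (-(321 / 1000)) (by norm_num)
  obtain ⟨e7, b7⟩ := BaseB_neg hm 6 b6 (480 / 1000) (520 / 1000) (by norm_num)
  obtain ⟨e8, -⟩ := BaseB_pos hm 7 b7 (221 / 1000) (282 / 1000) (by norm_num)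
  simp only [Nat.reduceAdd, zero_add] at e1 e2 e3 e4 e5 e6 e7 e8 b1 b2 b3 b4 b5 b6 b7
  obtain ⟨e, he⟩ := good_of_orbit (l := m) (by linarith) (by nlinarith) (by linarith)
    (BaseB_orb m) rfl (fun _ => rfl) 2 6 (by norm_num) (fun i hi h0 => by
      interval_cases i <;> linarith) (by
      rw [show 2 + 6 = 8 from rfl, e8, e7, e6, e5, e4, e3, e2, e1, BaseB_orb]
      linear_combination (m + m ^ 2) * h) (by
      have p2 : 0 < BaseB_orb m 2 := by linarith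
      have p3 : 0 < BaseB_orb m 3 := by linarith
      have p4 : 0 < BaseB_orb m 4 := by linarith
      have p5 : 0 < BaseB_orb m 5 := by linarith
      have p6 : 0 < -BaseB_orb m 6 := by linarith
      have p7 : 0 < BaseB_orb m 7 := by linarith
      have := mul_pos (mul_pos (mul_pos (mul_pos (mul_pos p2 p3) p4) p5) p6) p7
      simp only [Finset.prod_range_succ, Finset.prod_range_zero, Nat.reduceAdd, add_zero]
      linarith)
  exact ⟨_, e, he⟩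

end Pool.Agent.MP_994d64_an.Ex
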