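import Pool.Agent.Mg.F994d64ap.Gf400ef
import Pool.Agent.Mg.F994d64ap.G1297e7
import Pool.Agent.Mg.F994d64ap.G499516
import Pool.Agent.Mg.F994d64ap.Gd47ca6
import Pool.Agent.Mg.F994d64ap.Gdd743f

set_option linter.all false

section

namespace Pool.Agent.MP_994d64_an.Ex

open Finset

/-- Every admissible choice of backward digits leaves `[-1, 1]`. -/
def dead (us : List ℤ) (k : ℕ) (a b : ℚ) : ℕ → List ℤ → ℚ → ℚ → Bool
  | 0, _, _, _ => false
  | f + 1, Es, lo, hi =>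
    (if Es.length < k then [0, 2, -2] else [1, -1]).all fun d : ℤ =>
      let c := Sm Es.length fun l => gt us (l + 1) * gt Es l
      let r := Sm Es.length fun l => gt us (k + 1 + l) * gt Es l
      let lo' := min (a * (lo + d)) (b * (lo + d))
      let hi' := max (a * (hi + d)) (b * (hi + d))
      decide ((d - c) % 2 = 1) || decide (((d - c) / 2 + r) % 2 = 0) ||
        (decide (k ≤ Es.length + 1) && (decide (1 < lo') || decide (hi' < -1))) ||
        dead us k a b f ((d - c) / 2 :: Es) lo' hi'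

lemma Check_par {u E : ℕ → ℤ} {k : ℕ} (hk : ∀ i, i < k → u i % 2 = 0) (n : ℕ) :
    (∑ l ∈ range k, u l * E (n - l)) % 2 = 0 := by
  refine Int.emod_eq_zero_of_dvd (dvd_sum fun l hl => ?_)
  exact (Int.dvd_of_emod_eq_zero (hk l (mem_range.1 hl))).mul_right _

lemma dead_sound {t : ℝ} {u E D : ℕ → ℤ} {us : List ℤ} {k N : ℕ} {a b : ℚ} (h0 : u 0 = 2)
    (hp : Pre u us) (hD : ∀ n, D n = ∑ i ∈ range (n + 1), u i * E (n - i)) (G : Dig t k N D)
    (hN : us.length ≤ N) (hev : ∀ i, i < k → u i % 2 = 0) (hod : u k % 2 = 1)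
    (ha : (a : ℝ) ≤ t) (hb : t ≤ b) (ht : 0 ≤ t) :
    ∀ (f : ℕ) (Es : List ℤ) (lo hi : ℚ), Es.length + f + k ≤ us.length →
      (∀ l, l < Es.length → gt Es l = E (Es.length - 1 - l)) →
      (lo : ℝ) ≤ RR t D Es.length → RR t D Es.length ≤ hi → dead us k a b f Es lo hi = true →
      False := by
  intro f
  induction f with
  | zero => intro Es lo hi _ _ _ _ h; simp [dead] at h
  | succ f ih =>
    intro Es lo hi hl hE hlo hhi h
    set i := Es.length with hi'
    have hk : 0 < k := by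
      rcases Nat.eq_zero_or_pos k with h1 | h1
      · subst h1; omega
      · exact h1
    have hc : D i = 2 * E i + Sm i fun l => gt us (l + 1) * gt Es l := by
      rw [hD, sum_range_succ', h0, Sm_eq, add_comm, Nat.sub_zero]
      congr 1
      refine sum_congr rfl fun l hl' => ?_
      have := mem_range.1 hl'
      rw [hp _ (by omega), hE l this]
      congr 2; omega
    have hr : (E i + Sm i fun l => gt us (k + 1 + l) * gt Es l) % 2 = 1 := by
      have h1 := hD (k + i)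
      rw [add_assoc, sum_range_add, sum_range_succ'] at h1
      have h2 : ∑ l ∈ range i, u (k + (l + 1)) * E (k + i - (k + (l + 1))) =
          Sm i fun l => gt us (k + 1 + l) * gt Es l := by
        rw [Sm_eq]
        refine sum_congr rfl fun l hl' => ?_
        have := mem_range.1 hl'
        rw [hp _ (by omega), hE l this]
        congr 2 <;> omega
      rw [h2, add_zero, Nat.add_sub_cancel_left] at h1
      have h3 := Check_par (E := E) hev (k + i)
      have h4 := G.hi (k + i) (by omega) (by omega)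
      obtain ⟨m, hm⟩ : ∃ m, u k = 2 * m + 1 := ⟨u k / 2, by omega⟩
      have h5 : u k * E i = 2 * (m * E i) + E i := by rw [hm]; ring
      omega
    have hmem : D i ∈ (if i < k then [0, 2, -2] else [1, -1] : List ℤ) := by
      split_ifs with h1
      · simpa using G.lo i h1
      · simpa using G.hi i (by omega) (by omega)
    unfold dead at h
    rw [List.all_eq_true] at h
    have h2 := h _ hmem
    have he : (D i - Sm i fun l => gt us (l + 1) * gt Es l) / 2 = E i := by omega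
    simp only [← hi', he, Bool.or_eq_true, Bool.and_eq_true, decide_eq_true_eq] at h2
    have hR : RR t D (i + 1) = t * (RR t D i + D i) := rfl
    have b1 : ((min (a * (lo + D i)) (b * (lo + D i)) : ℚ) : ℝ) ≤ RR t D (i + 1) := by
      rw [hR]; push_cast
      have h3 : t * (lo + D i) ≤ t * (RR t D i + D i) := by gcongr
      refine le_trans ?_ h3
      rcases le_total 0 ((lo : ℝ) + D i) with h4 | h4
      · exact (min_le_left _ _).trans (by gcongr)
      · exact (min_le_right _ _).trans (mul_le_mul_of_nonpos_right hb h4)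
    have b2 : RR t D (i + 1) ≤ ((max (a * (hi + D i)) (b * (hi + D i)) : ℚ) : ℝ) := by
      rw [hR]; push_cast
      have h3 : t * (RR t D i + D i) ≤ t * (hi + D i) := by gcongr
      refine h3.trans ?_
      rcases le_total 0 ((hi : ℝ) + D i) with h4 | h4
      · exact le_trans (by gcongr) (le_max_right _ _)
      · exact (mul_le_mul_of_nonpos_right ha h4).trans (le_max_left _ _)
    rcases h2 with ((h2 | h2) | ⟨h2, h3⟩) | h2
    · omega
    · omega
    · have h4 := abs_le.1 (G.bd (i + 1) h2 (by omega))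
      rcases h3 with h3 | h3
      · have : ((1 : ℚ) : ℝ) < _ := Rat.cast_lt.2 h3
        push_cast at this b1
        linarith [h4.2]
      · have : (_ : ℝ) < ((-1 : ℚ) : ℝ) := Rat.cast_lt.2 h3
        push_cast at this b2
        linarith [h4.1]
    · refine ih (E i :: Es) _ _ (by simp only [List.length_cons]; omega) (fun l hl' => ?_) b1 b2 h2
      simp only [List.length_cons, ← hi'] at hl' ⊢
      cases l with
      | zero => simp [gt]
      | succ l =>
        have : gt (E i :: Es) (l + 1) = gt Es l := by simp [gt]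
        rw [this, hE l (by omega)]
        congr 1; omega

lemma back_sound {t : ℝ} {u : ℕ → ℤ} (H : Data t u) {us : List ℤ} (hp : Pre u us) {k : ℕ}
    (hk : k < us.length) (hev : ∀ i, i < k → gt us i % 2 = 0) (hod : gt us k % 2 = 1) {a b : ℚ}
    (ha : (a : ℝ) ≤ t) (hb : t ≤ b) (ht : 0 ≤ t)
    (h : dead us k a b (us.length - k) [] 0 0 = true) : False := by
  obtain ⟨k', hk'⟩ := H.back
  obtain ⟨E, D, hD, G⟩ := hk' (us.length + k')
  have hev' : ∀ i, i < k → u i % 2 = 0 := fun i hi => by rw [hp i (by omega)]; exact hev i hi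
  have hod' : u k % 2 = 1 := by rw [hp k hk]; exact hod
  have hE : E 0 % 2 = 1 := by
    have h1 := hD 0
    simp only [zero_add, range_one, sum_singleton, H.u0, Nat.sub_self] at h1
    rcases G.d0 with h2 | h2 <;> omega
  have hkk : k' = k := by
    rcases lt_trichotomy k' k with h1 | h1 | h1
    · have h2 := Check_par (E := E) (k := k' + 1) (fun i hi => hev' i (by omega)) k'
      rw [← hD] at h2
      rcases G.hi k' le_rfl (by omega) with h3 | h3 <;> omega
    · exact h1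
    · have h2 := Check_par (E := E) hev' k
      have h3 := hD k
      rw [sum_range_succ, Nat.sub_self] at h3
      obtain ⟨m, hm⟩ : ∃ m, u k = 2 * m + 1 := ⟨u k / 2, by omega⟩
      have h5 : u k * E 0 = 2 * (m * E 0) + E 0 := by rw [hm]; ring
      rcases G.lo k h1 with h4 | h4 | h4 <;> omega
  subst hkk
  exact dead_sound H.u0 hp hD G (Nat.le_add_right _ _) hev' hod' ha hb ht _ [] 0 0
    (by simp only [List.length_nil]; omega) (fun l hl => by simp at hl) (by simp [RR])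
    (by simp [RR]) h

/-- The terminal polynomials, lowest coefficient first. -/
def mem : List (List ℤ) :=
  [[2, -1], [2, 0, -1], [2, 2, 0, -1], [2, 0, 1, -1], [2, -2, 2, -1], [2, -2, 0, 2, -1],
    [2, 0, -1, 1, 1, -1], [2, -2, 1, 0, -1, 2, -1]]

/-- Certificates. -/
inductive Tr : Type
  | back (k : ℕ) : Tr
  | en (W : List ℤ) (c : ℚ) : Tr
  | term (f : List ℤ) : Tr
  | phi : Tr
  | split (c : ℚ) (l r : Tr) : Tr
  | lb (W : List ℤ) (v : ℤ) (s : Tr) : Tr
  | step (l r : Tr) : Tr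
  | ub (W : List ℤ) : Tr

/-- The checker. -/
def chk : Tr → List ℤ → ℚ → ℚ → Option ℤ → Bool
  | .back k, us, a, b, _ => decide (k < us.length) && decide (∀ i, i < k → gt us i % 2 = 0) &&
      decide (gt us k % 2 = 1) && dead us k a b (us.length - k) [] 0 0
  | .en W c, us, a, b, _ => decide (W.length ≤ us.length) && decide (0 ≤ c) &&
      decide (-(q2 us W : ℚ) * (b - a) ^ 2 ≤ 4 * c) &&
      decide ((q0 us W : ℚ) + q1 us W * a + q2 us W * a ^ 2 + c < 0) &&
      decide ((q0 us W : ℚ) + q1 us W * b + q2 us W * b ^ 2 + c < 0)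
  | .term f, us, _, _, _ => decide (f ∈ mem) && decide (f.length ≤ us.length) &&
      decide (∀ r, r < us.length → cv us (f.reverse.map fun z => -z) r = gt f r) &&
      decide (gap us (f.reverse.map fun z => -z) = 0)
  | .phi, us, a, b, _ => decide (14 ≤ us.length) && decide (gt us 1 = 2) && decide (gt us 2 = 3) &&
      decide (∀ n : ℕ, n < 11 → gt us (n + 1 + 2) = gt us (n + 1 + 1) + gt us (n + 1)) &&
      decide (59 / 100 ≤ a) && decide (b ≤ 1)
  | .split c l r, us, a, b, o => chk l us a c o && chk r us c b o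
  | .lb W v s, us, a, b, _ => decide (W.length ≤ us.length) && decide (0 < gt W 0) &&
      decide ((v - 1) * gt W 0 + cv us W us.length < 0) &&
      decide (3 * gap us W < ((v - 1) * gt W 0 + cv us W us.length) ^ 2) && chk s us a b (some v)
  | .step _ _, _, _, _, none => false
  | .step l r, us, a, b, some v => chk l (us ++ [v]) a b none && chk r us a b (some (v + 1))
  | .ub _, _, _, _, none => false
  | .ub W, us, _, _, some v => decide (W.length ≤ us.length) && decide (0 < gt W 0) &&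
      decide (0 < v * gt W 0 + cv us W us.length) &&
      decide (3 * gap us W < (v * gt W 0 + cv us W us.length) ^ 2)

theorem chk_sound {t : ℝ} {u : ℕ → ℤ} (H : Data t u) (ht : 0 ≤ t) (T : Tr) :
    ∀ (us : List ℤ) (a b : ℚ) (o : Option ℤ), chk T us a b o = true → Pre u us → (a : ℝ) ≤ t →
      t ≤ b → (∀ v, o = some v → v ≤ u us.length) →
      ∃ f ∈ mem, ∑ i ∈ range f.length, (gt f i : ℝ) * t⁻¹ ^ i = 0 := by
  induction T with
  | back k =>
    intro us a b o h hp ha hb _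
    simp only [chk, Bool.and_eq_true, decide_eq_true_eq] at h
    exact (back_sound H hp h.1.1.1 h.1.1.2 h.1.2 ha hb ht h.2).elim
  | en W c =>
    intro us a b o h hp ha hb _
    simp only [chk, Bool.and_eq_true, decide_eq_true_eq] at h
    obtain ⟨⟨⟨⟨h1, h2⟩, h3⟩, h4⟩, h5⟩ := h
    have := quad_neg (A := q0 us W) (B := q1 us W) (Q := q2 us W) (c := c) ha hb
      (by exact_mod_cast h2) (by exact_mod_cast h3) (by exact_mod_cast h4) (by exact_mod_cast h5)
    exact absurd (quad_nonneg H hp W h1) (not_le.2 this)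
  | term f =>
    intro us a b o h hp _ _ _
    simp only [chk, Bool.and_eq_true, decide_eq_true_eq] at h
    obtain ⟨⟨⟨h1, h2⟩, h3⟩, h4⟩ := h
    exact ⟨f, h1, term_sound H hp f _ h2 (by simpa using h2) h3 h4⟩
  | phi =>
    intro us a b o h hp ha hb _
    simp only [chk, Bool.and_eq_true, decide_eq_true_eq] at h
    obtain ⟨⟨⟨⟨⟨h1, h2⟩, h3⟩, h4⟩, h5⟩, h6⟩ := h
    have e1 : u 1 = 2 := by rw [hp 1 (by omega), h2]
    have e2 : u 2 = 3 := by rw [hp 2 (by omega), h3]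
    rcases H.phiA e1 e2 (fun n hn hn' => by
      obtain ⟨n, rfl⟩ : ∃ m, n = m + 1 := ⟨n - 1, by omega⟩
      rw [hp _ (by omega), hp _ (by omega), hp _ (by omega), h4 n (by omega)]) with h7 | h7
    · refine ⟨[2, 0, -1], by simp [mem], ?_⟩
      simp [sum_range_succ, gt] at h7 ⊢
      linarith
    · obtain ⟨M, hM, g1, g2, g3⟩ := h7
      have a1 : ((59 / 100 : ℚ) : ℝ) ≤ a := Rat.cast_le.2 h5
      have a2 : (b : ℝ) ≤ ((1 : ℚ) : ℝ) := Rat.cast_le.2 h6
      push_cast at a1 a2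
      exact (H.phiB e1 e2 hM g1 g2 g3 (a1.trans ha) (hb.trans a2)).elim
  | split c l r ih1 ih2 =>
    intro us a b o h hp ha hb ho
    simp only [chk, Bool.and_eq_true] at h
    rcases le_total t c with h1 | h1
    · exact ih1 us a c o h.1 hp ha h1 ho
    · exact ih2 us c b o h.2 hp h1 hb ho
  | lb W v s ih =>
    intro us a b o h hp ha hb _
    simp only [chk, Bool.and_eq_true, decide_eq_true_eq] at h
    obtain ⟨⟨⟨⟨h1, h2⟩, h3⟩, h4⟩, h5⟩ := h
    refine ih us a b _ h5 hp ha hb fun w hw => ?_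
    obtain rfl : v = w := Option.some.inj hw
    have h6 := next_bound H hp W h1
    by_contra hn
    have h7 : u us.length * gt W 0 ≤ (v - 1) * gt W 0 :=
      mul_le_mul_of_nonneg_right (by omega) h2.le
    nlinarith
  | step l r ih1 ih2 =>
    intro us a b o h hp ha hb ho
    cases o with
    | none => simp [chk] at h
    | some v =>
      simp only [chk, Bool.and_eq_true] at h
      rcases (ho v rfl).eq_or_lt with h1 | h1
      · exact ih1 _ a b none h.1 (hp.snoc h1.symm) ha hb (fun w hw => by simp at hw)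
      · refine ih2 us a b _ h.2 hp ha hb fun w hw => ?_
        obtain rfl : v + 1 = w := Option.some.inj hw
        omega
  | ub W =>
    intro us a b o h hp ha hb ho
    cases o with
    | none => simp [chk] at h
    | some v =>
      simp only [chk, Bool.and_eq_true, decide_eq_true_eq] at h
      obtain ⟨⟨⟨h1, h2⟩, h3⟩, h4⟩ := h
      have h6 := next_bound H hp W h1
      have h7 : v * gt W 0 ≤ u us.length * gt W 0 := mul_le_mul_of_nonneg_right (ho v rfl) h2.le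
      exfalso
      nlinarith

end Pool.Agent.MP_994d64_an.Ex

end

section

namespace Pool.Agent.MP_994d64_an.Ex

/-- Part of the certificate. -/
def tr0 : Tr :=
  (.lb [6, -8, 1, -7, 2, -5, 4, -4, 6, -3] 143 (.step (.lb [2, 1, -4, -2, -3, -1, -2, 0, -1, 1, 2] 231 (.step (.back 2)
  (.ub [2, -9, 8, -2, 7, -3, 6, -4, 5, -5, 6])))
  (.step (.lb [12, -13, -4, -8, -4, -2, -3, 3, -2, 8, -2] 232 (.step (.lb [128, 9, -183, -146, -119, -101, -55, -55, 9, -9, 73, 165] 375 (.step (.back 2)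
  (.ub [64, -151, 73, -18, 41, -5, 9, 9, -23, 23, -55, 101])))
  (.step (.lb [32, -41, 3, -35, 12, -29, 20, -23, 29, -17, 38, -12] 376 (.step (.lb [2, 2, -5, -2, -4, -1, -3, 0, -2, 1, -1, 2, 2] 608 (.step (.back 2)
  (.ub [2, -10, 9, -2, 8, -3, 7, -4, 6, -5, 5, -6, 6])))
  (.step (.lb [24, -25, -8, -16, -7, -7, -6, 2, -5, 11, -3, 21, -2] 609 (.step (.lb [32, 11, -53, -38, -37, -28, -21, -18, -5, -8, 11, 2, 27, 44] 985 (.step (.back 2)
  (.ub [32, -83, 45, -10, 29, -4, 13, 2, -3, 8, -19, 14, -35, 52])))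
  (.step (.split (59/100) (.split (589/1000) (.en [2, 3, 4] 0)
  (.en [1, 94, 120, 181] 0))
  .phi)
  (.step (.lb [1, -1, 0, -1, 0, -1, 0, -1, 0, -1, 0, -1, 0, -2] 989 (.step (.back 2)
  (.ub [1, -1, 0, -1, 0, -1, 0, -1, 0, -1, 0, -1, 0, -2])))
  (.ub [8, -8, 1, -9, 1, -10, 1, -11, 1, -12, 0, -13, 0])))))
  (.step (.lb [64, -241, 143, 0, 113, 34, 84, 69, 54, 103, 25, 138, -69] 612 (.step (.back 2)
  (.ub [4, 15, -17, -8, -15, -10, -13, -12, -11, -14, -10, -17, -12])))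
  (.ub [8, -6, -3, -5, -5, -4, -7, -3, -8, -3, -10, -2])))))
  (.step (.lb [1, -1, 0, -1, 0, -1, 0, -1, 0, -1, 0, -2] 379 (.step (.back 2)
  (.ub [1, -1, 0, -1, 0, -1, 0, -1, 0, -1, 0, -2])))
  (.ub [6, -6, 1, -7, 1, -8, 0, -8, 0, -9, 0])))))
  (.step (.lb [4, -13, 7, 0, 5, 2, 3, 4, 1, 7, -4] 235 (.step (.back 2)
  (.ub [4, 13, -15, -8, -13, -10, -11, -12, -9, -15, -12])))
  (.ub [8, -6, -3, -5, -5, -4, -7, -3, -10, -2])))))

/-- Part of the certificate. -/
def tr1 : Tr :=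
  (.lb [2, -3, 0, -2, 1, -1] 20 (.step (.split (311/500) (.en [3, 1, 2, 1, 2, 1, 5] 0)
  (.lb [1, 1, -3, -1, -2, 0, 0] 31 (.step (.split (159/250) (.en [12, 10, 0, -6, -11, -14, -6, 13] 0)
  (.lb [3, 8, -5, -18, -10, -10, 2, 12] 49 (.step (.split (641/1000) (.en [8, 11, 5, -9, -14, -20, -14, 0, 14] 0)
  (.split (129/200) (.split (321/500) (.lb [1, 0, -1, -2, -1, -1, 1, 2, 2] 77 (.step (.lb [1, 0, -1, -2, -1, -1, 1, 2, 2, 0] 120 (.step (.lb [1, 0, -1, -2, -1, -1, 1, 2, 2, 0, 0] 187 (.step (.lb [1, 0, -1, -2, -1, -1, 1, 2, 2, 0, 0, 0] 292 (.step (.lb [1, 0, -1, -2, -1, -1, 1, 2, 2, 0, 0, 0, 0] 456 (.step (.lb [1, 0, -1, -2, -1, -1, 1, 2, 2, 0, 0, 0, 0, 0] 712 (.step (.lb [1, 0, -1, -2, -1, -1, 1, 2, 2, 0, 0, 0, 0, 0, 0] 1110 (.step (.back 2)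
  (.ub [1, 0, -1, -2, -1, -1, 1, 2, 2, 0, 0, 0, 0, 0, 0])))
  (.ub [1, 0, -1, -2, -1, -1, 1, 2, 2, 0, 0, 0, 0, 0])))
  (.ub [1, 0, -1, -2, -1, -1, 1, 2, 2, 0, 0, 0, 0])))
  (.ub [1, 0, -1, -2, -1, -1, 1, 2, 2, 0, 0, 0])))
  (.ub [1, 0, -1, -2, -1, -1, 1, 2, 2, 0, 0])))
  (.ub [1, 0, -1, -2, -1, -1, 1, 2, 2, 0])))
  (.ub [1, 0, -1, -2, -1, -1, 1, 2, 2])))
  (.en [3, 8, 7, 5, 0, -6, -11] 0))
  (.en [4, 4, 4, 1, -1, -6] 0)))
  (.ub [3, -8, -1, 6, 4, 4, 4, 0]))))
  (.step (.back 2)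
  (.ub [2, -7, 6, -2, 5, -3, 6])))))
  (.step (.lb [3, -3, -2, -2, -1, 0, -1] 33 (.step (.lb [4, 1, -7, -6, -3, -3, 1, 3] 52 (.step (.lb [2, -1, -2, -2, -1, -1, 0, 2, 4] 84 (.ub [2, -1, -2, -2, -1, -1, 0, 2, 4]))
  (.step (.back 2)
  (.ub [8, -15, 5, -2, 1, 1, -3, 11]))))
  (.step (.lb [3, -4, 0, -3, 1, -2, 3, -2] 54 (.step (.lb [2, 0, -3, -2, -2, -1, -1, 0, 2] 87 (.step (.back 2)
  (.ub [2, -8, 7, -2, 6, -3, 5, -4, 6])))
  (.step (.lb [2, -2, -1, -1, -1, 0, -1, 1, 0] 88 (.step (.lb [24, -5, -29, -26, -17, -16, -5, -6, 7, 28] 142 (.step (.back 2)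
  (.ub [8, -17, 7, -2, 3, 0, -1, 2, -5, 12])))
  (.step tr0
  (.step (.lb [1, -1, 0, -1, 0, -1, 0, -1, 0, -2] 146 (.step (.back 2)
  (.ub [1, -1, 0, -1, 0, -1, 0, -1, 0, -2])))
  (.ub [1, -1, 0, -1, 0, -1, 0, -1, 0])))))
  (.step (.lb [4, -11, 5, 0, 3, 2, 1, 4, -4] 91 (.step (.back 2)
  (.ub [4, 11, -13, -8, -11, -10, -9, -12, -12])))
  (.ub [4, -3, -2, -2, -3, -2, -4, -1])))))
  (.step (.split (123/200) (.split (3/5) (.en [2, 4, 5, 6] 0)
  (.split (611/1000) (.en [2, 5, 6, 8, 9, 11] 0)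
  (.split (307/500) (.en [2, 4, 5, 6, 7, 7, 8] 0)
  (.lb [1, -1, 0, -1, 0, -1, 0, -2] 57 (.step (.back 2)
  (.ub [1, -1, 0, -1, 0, -1, 0, -2]))))))
  (.en [4, 1, 2, 0, 1, -1, 0, -6] 0))
  (.ub [1, -1, 0, -1, 0, -1, 0])))))
  (.step (.split (617/1000) (.split (3/5) (.en [2, 4, 5, 6] 0)
  (.split (76/125) (.en [6, 9, 13, 14, 18] 0)
  (.split (611/1000) (.en [2, 5, 7, 9, 9, 11] 0)
  (.lb [3, -7, 2, 0, 1, 2, -3] 36 (.step (.back 2)
  (.ub [3, 7, -8, -6, -7, -8, -9]))))))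
  (.en [2, 1, 1, 1, 0, 0, -3] 0))
  (.ub [2, -1, -1, -1, -2, -1])))))

/-- Part of the certificate. -/
def tr2 : Tr :=
  (.lb [2, -3, 0, -2] 7 (.step (.split (631/1000) (.en [3, 1, 2, 0, 4] 0)
  (.lb [1, 0, -2, -1, 0] 10 (.step (.split (329/500) (.en [6, 5, 0, -4, -1, 8] 0)
  (.lb [3, -2, 1, -10, 3, -2] 14 (.step (.en [3, 2, 2, -5, -3, -3, 5] 0)
  (.step (.lb [1, -2, 1, 0, 0, 0, -2] 21 (.step (.back 2)
  (.step (.split (669/1000) (.split (167/250) (.en [16, 21, 10, -17, -14, 6, 28] 0)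
  (.lb [1, -1, -1, -1, 2, 1, 0, -2] 32 (.step (.lb [1, -1, -1, -1, 2, 1, 0, -2, 0] 48 (.step (.back 2)
  (.ub [1, -1, -1, -1, 2, 1, 0, -2, 0])))
  (.ub [1, -1, -1, -1, 2, 1, 0, -2]))))
  (.en [16, 2, -12, -26, 6, 19, 19, -11] 0))
  (.ub [2, -1, -4, -3, 6, 3, 2]))))
  (.ub [2, -3, -2, 2, 3, 2])))))
  (.step (.back 2)
  (.ub [1, -3, 2, -1, 3])))))
  (.step (.lb [3, -4, -2, -1, -1] 12 (.step (.lb [2, -1, -3, -2, -1, 1] 18 (.step (.split (643/1000) (.en [12, 11, 2, -6, -9, -3, 18] 0)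
  (.split (169/250) (.lb [2, 1, -3, -5, -3, 1, 4] 28 (.step (.split (653/1000) (.en [6, 10, 4, -5, -12, -10, 0, 10] 0)
  (.lb [4, -5, 6, -6, -10, -6, 2, 2] 42 (.step (.split (669/1000) (.en [12, 2, 5, -6, -17, -17, -6, -7, 14] 0)
  (.split (673/1000) (.split (67/100) (.lb [1, -1, 0, -1, -1, 0, 1, 0, 2] 63 (.step (.lb [1, -1, 0, -1, -1, 0, 1, 0, 2, 0] 95 (.step (.back 2)
  (.ub [1, -1, 0, -1, -1, 0, 1, 0, 2, 0])))
  (.ub [1, -1, 0, -1, -1, 0, 1, 0, 2])))
  (.en [4, 6, 9, 8, 1, -7, -11, -15] 0))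
  (.en [3, 9, 11, 7, -3, -12, -16] 0)))
  (.step (.back 2)
  (.ub [2, -1, -6, 0, 4, 6, 4, -2])))))
  (.ub [3, -6, -1, 2, 4, 4, 2])))
  (.en [4, 7, 6, 1, -6, -11] 0)))
  (.step (.back 2)
  (.ub [3, -5, 1, 0, -1, 4]))))
  (.step (.split (647/1000) tr1
  (.en [2, 2, 2, 0, -1, -4] 0))
  (.step (.split (611/1000) (.split (607/1000) (.en [1, 2, 3, 3, 4] 0)
  (.split (609/1000) (.split (76/125) (.en [2, 3, 4, 4, 5] 0)
  (.lb [1, -1, 0, -1, 0, -2] 23 (.step (.back 2)
  (.ub [1, -1, 0, -1, 0, -2]))))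
  (.en [4, 1, 2, -1, 1, -5] 0)))
  (.en [4, 1, 2, 0, 1, -6] 0))
  (.ub [1, -1, 0, -1, 0])))))
  (.step (.split (617/1000) (.split (3/5) (.en [2, 4, 5, 6] 0)
  (.lb [4, -7, 1, 0, -5] 15 (.step (.back 2)
  (.ub [1, 2, -2, -2, -3]))))
  (.en [4, 3, 2, 1, -5] 0))
  (.ub [2, -1, -1, -1])))))

/-- Part of the certificate. -/
def tr3 : Tr :=
  (.lb [1, -2] 1 (.step (.en [1, 0, 2] 0)
  (.step (.split (323/500) (.en [8, 2, 13] 0)
  (.lb [1, -1, -1] 1 (.step (.en [1, 2, 0, 3] 0)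
  (.step (.split (17/25) (.en [6, 6, 5, 14] 0)
  (.lb [1, -2, 3, -3] 1 (.step (.en [1, 2, 3, 1, 6] 0)
  (.step (.en [2, 2, 4, 2, 7] 0)
  (.step (.split (689/1000) (.en [12, 16, 19, 25, 36] 0)
  (.lb [3, -7, 4, 2, -8] 5 (.step (.split (349/500) (.en [8, 4, 11, 16, 11, 20] 0)
  (.lb [2, -3, -1, 3, -2, -3] 7 (.step (.en [2, 2, 1, 5, 5, 3, 7] 0)
  (.step (.lb [3, -8, 9, -6, -2, 8, -10] 12 (.step (.split (7/10) (.split (699/1000) (.en [4, 14, 9, 24, 29, 23, 35] 0)
  (.lb [1, -1, 0, 1, -2, 0, 0, -2] 17 (.step (.lb [1, -1, 0, 1, -2, 0, 0, -2, 0] 23 (.step (.back 4)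
  (.ub [1, -1, 0, 1, -2, 0, 0, -2, 0])))
  (.ub [1, -1, 0, 1, -2, 0, 0, -2]))))
  (.en [6, 1, 1, 9, -2, 0, 3, -8] 0))
  (.ub [1, 1, -3, 4, -3, -3, 3])))
  (.ub [1, -2, 2, -1, -2, 3])))))
  (.step (.split (69/100) (.lb [1, -1, 0, 0, 0, -2] 10 (.step (.lb [1, -1, 0, 0, 0, -2, 0] 14 (.step (.lb [1, -1, 0, 0, 0, -2, 0, 0] 18 (.step (.back 4)
  (.ub [1, -1, 0, 0, 0, -2, 0, 0])))
  (.ub [1, -1, 0, 0, 0, -2, 0])))
  (.ub [1, -1, 0, 0, 0, -2])))
  (.en [3, 0, 1, 1, 2, -3] 0))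
  (.ub [1, 0, -1, 0, 1])))))
  (.ub [1, -1, 0, 1]))))))
  (.step (.term [2, -2, 2, -1])
  (.ub [1, -2, 3]))))))
  (.step (.split (587/1000) (.en [4, 7, 11] 0)
  (.lb [1, -2, -1] 3 (.step (.en [2, 0, -1, 3] 0)
  (.step (.split (5/8) (.en [3, 2, 2, 5] 0)
  (.lb [1, -1, -1, 0] 4 (.step (.en [1, 1, 0, 0, 2] 0)
  (.step (.back 2)
  (.step (.lb [4, -7, 2, 1, -6] 8 (.step (.split (667/1000) (.en [6, 1, 3, 4, 0, 9] 0)
  (.lb [2, -1, -4, 3, -2, -2] 10 (.step (.en [1, 1, -1, 1, 0, -1, 3] 0)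
  (.step (.back 2)
  (.step (.term [2, -2, 1, 0, -1, 2, -1])
  (.ub [2, -5, 4, -1, -2, 6]))))))
  (.step (.lb [4, -6, -2, 7, -5, -5] 13 (.step (.lb [3, 0, -8, 2, 5, -8, -2] 18 (.step (.split (653/1000) (.en [1, 2, 2, 3, 2, 2, 5] 0)
  (.en [6, 3, -6, 0, 4, -7, -5, 7] 0))
  (.step (.lb [4, -9, 7, 0, -10, 8, 3, -12] 27 (.step (.back 2)
  (.ub [6, -7, -9, 14, -2, -14, 13, 4])))
  (.ub [3, -7, 3, 5, -8, 2, 8]))))
  (.step (.back 2)
  (.step (.split (647/1000) (.split (639/1000) (.en [4, 5, 3, 5, 9] 0)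
  (.split (129/200) (.en [3, 6, 6, 5, 8, 12] 0)
  (.split (323/500) (.lb [2, -2, -1, 0, 0, 0, -4] 24 (.ub [2, -2, -1, 0, 0, 0, -4]))
  (.en [64, 6, -12, 2, 17, 35, -68] 0))))
  (.en [6, 1, -1, 0, 2, 3, -7] 0))
  (.ub [2, -2, -1, -1, 1, 1])))))
  (.step (.term [2, 0, -1, 1, 1, -1])
  (.ub [2, -2, -3, 2, 1])))))
  (.step (.back 2)
  (.ub [2, -3, 1, 3])))))))
  (.step tr2
  (.step (.term [2, 0, 1, -1])
  (.ub [1, -1, 0])))))))
  (.step (.lb [1, -3, -1] 6 (.step (.split (159/250) (.split (559/1000) (.en [4, 7] 0)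
  (.lb [1, 0, -4, 0] 11 (.step (.term [2, -2, 0, 2, -1])
  (.ub [1, -4, 4, 4]))))
  (.en [12, 35, 6, -33] 0))
  (.step (.term [2, 2, 0, -1])
  (.ub [1, 1, -3]))))
  (.ub [1, 0]))))))

/-- The certificate. -/
def cert : Tr := (.lb [1] (-3) (.step (.en [1, 6] 0)
  (.step (.en [1, 5] 0)
  (.step (.en [1, 4] 0)
  (.step (.split (353/500) (.en [1, 2] 0)
  (.split (707/1000) (.en [8, 17] 0)
  (.lb [1, 0] (-3) (.step (.en [1, 389, 826] 0)
  (.step (.en [1, 324, 688] 0)
  (.step (.en [1, 260, 550] 0)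
  (.step (.en [1, 195, 412] 0)
  (.step (.en [1, 130, 275] 0)
  (.step (.en [1, 66, 137] 0)
  (.step (.term [2, 0, -1])
  (.ub [1, 0])))))))))))
  (.step (.split (157/250) (.en [1, 2] 0)
  (.back 1))
  (.step tr3
  (.step (.term [2, -1])
  (.ub [1])))))))))

theorem cert_ok : chk cert [2] (1 / 2) (177 / 250) none = true := by decide +kernel

theorem Data.concl {t : ℝ} {u : ℕ → ℤ} (H : Data t u) (h1 : 1 / 2 ≤ t) (h2 : t ≤ 177 / 250) :
    ∃ f ∈ mem, ∑ i ∈ Finset.range f.length, (gt f i : ℝ) * t⁻¹ ^ i = 0 := by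
  refine chk_sound H (by linarith) cert [2] _ _ none cert_ok (fun i hi => ?_) (by push_cast; exact h1)
    (by push_cast; exact h2) (fun v hv => by simp at hv)
  obtain rfl : i = 0 := by simpa using hi
  exact H.u0

end Pool.Agent.MP_994d64_an.Ex

end

section

namespace Pool.Agent.MP_994d64_an.Ex

open Polynomial

theorem tent_sq {l : ℝ} {x : ℕ → ℝ} {e : ℕ → ℤ} (T : Tent l x e) (h : l ^ 2 ≤ 2) :
    ∃ x' e', Tent (l ^ 2) x' e' := by
  have h1 := T.one_lt
  have hl1 : 0 < l - 1 := by linarith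
  set y : ℕ → ℝ := fun n => -x (2 * n + 1) / (l - 1) with hy
  have habs : ∀ n, |x (2 * n + 1)| = (l - 1) * |y n| := by
    intro n
    rw [hy]
    simp only [abs_div, abs_neg, abs_of_pos hl1]
    field_simp
  have y0 : y 0 = 1 := by
    simp only [hy]
    rw [Conj_step T, T.x0, abs_one]
    field_simp
    ring
  have key : ∀ n, |y n| ≤ 1 → y (n + 1) = 1 - l ^ 2 * |y n| := by
    intro n hn
    have a1 : x (2 * n + 1 + 1) = 1 - l * ((l - 1) * |y n|) := by rw [Conj_step T, habs]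
    have a0 : 0 ≤ |y n| := abs_nonneg _
    have a2 : 0 ≤ x (2 * n + 1 + 1) := by
      rw [a1]
      have : l * (l - 1) * |y n| ≤ l * (l - 1) * 1 :=
        mul_le_mul_of_nonneg_left hn (by positivity)
      nlinarith
    have a3 : x (2 * (n + 1) + 1) = 1 - l * (1 - l * ((l - 1) * |y n|)) := by
      rw [show 2 * (n + 1) + 1 = 2 * n + 1 + 1 + 1 by ring, Conj_step T, abs_of_nonneg a2, a1]
    have a4 : y (n + 1) = -x (2 * (n + 1) + 1) / (l - 1) := rfl
    rw [a4, a3, div_eq_iff hl1.ne']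
    ring
  have bd : ∀ n, |y n| ≤ 1 := by
    intro n
    induction n with
    | zero => rw [y0, abs_one]
    | succ n ih =>
      rw [key n ih, abs_le]
      have a0 : 0 ≤ |y n| := abs_nonneg _
      have : l ^ 2 * |y n| ≤ 2 * 1 := mul_le_mul h ih a0 (by norm_num)
      have : 0 ≤ l ^ 2 * |y n| := by positivity
      constructor <;> linarith
  obtain ⟨n0, p, hp, hx, he⟩ := T.per
  have hxk : ∀ k, x (n0 + k + p) = x (n0 + k) := by
    intro k
    induction k with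
    | zero => simpa using hx
    | succ k ih =>
      rw [show n0 + (k + 1) + p = n0 + k + p + 1 by ring, show n0 + (k + 1) = n0 + k + 1 by ring,
        T.step, T.step, ih, he]
  refine ⟨y, fun n => -e (2 * n + 1), ⟨by nlinarith, h, y0, ?_, ?_, ?_, n0, p, hp, ?_, ?_⟩⟩
  · intro n
    rcases T.sign (2 * n + 1) with h' | h' <;> simp [h']
  · intro n
    rw [key n (bd n)]
    have a1 := Conj_a_abs T (2 * n + 1)
    rw [habs] at a1
    have a2 : x (2 * n + 1) = -((l - 1) * y n) := by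
      simp only [hy]
      field_simp
    rw [a2] at a1
    have a3 : |y n| = e (2 * n + 1) * y n := by
      apply mul_left_cancel₀ hl1.ne'
      linarith
    rw [a3]
    push_cast
    ring
  · intro n
    exact (le_abs_self _).trans (bd n)
  · simp only [hy]
    rw [show 2 * (n0 + p) + 1 = n0 + (n0 + 1 + p) + p by ring, hxk,
      show n0 + (n0 + 1 + p) = n0 + (n0 + 1) + p by ring, hxk,
      show n0 + (n0 + 1) = 2 * n0 + 1 by ring]
  · intro k
    show -e (2 * (n0 + k + p) + 1) = -e (2 * (n0 + k) + 1)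
    rw [show 2 * (n0 + k + p) + 1 = n0 + (n0 + 2 * k + 1 + p) + p by ring, he,
      show n0 + (n0 + 2 * k + 1 + p) = n0 + (n0 + 2 * k + 1) + p by ring, he,
      show n0 + (n0 + 2 * k + 1) = 2 * (n0 + k) + 1 by ring]

theorem conj_sq {l : ℝ} (hl : IsIntegral ℚ l)
    (hz : ∀ z : ℂ, aeval z (minpoly ℚ l) = 0 → 1 ≤ ‖z‖) (z : ℂ)
    (h : aeval z (minpoly ℚ (l ^ 2)) = 0) : 1 ≤ ‖z‖ := by
  have hm : l ∈ IntermediateField.adjoin ℚ ({l} : Set ℝ) :=
    IntermediateField.subset_adjoin ℚ _ (Set.mem_singleton l)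
  have hm2 : l ^ 2 ∈ IntermediateField.adjoin ℚ ({l} : Set ℝ) := pow_mem hm 2
  obtain ⟨φ, hφ⟩ := IntermediateField.exists_algHom_adjoin_of_splits_of_aeval
    (F := ℚ) (K := ℂ) (S := ({l} : Set ℝ))
    (fun s hs => by
      rw [Set.mem_singleton_iff.1 hs]
      exact ⟨hl, IsAlgClosed.splits _⟩) hm2 h
  have h1 : aeval (φ ⟨l, hm⟩) (minpoly ℚ l) = 0 := by
    rw [aeval_algHom_apply, map_eq_zero]
    apply Subtype.ext
    have := aeval_algHom_apply (IntermediateField.adjoin ℚ ({l} : Set ℝ)).val ⟨l, hm⟩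
      (minpoly ℚ l)
    exact this.symm.trans (minpoly.aeval ℚ l)
  have h2 : z = φ ⟨l, hm⟩ ^ 2 := by
    rw [← hφ, ← map_pow]
    rfl
  rw [h2, norm_pow]
  exact one_le_pow₀ (hz _ h1)

end Pool.Agent.MP_994d64_an.Ex

end

section

namespace Pool.Agent.MP_994d64_an.Ex

lemma Double_glue {α : Type} (a b : ℕ → α) :
    ∃ f : ℕ → α, (∀ n, f (2 * n) = a n) ∧ ∀ n, f (2 * n + 1) = b n := by
  refine ⟨fun m => if m % 2 = 0 then a (m / 2) else b (m / 2), fun n => ?_, fun n => ?_⟩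
  · have h1 : 2 * n % 2 = 0 := by omega
    have h2 : 2 * n / 2 = n := by omega
    simp only [h1, h2, if_true]
  · have h1 : ¬ (2 * n + 1) % 2 = 0 := by omega
    have h2 : (2 * n + 1) / 2 = n := by omega
    simp only [h1, h2, if_false]

lemma Double_cases (m : ℕ) : ∃ n, m = 2 * n ∨ m = 2 * n + 1 := ⟨m / 2, by omega⟩

theorem Good.sqrt {l : ℝ} {x : ℕ → ℝ} {e : ℕ → ℤ} (hl : 1 < l) (G : Good (l ^ 2) x e) :
    ∃ x' e', Good l x' e' := by
  have T := G.tent
  have hl0 : 0 < l := by linarith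
  have hl1 : 0 < l - 1 := by linarith
  have hl2 : l < 2 := by nlinarith [T.le_two]
  obtain ⟨y, ye, yo⟩ := Double_glue (fun n => 1 - (l - 1) * (1 - x n) / l) fun n => -(l - 1) * x n
  obtain ⟨d, de, dd⟩ := Double_glue (fun _ => (-1 : ℤ)) fun n => -e n
  have ke : ∀ n, KT d (2 * n) = KT e n := by
    intro n
    induction n with
    | zero => rfl
    | succ n ih =>
      show KT d (2 * n) * d (2 * n) * d (2 * n + 1) = KT e n * e n
      rw [ih, de, dd]
      ring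
  have ko : ∀ n, KT d (2 * n + 1) = -KT e n := by
    intro n
    show KT d (2 * n) * d (2 * n) = _
    rw [ke, de]
    ring
  have hlo : ∀ n, -1 ≤ x n := fun n => (abs_le.1 (Conj_abs_le T n)).1
  refine ⟨y, d, ⟨hl, hl2.le, ?_, fun m => ?_, fun m => ?_, fun m => ?_, ?_⟩, fun m => ?_, ?_,
    fun t h0 h1 => ?_⟩
  · have h := ye 0
    rw [T.x0] at h
    simpa using h
  · obtain ⟨n, rfl | rfl⟩ := Double_cases m
    · exact Or.inr (de n)
    · rw [dd]
      rcases T.sign n with h | h <;> simp [h]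
  · obtain ⟨n, rfl | rfl⟩ := Double_cases m
    · rw [yo, ye, de]
      push_cast
      field_simp
      ring
    · rw [show 2 * n + 1 + 1 = 2 * (n + 1) by ring, ye, yo, dd, T.step n]
      push_cast
      field_simp
      ring
  · obtain ⟨n, rfl | rfl⟩ := Double_cases m
    · rw [ye]
      have h := div_nonneg (mul_nonneg hl1.le (sub_nonneg.2 (T.le_one n))) hl0.le
      linarith
    · rw [yo]
      nlinarith [hlo n]
  · obtain ⟨n, p, hp, h1, h2⟩ := T.per
    refine ⟨2 * n, 2 * p, by omega, ?_, fun k => ?_⟩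
    · rw [← mul_add, ye, ye, h1]
    · obtain ⟨j, rfl | rfl⟩ := Double_cases k
      · rw [← mul_add, ← mul_add, de, de]
      · rw [show 2 * n + (2 * j + 1) + 2 * p = 2 * (n + j + p) + 1 by ring,
          show 2 * n + (2 * j + 1) = 2 * (n + j) + 1 by ring, dd, dd, h2]
  · obtain ⟨n, rfl | rfl⟩ := Double_cases m
    · rw [ye]
      have h : (l - 1) * (1 - x n) / l < 1 := by
        rw [div_lt_one hl0]
        nlinarith [hlo n]
      linarith
    · rw [yo]
      exact mul_ne_zero (neg_ne_zero.2 hl1.ne') (G.ne n)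
  · obtain ⟨n, p, hp, h1, h2⟩ := G.per
    refine ⟨2 * n, 2 * p, by omega, ?_, ?_⟩
    · rw [← mul_add, ye, ye, h1]
    · rw [← mul_add, ke, ke, h2]
  · have ht1 : t < 1 := h1.trans (inv_lt_one_of_one_lt₀ hl)
    have h2 : t ^ 2 < (l ^ 2)⁻¹ := by
      rw [← inv_pow]
      exact pow_lt_pow_left₀ h1 h0 two_ne_zero
    have h3 := G.pos _ (sq_nonneg t) h2
    have h4 : HasSum (fun n => (KT e n : ℝ) * (t ^ 2) ^ n) (KK e (t ^ 2)) :=
      (KK_summable T.sign (sq_nonneg t) (by nlinarith)).hasSum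
    have h5 : HasSum (fun n => (KT d n : ℝ) * t ^ n) (KK e (t ^ 2) + -t * KK e (t ^ 2)) := by
      refine HasSum.even_add_odd ?_ ?_
      · have h7 : (fun n => (KT d (2 * n) : ℝ) * t ^ (2 * n)) =
            fun n => (KT e n : ℝ) * (t ^ 2) ^ n := funext fun n => by rw [ke, pow_mul]
        exact h7 ▸ h4
      · have h7 : (fun n => (KT d (2 * n + 1) : ℝ) * t ^ (2 * n + 1)) =
            fun n => -t * ((KT e n : ℝ) * (t ^ 2) ^ n) := funext fun n => by
          rw [ko, pow_succ, pow_mul]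
          push_cast
          ring
        exact h7 ▸ h4.mul_left (-t)
    have h6 : KK d t = KK e (t ^ 2) + -t * KK e (t ^ 2) := h5.tsum_eq
    rw [h6]
    nlinarith

end Pool.Agent.MP_994d64_an.Ex

end

section

namespace Pool.Agent.MP_994d64_an.Ex

open Polynomial

/-- The seven numbers. -/
def Sev (m : ℝ) : Prop :=
  m = 2 ∨ m ^ 3 - 2 * m - 2 = 0 ∨ m ^ 3 - m ^ 2 - 2 = 0 ∨ m ^ 3 - 2 * m ^ 2 + 2 * m - 2 = 0 ∨
    m ^ 4 - 2 * m ^ 3 + 2 * m - 2 = 0 ∨ m ^ 5 - m ^ 4 - m ^ 3 + m ^ 2 - 2 = 0 ∨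
    m ^ 6 - 2 * m ^ 5 + m ^ 4 - m ^ 2 + 2 * m - 2 = 0

lemma Main_top {l : ℝ} {x : ℕ → ℝ} {e : ℕ → ℤ} (T : Tent l x e) (hl : 2 < l ^ 2)
    (hz : ∀ z : ℂ, aeval z (minpoly ℚ l) = 0 → 1 ≤ ‖z‖) : Sev l := by
  obtain ⟨u, H⟩ := data_of_tent T hz
  have h1 := T.one_lt
  have h2 := T.le_two
  have h3 : 250 / 177 ≤ l := by nlinarith
  obtain ⟨f, hf, h⟩ := H.concl (by rw [le_inv_comm₀ (by norm_num) (by linarith)]; linarith)
    (by rw [inv_le_comm₀ (by linarith) (by norm_num)]; linarith)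
  rw [inv_inv] at h
  simp only [mem, List.mem_cons, List.not_mem_nil, or_false] at hf
  unfold Sev
  rcases hf with rfl | rfl | rfl | rfl | rfl | rfl | rfl | rfl <;>
    simp [Finset.sum_range_succ, gt] at h
  · left; linarith
  · exfalso; linarith
  · right; left; linarith
  · right; right; left; linarith
  · right; right; right; left; linarith
  · right; right; right; right; left; linarith
  · right; right; right; right; right; left; linarith
  · right; right; right; right; right; right; linarith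

lemma Main_ind (n : ℕ) : ∀ {l : ℝ} {x : ℕ → ℝ} {e : ℕ → ℤ}, Tent l x e →
    (∀ z : ℂ, aeval z (minpoly ℚ l) = 0 → 1 ≤ ‖z‖) → 2 < l ^ 2 ^ (n + 1) →
    ∃ j : ℕ, Sev (l ^ 2 ^ j) := by
  induction n with
  | zero => intro l x e T hz h; exact ⟨0, by simpa using Main_top T (by simpa using h) hz⟩
  | succ n ih =>
    intro l x e T hz h
    rcases lt_or_ge 2 (l ^ 2) with h1 | h1
    · exact ⟨0, by simpa using Main_top T h1 hz⟩
    · obtain ⟨x', e', T'⟩ := tent_sq T h1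
      obtain ⟨j, hj⟩ := ih T' (conj_sq T.isIntegral.tower_top hz)
        (by rwa [← pow_mul, ← pow_succ'])
      exact ⟨j + 1, by rwa [← pow_mul, ← pow_succ'] at hj⟩

theorem sev_of_tent {l : ℝ} {x : ℕ → ℝ} {e : ℕ → ℤ} (T : Tent l x e)
    (hz : ∀ z : ℂ, aeval z (minpoly ℚ l) = 0 → 1 ≤ ‖z‖) : ∃ j : ℕ, Sev (l ^ 2 ^ j) := by
  obtain ⟨n, hn⟩ := pow_unbounded_of_one_lt 2 T.one_lt
  refine Main_ind n T hz (hn.trans_le (pow_le_pow_right₀ T.one_lt.le ?_))
  exact (Nat.le_succ n).trans Nat.lt_two_pow_self.le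

lemma Main_good (j : ℕ) {l : ℝ} (h1 : 1 < l) (h : ∃ x e, Good (l ^ 2 ^ j) x e) :
    ∃ x e, Good l x e := by
  induction j with
  | zero => simpa using h
  | succ j ih =>
    obtain ⟨x, e, G⟩ := h
    rw [pow_succ, pow_mul] at G
    exact ih (G.sqrt (one_lt_pow₀ h1 (by positivity)))

theorem real_of_sev {l : ℝ} (h1 : 1 < l) {j : ℕ} (h : Sev (l ^ 2 ^ j)) :
    ∃ c, PCF c ∧ Real.exp (ent c).toReal = l := by
  have key : ∀ i : ℕ, (∃ x e, Good (l ^ 2 ^ i) x e) → ∃ c, PCF c ∧ Real.exp (ent c).toReal = l :=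
    fun i hi => by
      obtain ⟨x, e, G⟩ := Main_good i h1 hi
      exact G.realize
  have hm : ∀ i : ℕ, 1 < l ^ 2 ^ i := fun i => one_lt_pow₀ h1 (by positivity)
  rcases h with h | h | h | h | h | h | h
  · cases j with
    | zero =>
      obtain ⟨c, hc, hD⟩ := ex_two
      have h2 : l = (1 / 2)⁻¹ := by simpa using h
      refine ⟨c, hc, (exp_ent hc (by norm_num) (by norm_num) (fun t h0 h1 => ?_)
        fun h => ?_).trans h2.symm⟩
      · rw [hD t h0 (by linarith)]; exact div_pos (by linarith) (by linarith)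
      · rw [hD _ (by norm_num) h]; norm_num
    | succ j => exact key j (base0 (hm j) (by rwa [pow_succ, pow_mul] at h))
  · exact key j (base1 (hm j) h)
  · exact key j (base2 (hm j) h)
  · exact key j (base3 (hm j) h)
  · exact key j (base4 (hm j) h)
  · exact key j (base5 (hm j) h)
  · exact key j (base6 (hm j) h)

theorem out_of_sev {l : ℝ} {j : ℕ} (h : Sev (l ^ 2 ^ j)) (z : ℂ)
    (hz : aeval z (minpoly ℚ l) = 0) : 1 ≤ ‖z‖ := by
  have key : 1 ≤ ‖z ^ 2 ^ j‖ → 1 ≤ ‖z‖ := fun h1 => by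
    rw [norm_pow] at h1
    by_contra hn
    exact absurd (pow_lt_one₀ (norm_nonneg z) (not_le.1 hn) (by positivity)) (not_lt.2 h1)
  refine key ?_
  have tr : ∀ q : ℤ[X], aeval (l ^ 2 ^ j) q = 0 → aeval (z ^ 2 ^ j) q = 0 := fun q hq => by
    have := Conj_root hz (q := q.comp (X ^ 2 ^ j)) (by rw [aeval_comp]; simpa using hq)
    rw [aeval_comp] at this
    simpa using this
  generalize l ^ 2 ^ j = m at h tr
  generalize z ^ 2 ^ j = w at tr
  rcases h with h | h | h | h | h | h | h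
  · have := tr (X - 2) (by simp [h, map_ofNat])
    simp only [map_sub, aeval_X, map_ofNat, sub_eq_zero] at this
    rw [this]; simp
  · have := tr (X ^ 3 - 2 * X - 2)
      (by simpa only [map_sub, map_add, map_mul, map_pow, aeval_X, map_ofNat] using h)
    simp only [map_sub, map_add, map_mul, map_pow, aeval_X, map_ofNat] at this
    exact out1 this
  · have := tr (X ^ 3 - X ^ 2 - 2)
      (by simpa only [map_sub, map_add, map_mul, map_pow, aeval_X, map_ofNat] using h)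
    simp only [map_sub, map_add, map_mul, map_pow, aeval_X, map_ofNat] at this
    exact out2 this
  · have := tr (X ^ 3 - 2 * X ^ 2 + 2 * X - 2)
      (by simpa only [map_sub, map_add, map_mul, map_pow, aeval_X, map_ofNat] using h)
    simp only [map_sub, map_add, map_mul, map_pow, aeval_X, map_ofNat] at this
    exact out3 this
  · have := tr (X ^ 4 - 2 * X ^ 3 + 2 * X - 2)
      (by simpa only [map_sub, map_add, map_mul, map_pow, aeval_X, map_ofNat] using h)
    simp only [map_sub, map_add, map_mul, map_pow, aeval_X, map_ofNat] at this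
    exact out4 this
  · have := tr (X ^ 5 - X ^ 4 - X ^ 3 + X ^ 2 - 2)
      (by simpa only [map_sub, map_add, map_mul, map_pow, aeval_X, map_ofNat] using h)
    simp only [map_sub, map_add, map_mul, map_pow, aeval_X, map_ofNat] at this
    exact out5 this
  · have := tr (X ^ 6 - 2 * X ^ 5 + X ^ 4 - X ^ 2 + 2 * X - 2)
      (by simpa only [map_sub, map_add, map_mul, map_pow, aeval_X, map_ofNat] using h)
    simp only [map_sub, map_add, map_mul, map_pow, aeval_X, map_ofNat] at this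
    exact out6 this

end Pool.Agent.MP_994d64_an.Ex

end
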