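import Pool.Agent.Mg.F994d64ap.G499516

set_option linter.all false

section

namespace Pool.Agent.MP_994d64_an.Ex

open Finset PowerSeries

lemma Bound_coeff (φ : ℝ⟦X⟧) (w : ℝ) (j n : ℕ) (hn : n ≤ j) :
    coeff n (φ * (C w * X ^ j)) = if n = j then coeff 0 φ * w else 0 := by
  rw [← mul_assoc, coeff_mul_X_pow']
  split_ifs with h1 h2 h2
  · subst h2; simp
  · omega
  · omega
  · rfl

theorem Data.bound {t : ℝ} {u : ℕ → ℤ} (H : Data t u) (W : ℝ⟦X⟧) (j : ℕ) (hW : coeff j W = 0) :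
    coeff j (GS u * W) ^ 2 ≤ 3 * (En j (GS u * W) - En j W) := by
  set z := coeff j (GS u * W) with hz
  have h := H.e0 (W + C (-2 * z / 3) * X ^ j) (j + 1)
  have h0 : coeff 0 (GS u) = 2 := by simp [GS, H.u0]
  have e1 : En (j + 1) (W + C (-2 * z / 3) * X ^ j) = En j W + (-2 * z / 3) ^ 2 := by
    unfold En
    rw [sum_range_succ]
    congr 1
    · refine sum_congr rfl fun n hn => ?_
      have := mem_range.1 hn
      rw [map_add, coeff_C_mul, coeff_X_pow, if_neg (by omega)]; simp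
    · rw [map_add, coeff_C_mul, coeff_X_pow, hW]; simp
  have e2 : En (j + 1) (GS u * (W + C (-2 * z / 3) * X ^ j)) =
      En j (GS u * W) + (z + 2 * (-2 * z / 3)) ^ 2 := by
    unfold En
    rw [sum_range_succ, mul_add]
    congr 1
    · refine sum_congr rfl fun n hn => ?_
      have := mem_range.1 hn
      rw [map_add, Bound_coeff _ _ _ _ this.le, if_neg (by omega), add_zero]
    · rw [map_add, Bound_coeff _ _ _ _ le_rfl, if_pos rfl, h0]
  rw [e1, e2] at h
  nlinarith

/-- Entry of a list, zero beyond its end. -/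
def gt (L : List ℤ) (i : ℕ) : ℤ := L.getD i 0

/-- Finite sum by recursion. -/
def Sm : ℕ → (ℕ → ℤ) → ℤ
  | 0, _ => 0
  | n + 1, f => Sm n f + f n

lemma Sm_eq (n : ℕ) (f : ℕ → ℤ) : Sm n f = ∑ i ∈ range n, f i := by
  induction n with
  | zero => rfl
  | succ n ih => rw [Sm, ih, sum_range_succ]

lemma gt_of_le {L : List ℤ} {i : ℕ} (h : L.length ≤ i) : gt L i = 0 := List.getD_eq_default _ _ h

/-- The list is an initial segment of the sequence. -/
def Pre (u : ℕ → ℤ) (us : List ℤ) : Prop := ∀ i, i < us.length → u i = gt us i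

lemma Pre.snoc {u : ℕ → ℤ} {us : List ℤ} (h : Pre u us) {v : ℤ} (hv : u us.length = v) :
    Pre u (us ++ [v]) := by
  intro i hi
  simp only [List.length_append, List.length_singleton] at hi
  rcases Nat.lt_succ_iff_lt_or_eq.1 hi with h1 | h1
  · rw [h i h1]; unfold gt; rw [List.getD_append _ _ _ _ h1]
  · subst h1; rw [hv]; simp [gt]

/-- Coefficient of a product. -/
def cv (us W : List ℤ) (n : ℕ) : ℤ := Sm (n + 1) fun i => gt us i * gt W (n - i)

lemma coeff_GS_mul (u w : ℕ → ℤ) (n : ℕ) :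
    coeff n (GS u * GS w) = ((∑ i ∈ range (n + 1), u i * w (n - i) : ℤ) : ℝ) := by
  rw [coeff_mul, Finset.Nat.sum_antidiagonal_eq_sum_range_succ_mk]
  simp [GS]

lemma cv_eq {u : ℕ → ℤ} {us : List ℤ} (h : Pre u us) (W : List ℤ) {n : ℕ} (hn : n < us.length) :
    coeff n (GS u * GS (gt W)) = (cv us W n : ℝ) := by
  rw [coeff_GS_mul, cv, Sm_eq]
  congr 1
  refine sum_congr rfl fun i hi => ?_
  rw [h i (by have := mem_range.1 hi; omega)]

lemma cv_top {u : ℕ → ℤ} {us : List ℤ} (h : Pre u us) (W : List ℤ) :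
    coeff us.length (GS u * GS (gt W)) =
      ((u us.length * gt W 0 + cv us W us.length : ℤ) : ℝ) := by
  rw [coeff_GS_mul, cv, Sm_eq, sum_range_succ, sum_range_succ, gt_of_le le_rfl, Nat.sub_self]
  congr 1
  rw [zero_mul, add_zero, add_comm]
  congr 1
  refine sum_congr rfl fun i hi => ?_
  rw [h i (mem_range.1 hi)]

/-- The energy gap. -/
def gap (us W : List ℤ) : ℤ := Sm us.length fun n => cv us W n ^ 2 - gt W n ^ 2

lemma next_bound {t : ℝ} {u : ℕ → ℤ} (H : Data t u) {us : List ℤ} (h : Pre u us) (W : List ℤ)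
    (hW : W.length ≤ us.length) :
    (u us.length * gt W 0 + cv us W us.length) ^ 2 ≤ 3 * gap us W := by
  have h1 := H.bound (GS (gt W)) us.length (by simp [GS, gt_of_le hW])
  rw [cv_top h] at h1
  have h2 : En us.length (GS u * GS (gt W)) - En us.length (GS (gt W)) = (gap us W : ℝ) := by
    unfold En gap
    rw [Sm_eq, ← sum_sub_distrib]
    push_cast
    refine sum_congr rfl fun n hn => ?_
    rw [cv_eq h W (mem_range.1 hn)]; simp [GS]
  rw [h2] at h1
  exact_mod_cast h1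

/-- The real polynomial with the coefficients of a list. -/
noncomputable def PL (f : List ℤ) : Polynomial ℝ :=
  ∑ i ∈ range f.length, Polynomial.monomial i (gt f i : ℝ)

lemma PL_coe (f : List ℤ) : (PL f : ℝ⟦X⟧) = GS (gt f) := by
  ext n
  rw [Polynomial.coeff_coe, PL, Polynomial.finsetSum_coeff]
  simp only [Polynomial.coeff_monomial, GS, coeff_mk]
  rw [sum_ite_eq']
  split_ifs with h
  · rfl
  · rw [gt_of_le (by simpa using h)]; simp

lemma PL_eval (f : List ℤ) (x : ℝ) : (PL f).eval x = ∑ i ∈ range f.length, (gt f i : ℝ) * x ^ i := by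
  simp [PL, Polynomial.eval_finsetSum]

lemma term_sound {t : ℝ} {u : ℕ → ℤ} (H : Data t u) {us : List ℤ} (h : Pre u us) (f W : List ℤ)
    (hf : f.length ≤ us.length) (hW : W.length ≤ us.length)
    (h1 : ∀ r, r < us.length → cv us W r = gt f r) (h2 : gap us W = 0) :
    ∑ i ∈ range f.length, (gt f i : ℝ) * t⁻¹ ^ i = 0 := by
  rw [← PL_eval]
  refine H.root (PL f) (PL W) ?_
  rw [PL_coe, PL_coe]
  have hlow : ∀ r, r < us.length → coeff r (GS u * GS (gt W)) = (cv us W r : ℝ) :=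
    fun r hr => cv_eq h W hr
  have hE : En us.length (GS u * GS (gt W)) - En us.length (GS (gt W)) = 0 := by
    have : En us.length (GS u * GS (gt W)) - En us.length (GS (gt W)) = (gap us W : ℝ) := by
      unfold En gap
      rw [Sm_eq, ← sum_sub_distrib]
      push_cast
      refine sum_congr rfl fun n hn => ?_
      rw [hlow n (mem_range.1 hn)]; simp [GS]
    rw [this, h2]; simp
  have hWz : ∀ j, us.length ≤ j → coeff j (GS (gt W)) = 0 := fun j hj => by
    simp [GS, gt_of_le (hW.trans hj)]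
  have key : ∀ i, En (us.length + i) (GS u * GS (gt W)) - En (us.length + i) (GS (gt W)) = 0 := by
    intro i
    induction i with
    | zero => exact hE
    | succ i ih =>
      have hb := H.bound (GS (gt W)) (us.length + i) (hWz _ (Nat.le_add_right _ _))
      rw [ih] at hb
      have hz : coeff (us.length + i) (GS u * GS (gt W)) = 0 := by
        have := sq_nonneg (coeff (us.length + i) (GS u * GS (gt W)))
        exact pow_eq_zero_iff two_ne_zero |>.1 (le_antisymm (by linarith) this)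
      unfold En at ih ⊢
      rw [← add_assoc, sum_range_succ, sum_range_succ, hz, hWz _ (Nat.le_add_right _ _)]
      linarith
  ext n
  rcases lt_or_ge n us.length with hn | hn
  · rw [hlow n hn, h1 n hn]; simp [GS]
  · obtain ⟨i, rfl⟩ := Nat.exists_eq_add_of_le hn
    have hb := H.bound (GS (gt W)) (us.length + i) (hWz _ hn)
    rw [key i] at hb
    have := sq_nonneg (coeff (us.length + i) (GS u * GS (gt W)))
    rw [pow_eq_zero_iff two_ne_zero |>.1 (le_antisymm (by linarith) this)]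
    simp [GS, gt_of_le (hf.trans hn)]

/-- Shift of a sequence by one place. -/
def sh (f : ℕ → ℤ) : ℕ → ℤ
  | 0 => 0
  | n + 1 => f n

/-- Coefficients of the quadratic energy inequality. -/
def q0 (us W : List ℤ) : ℤ := Sm W.length fun n => sh (cv us W) n ^ 2 - gt W n ^ 2
/-- Linear coefficient. -/
def q1 (us W : List ℤ) : ℤ :=
  Sm W.length fun n => 2 * (sh (gt W) n * gt W n - cv us W n * sh (cv us W) n)
/-- Leading coefficient. -/
def q2 (us W : List ℤ) : ℤ := Sm W.length fun n => cv us W n ^ 2 - sh (gt W) n ^ 2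

lemma quad_nonneg {t : ℝ} {u : ℕ → ℤ} (H : Data t u) {us : List ℤ} (h : Pre u us) (W : List ℤ)
    (hW : W.length ≤ us.length) :
    0 ≤ (q0 us W : ℝ) + q1 us W * t + q2 us W * t ^ 2 := by
  have h1 := H.e1 (GS (gt W)) W.length
  have c1 : ∀ n, coeff n ((C t * X - 1) * GS (gt W)) = t * sh (gt W) n - gt W n := by
    intro n
    rw [sub_mul, one_mul, mul_assoc, map_sub, coeff_C_mul]
    cases n with
    | zero => simp [GS, sh]
    | succ n => rw [coeff_succ_X_mul]; simp [GS, sh]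
  have c2 : ∀ n, n < W.length → coeff n ((C t - X) * (GS u * GS (gt W))) =
      t * cv us W n - sh (cv us W) n := by
    intro n hn
    rw [sub_mul, map_sub, coeff_C_mul, cv_eq h W (by omega)]
    cases n with
    | zero => simp [sh]
    | succ n => rw [coeff_succ_X_mul, cv_eq h W (by omega)]; simp [sh]
  unfold En at h1
  rw [← sub_nonneg, ← sum_sub_distrib] at h1
  refine h1.trans_eq ?_
  unfold q0 q1 q2
  simp only [Sm_eq]
  push_cast
  rw [sum_mul, sum_mul, ← sum_add_distrib, ← sum_add_distrib]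
  refine sum_congr rfl fun n hn => ?_
  rw [c1 n, c2 n (mem_range.1 hn)]
  ring

lemma quad_neg {A B Q a b c t : ℝ} (ha : a ≤ t) (hb : t ≤ b) (hc : 0 ≤ c)
    (hq : -Q * (b - a) ^ 2 ≤ 4 * c) (h1 : A + B * a + Q * a ^ 2 + c < 0)
    (h2 : A + B * b + Q * b ^ 2 + c < 0) : A + B * t + Q * t ^ 2 < 0 := by
  rcases (ha.trans hb).eq_or_lt with h | h
  · have : t = a := le_antisymm (h ▸ hb) ha
    subst this; linarith
  have h3 : -Q * ((t - a) * (b - t)) ≤ c := by
    have h4 : 0 ≤ (t - a) * (b - t) := mul_nonneg (by linarith) (by linarith)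
    rcases le_total 0 Q with hQ | hQ
    · nlinarith
    · nlinarith [sq_nonneg (a + b - 2 * t)]
  have h5 : (b - a) * (A + B * t + Q * t ^ 2) = (b - t) * (A + B * a + Q * a ^ 2) +
      (t - a) * (A + B * b + Q * b ^ 2) + (b - a) * (-Q * ((t - a) * (b - t))) := by ring
  by_contra hn
  have h6 : 0 ≤ (b - a) * (A + B * t + Q * t ^ 2) := mul_nonneg (by linarith) (not_lt.1 hn)
  have h7 := mul_le_mul_of_nonneg_left h3 (show 0 ≤ b - a by linarith)
  rcases ha.eq_or_lt with h8 | h8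
  · subst h8; nlinarith
  · nlinarith

end Pool.Agent.MP_994d64_an.Ex

end

section

namespace Pool.Agent.MP_994d64_an.Ex

open Finset

lemma PhiA_split (f g : PowerSeries ℝ) (a b : ℕ) (ha : 7 ≤ a)
    (hf : ∀ n, 7 ≤ n → PowerSeries.coeff n f = 0) :
    En (a + b) (f + PowerSeries.X ^ a * g) = En 7 f + En b g := by
  obtain ⟨c, rfl⟩ := Nat.exists_eq_add_of_le ha
  unfold En
  rw [sum_range_add, sum_range_add]
  have e1 : ∑ n ∈ range 7, PowerSeries.coeff n (f + PowerSeries.X ^ (7 + c) * g) ^ 2 =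
      ∑ n ∈ range 7, PowerSeries.coeff n f ^ 2 := by
    refine sum_congr rfl fun n hn => ?_
    have : ¬ (7 + c ≤ n) := by have := mem_range.mp hn; omega
    rw [map_add, PowerSeries.coeff_X_pow_mul', if_neg this, add_zero]
  have e2 : ∑ n ∈ range c, PowerSeries.coeff (7 + n) (f + PowerSeries.X ^ (7 + c) * g) ^ 2 = 0 := by
    refine sum_eq_zero fun n hn => ?_
    have : ¬ (7 + c ≤ 7 + n) := by have := mem_range.mp hn; omega
    rw [map_add, PowerSeries.coeff_X_pow_mul', if_neg this, add_zero, hf _ (by omega)]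
    simp
  have e3 : ∑ n ∈ range b, PowerSeries.coeff (7 + c + n) (f + PowerSeries.X ^ (7 + c) * g) ^ 2 =
      ∑ n ∈ range b, PowerSeries.coeff n g ^ 2 := by
    refine sum_congr rfl fun n _ => ?_
    rw [map_add, PowerSeries.coeff_X_pow_mul', if_pos (by omega), hf _ (by omega), zero_add,
      Nat.add_sub_cancel_left]
  rw [e1, e2, e3, add_zero]

lemma PhiA_mulA (f : PowerSeries ℝ) (n : ℕ) :
    PowerSeries.coeff n ((1 - PowerSeries.X - PowerSeries.X ^ 2) * f) =
      PowerSeries.coeff n f - (if 1 ≤ n then PowerSeries.coeff (n - 1) f else 0) -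
        (if 2 ≤ n then PowerSeries.coeff (n - 2) f else 0) := by
  have : (1 - PowerSeries.X - PowerSeries.X ^ 2) * f =
      f - PowerSeries.X ^ 1 * f - PowerSeries.X ^ 2 * f := by ring
  rw [this, map_sub, map_sub, PowerSeries.coeff_X_pow_mul', PowerSeries.coeff_X_pow_mul']

lemma PhiA_mulC (f : PowerSeries ℝ) (n : ℕ) :
    PowerSeries.coeff n ((2 - PowerSeries.X ^ 2) * f) =
      2 * PowerSeries.coeff n f - (if 2 ≤ n then PowerSeries.coeff (n - 2) f else 0) := by
  have : (2 - PowerSeries.X ^ 2) * f = f + f - PowerSeries.X ^ 2 * f := by ring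
  rw [this, map_sub, map_add, PowerSeries.coeff_X_pow_mul']
  ring

lemma PhiA_coeffC (n : ℕ) :
    PowerSeries.coeff n (2 - PowerSeries.X ^ 2 : PowerSeries ℝ) =
      if n = 0 then 2 else if n = 2 then -1 else 0 := by
  rw [← mul_one (2 - PowerSeries.X ^ 2 : PowerSeries ℝ), PhiA_mulC]
  rcases n with _ | _ | _ | n <;> simp [PowerSeries.coeff_one]

/-- the short test series -/
noncomputable def PhiA_S : PowerSeries ℝ :=
  PowerSeries.mk fun n => if n = 0 then 1 else if n = 2 then 2 / 3 else if n = 4 then 1 / 3 else 0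

/-- the correction -/
noncomputable def PhiA_T (k m : ℝ) : PowerSeries ℝ :=
  PowerSeries.mk fun n => if n = 0 then k / 4 else if n = 1 then m / 3 else if n = 2 then k / 2
    else if n = 3 then 2 * m / 3 else if n = 4 then 3 * k / 4 else if n = 5 then m
    else if n = 6 then k else if n = 7 then m - k else if n = 8 then -m else 0

lemma PhiA_key (a : ℕ) (ha : 7 ≤ a) (r : PowerSeries ℝ) (k m : ℝ)
    (r0 : PowerSeries.coeff 0 r = k) (r1 : PowerSeries.coeff 1 r = k + m)
    (h : En (a + 9) ((1 - PowerSeries.X - PowerSeries.X ^ 2) *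
        (PhiA_S + PowerSeries.X ^ a * PhiA_T k m)) ≤
      En (a + 9) (((2 - PowerSeries.X ^ 2) + PowerSeries.X ^ (a + 7) * r) *
        (PhiA_S + PowerSeries.X ^ a * PhiA_T k m))) :
    9 * k ^ 2 + 8 * m ^ 2 ≤ 16 := by
  have e1 : (1 - PowerSeries.X - PowerSeries.X ^ 2) * (PhiA_S + PowerSeries.X ^ a * PhiA_T k m) =
      (1 - PowerSeries.X - PowerSeries.X ^ 2) * PhiA_S + PowerSeries.X ^ a *
        ((1 - PowerSeries.X - PowerSeries.X ^ 2) * PhiA_T k m) := by ring
  have e2 : ((2 - PowerSeries.X ^ 2) + PowerSeries.X ^ (a + 7) * r) *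
      (PhiA_S + PowerSeries.X ^ a * PhiA_T k m) =
      (2 - PowerSeries.X ^ 2) * PhiA_S + PowerSeries.X ^ a *
        ((2 - PowerSeries.X ^ 2) * PhiA_T k m + PowerSeries.X ^ 7 * (r * PhiA_S) +
          PowerSeries.X ^ (a + 7) * (r * PhiA_T k m)) := by ring
  rw [e1, e2, PhiA_split _ _ _ _ ha, PhiA_split _ _ _ _ ha] at h
  · have s0 : PowerSeries.coeff 0 (r * PhiA_S) = k := by
      rw [PowerSeries.coeff_mul]
      simp [PhiA_S, ← r0]
    have s1 : PowerSeries.coeff 1 (r * PhiA_S) = k + m := by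
      rw [PowerSeries.coeff_mul]
      simp [PhiA_S, Finset.Nat.antidiagonal_succ, r1]
    have z : ∀ n, n < 9 → PowerSeries.coeff n (PowerSeries.X ^ (a + 7) * (r * PhiA_T k m)) = 0 := by
      intro n hn
      rw [PowerSeries.coeff_X_pow_mul', if_neg (by omega)]
    have e3 : En 9 ((2 - PowerSeries.X ^ 2) * PhiA_T k m + PowerSeries.X ^ 7 * (r * PhiA_S) +
          PowerSeries.X ^ (a + 7) * (r * PhiA_T k m)) =
        ∑ n ∈ range 9, (PowerSeries.coeff n ((2 - PowerSeries.X ^ 2) * PhiA_T k m) +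
          if n = 7 then k else if n = 8 then k + m else 0) ^ 2 := by
      refine sum_congr rfl fun n hn => ?_
      have hn' := mem_range.mp hn
      rw [map_add, map_add, z n hn', add_zero, PowerSeries.coeff_X_pow_mul']
      interval_cases n <;> simp [s1, ← s0]
    rw [e3] at h
    simp only [En, PhiA_mulA, PhiA_mulC, sum_range_succ, sum_range_zero, PhiA_S, PhiA_T,
      PowerSeries.coeff_mk] at h
    norm_num at h
    nlinarith [h]
  · intro n hn
    obtain ⟨c, rfl⟩ := Nat.exists_eq_add_of_le' hn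
    rw [PhiA_mulC]
    simp [PhiA_S]
  · intro n hn
    obtain ⟨c, rfl⟩ := Nat.exists_eq_add_of_le' hn
    rw [PhiA_mulA]
    simp [PhiA_S]

lemma PhiA_coeff (u : ℕ → ℤ) (n : ℕ) :
    PowerSeries.coeff (n + 2) ((1 - PowerSeries.X - PowerSeries.X ^ 2) * GS u) =
      ((u (n + 2) - u (n + 1) - u n : ℤ) : ℝ) := by
  rw [PhiA_mulA]
  simp [GS]

lemma PhiA_low {u : ℕ → ℤ} (h0 : u 0 = 2) (h1 : u 1 = 2) (h2 : u 2 = 3) (n : ℕ)
    (h : 3 ≤ n → u n = u (n - 1) + u (n - 2)) :
    PowerSeries.coeff n ((1 - PowerSeries.X - PowerSeries.X ^ 2) * GS u) =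
      PowerSeries.coeff n (2 - PowerSeries.X ^ 2 : PowerSeries ℝ) := by
  rw [PhiA_coeffC, PhiA_mulA]
  rcases n with _ | _ | _ | n
  · simp [GS, h0]
  · simp [GS, h0, h1]
  · simp [GS, h0, h1, h2]
    norm_num
  · have := h (by omega)
    simp only [Nat.add_succ_sub_one, show n + 1 + 1 + 1 - 2 = n + 1 from rfl] at this
    simp [GS, this]

theorem Data.phiA {t : ℝ} {u : ℕ → ℤ} (H : Data t u) (h1 : u 1 = 2) (h2 : u 2 = 3)
    (h3 : ∀ n, 1 ≤ n → n < 12 → u (n + 2) = u (n + 1) + u n) :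
    t⁻¹ ^ 2 = 2 ∨ ∃ M, 12 ≤ M ∧ (∀ n, 1 ≤ n → n < M → u (n + 2) = u (n + 1) + u n) ∧
      Odd (u (M + 2) - u (M + 1) - u M) ∧ Odd (u (M + 3) - u (M + 2) - u (M + 1)) := by
  classical
  by_cases hall : ∃ n, 1 ≤ n ∧ u (n + 2) ≠ u (n + 1) + u n
  · right
    have hM := Nat.find_spec hall
    have hlt : ∀ n, 1 ≤ n → n < Nat.find hall → u (n + 2) = u (n + 1) + u n := by
      intro n hn hn'
      by_contra hc
      exact Nat.find_min hall hn' ⟨hn, hc⟩
    set M := Nat.find hall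
    have h12 : 12 ≤ M := by
      by_contra hc
      exact hM.2 (h3 M hM.1 (by omega))
    refine ⟨M, h12, hlt, ?_⟩
    obtain ⟨a, ha⟩ : ∃ a, M + 2 = a + 7 := ⟨M - 5, by omega⟩
    set h := (1 - PowerSeries.X - PowerSeries.X ^ 2) * GS u with hh
    set r : PowerSeries ℝ := PowerSeries.mk fun n => PowerSeries.coeff (n + (M + 2)) h with hr
    have hdec : h = (2 - PowerSeries.X ^ 2) + PowerSeries.X ^ (a + 7) * r := by
      ext n
      rw [map_add, PowerSeries.coeff_X_pow_mul', ← ha]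
      split_ifs with hn
      · rw [PhiA_coeffC, if_neg (by omega), if_neg (by omega), hr, PowerSeries.coeff_mk, zero_add,
          Nat.sub_add_cancel hn]
      · rw [add_zero, hh]
        refine PhiA_low H.u0 h1 h2 n fun h3n => ?_
        have := hlt (n - 2) (by omega) (by omega)
        rwa [show n - 2 + 2 = n by omega, show n - 2 + 1 = n - 1 by omega] at this
    set k : ℤ := u (M + 2) - u (M + 1) - u M with hk
    set b : ℤ := u (M + 3) - u (M + 2) - u (M + 1) with hb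
    have r0 : PowerSeries.coeff 0 r = (k : ℝ) := by
      rw [hr, PowerSeries.coeff_mk, zero_add, hh, PhiA_coeff]
    have r1 : PowerSeries.coeff 1 r = (k : ℝ) + ((b - k : ℤ) : ℝ) := by
      rw [hr, PowerSeries.coeff_mk, show 1 + (M + 2) = M + 1 + 2 by omega, hh, PhiA_coeff]
      rw [hb]
      push_cast
      ring
    have key := PhiA_key a (by omega) r k ((b - k : ℤ) : ℝ) r0 r1 (by
      have := H.e0 ((1 - PowerSeries.X - PowerSeries.X ^ 2) *
        (PhiA_S + PowerSeries.X ^ a * PhiA_T k ((b - k : ℤ) : ℝ))) (a + 9)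
      rwa [← mul_assoc, mul_comm (GS u), ← hh, hdec] at this)
    have key' : 9 * k ^ 2 + 8 * (b - k) ^ 2 ≤ 16 := by exact_mod_cast key
    have k0 : k ≠ 0 := fun hc => hM.2 (by omega)
    have k1 : 1 ≤ k ^ 2 := by
      have := sq_pos_of_ne_zero k0
      omega
    have b1 : b = k := by
      by_contra hc
      have : 0 < (b - k) ^ 2 := sq_pos_of_ne_zero (sub_ne_zero.mpr hc)
      omega
    have k2 : k = 1 ∨ k = -1 := by
      have : k ^ 2 = 1 := by nlinarith [sq_nonneg (b - k)]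
      exact sq_eq_one_iff.mp this
    rw [b1]
    rcases k2 with h' | h' <;> rw [h'] <;> decide
  · left
    push Not at hall
    have := H.root (2 - Polynomial.X ^ 2) (1 - Polynomial.X - Polynomial.X ^ 2) (by
      have e1 : ((1 - Polynomial.X - Polynomial.X ^ 2 : Polynomial ℝ) : PowerSeries ℝ) =
          1 - PowerSeries.X - PowerSeries.X ^ 2 := by simp
      have e2 : ((2 - Polynomial.X ^ 2 : Polynomial ℝ) : PowerSeries ℝ) =
          2 - PowerSeries.X ^ 2 := by
        have : (2 : Polynomial ℝ) = 1 + 1 := by norm_num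
        rw [this]
        simp
        norm_num
      rw [e1, e2, mul_comm]
      ext n
      refine PhiA_low H.u0 h1 h2 n fun h3n => ?_
      have := hall (n - 2) (by omega)
      rwa [show n - 2 + 2 = n by omega, show n - 2 + 1 = n - 1 by omega] at this)
    simp only [Polynomial.eval_sub, Polynomial.eval_pow, Polynomial.eval_X,
      Polynomial.eval_ofNat] at this
    linarith

end Pool.Agent.MP_994d64_an.Ex

end

section

namespace Pool.Agent.MP_994d64_an.Ex

open Complex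

lemma Out_aux {z A : ℂ} {S : ℝ} (hS : 0 < S)
    (h : ((-normSq A : ℝ) : ℂ) = (((1 - normSq z) * S : ℝ) : ℂ)) : 1 ≤ ‖z‖ := by
  have h1 : -normSq A = (1 - normSq z) * S := by exact_mod_cast h
  by_contra hn
  have h2 : normSq z < 1 := by
    rw [normSq_eq_norm_sq]; nlinarith [norm_nonneg z, not_le.1 hn]
  nlinarith [normSq_nonneg A, mul_pos (sub_pos.2 h2) hS]

theorem out1 {z : ℂ} (h : z ^ 3 - 2 * z - 2 = 0) : 1 ≤ ‖z‖ := by
  refine Out_aux (A := -2 * z ^ 3 - 2 * z ^ 2 + 1)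
    (S := 1 / 3 * normSq (3 * z ^ 2 + 4 * z + 2) +
      1 / 15 * normSq (5 * z + 4) +
      3 / 5) ?_ ?_
  · linarith [normSq_nonneg (3 * z ^ 2 + 4 * z + 2), normSq_nonneg (5 * z + 4)]
  · push_cast
    simp only [normSq_eq_conj_mul_self, map_add, map_sub, map_mul, map_pow, map_neg, map_one,
      map_ofNat]
    generalize (starRingEnd ℂ) z = w
    linear_combination -(w ^ 3 - 2 * w - 2) * h

theorem out2 {z : ℂ} (h : z ^ 3 - z ^ 2 - 2 = 0) : 1 ≤ ‖z‖ := by
  refine Out_aux (A := -2 * z ^ 3 - z + 1)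
    (S := 1 / 3 * normSq (3 * z ^ 2 + z + 2) +
      1 / 15 * normSq (5 * z + 1) +
      8 / 5) ?_ ?_
  · linarith [normSq_nonneg (3 * z ^ 2 + z + 2), normSq_nonneg (5 * z + 1)]
  · push_cast
    simp only [normSq_eq_conj_mul_self, map_add, map_sub, map_mul, map_pow, map_neg, map_one,
      map_ofNat]
    generalize (starRingEnd ℂ) z = w
    linear_combination -(w ^ 3 - w ^ 2 - 2) * h

theorem out3 {z : ℂ} (h : z ^ 3 - 2 * z ^ 2 + 2 * z - 2 = 0) : 1 ≤ ‖z‖ := by
  refine Out_aux (A := -2 * z ^ 3 + 2 * z ^ 2 - 2 * z + 1)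
    (S := 1 / 3 * normSq (3 * z ^ 2 - 2 * z + 2) +
      1 / 15 * normSq (5 * z - 2) +
      7 / 5) ?_ ?_
  · linarith [normSq_nonneg (3 * z ^ 2 - 2 * z + 2), normSq_nonneg (5 * z - 2)]
  · push_cast
    simp only [normSq_eq_conj_mul_self, map_add, map_sub, map_mul, map_pow, map_neg, map_one,
      map_ofNat]
    generalize (starRingEnd ℂ) z = w
    linear_combination -(w ^ 3 - 2 * w ^ 2 + 2 * w - 2) * h

theorem out4 {z : ℂ} (h : z ^ 4 - 2 * z ^ 3 + 2 * z - 2 = 0) : 1 ≤ ‖z‖ := by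
  refine Out_aux (A := -2 * z ^ 4 + 2 * z ^ 3 - 2 * z + 1)
    (S := 1 / 3 * normSq (3 * z ^ 3 - 2 * z ^ 2 + 2) +
      1 / 15 * normSq (5 * z ^ 2 - 6 * z + 4) +
      1 / 15 * normSq (3 * z - 2) +
      1 / 3) ?_ ?_
  · linarith [normSq_nonneg (3 * z ^ 3 - 2 * z ^ 2 + 2), normSq_nonneg (5 * z ^ 2 - 6 * z + 4), normSq_nonneg (3 * z - 2)]
  · push_cast
    simp only [normSq_eq_conj_mul_self, map_add, map_sub, map_mul, map_pow, map_neg, map_one,
      map_ofNat]
    generalize (starRingEnd ℂ) z = w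
    linear_combination -(w ^ 4 - 2 * w ^ 3 + 2 * w - 2) * h

theorem out5 {z : ℂ} (h : z ^ 5 - z ^ 4 - z ^ 3 + z ^ 2 - 2 = 0) : 1 ≤ ‖z‖ := by
  refine Out_aux (A := -2 * z ^ 5 + z ^ 3 - z ^ 2 - z + 1)
    (S := 1 / 3 * normSq (3 * z ^ 4 + z ^ 3 - z ^ 2 + z + 2) +
      1 / 15 * normSq (5 * z ^ 3 + z ^ 2 - z + 1) +
      1 / 10 * normSq (4 * z ^ 2 + z - 1) +
      1 / 6 * normSq (3 * z + 1) +
      4 / 3) ?_ ?_
  · linarith [normSq_nonneg (3 * z ^ 4 + z ^ 3 - z ^ 2 + z + 2), normSq_nonneg (5 * z ^ 3 + z ^ 2 - z + 1), normSq_nonneg (4 * z ^ 2 + z - 1), normSq_nonneg (3 * z + 1)]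
  · push_cast
    simp only [normSq_eq_conj_mul_self, map_add, map_sub, map_mul, map_pow, map_neg, map_one,
      map_ofNat]
    generalize (starRingEnd ℂ) z = w
    linear_combination -(w ^ 5 - w ^ 4 - w ^ 3 + w ^ 2 - 2) * h

theorem out6 {z : ℂ} (h : z ^ 6 - 2 * z ^ 5 + z ^ 4 - z ^ 2 + 2 * z - 2 = 0) : 1 ≤ ‖z‖ := by
  refine Out_aux (A := -2 * z ^ 6 + 2 * z ^ 5 - z ^ 4 + z ^ 2 - 2 * z + 1)
    (S := 1 / 3 * normSq (3 * z ^ 5 - 2 * z ^ 4 + z ^ 3 - z + 2) +
      1 / 15 * normSq (5 * z ^ 4 - 4 * z ^ 3 + 3 * z ^ 2 - 2 * z + 1) +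
      1 / 10 * normSq (4 * z ^ 3 - 3 * z ^ 2 + 2 * z - 1) +
      1 / 6 * normSq (3 * z ^ 2 - 2 * z + 1) +
      1 / 3 * normSq (2 * z - 1) +
      1 / 1) ?_ ?_
  · linarith [normSq_nonneg (3 * z ^ 5 - 2 * z ^ 4 + z ^ 3 - z + 2), normSq_nonneg (5 * z ^ 4 - 4 * z ^ 3 + 3 * z ^ 2 - 2 * z + 1), normSq_nonneg (4 * z ^ 3 - 3 * z ^ 2 + 2 * z - 1), normSq_nonneg (3 * z ^ 2 - 2 * z + 1), normSq_nonneg (2 * z - 1)]
  · push_cast
    simp only [normSq_eq_conj_mul_self, map_add, map_sub, map_mul, map_pow, map_neg, map_one,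
      map_ofNat]
    generalize (starRingEnd ℂ) z = w
    linear_combination -(w ^ 6 - 2 * w ^ 5 + w ^ 4 - w ^ 2 + 2 * w - 2) * h

end Pool.Agent.MP_994d64_an.Ex

end
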